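import Pool.Agent.H83.MC.Trig

/-!
# The real projective plane and the real part of a curve
-/

open MvPolynomial

namespace Pool.Agent.H83.MC

noncomputable section

/-- The nonzero vectors of `ℝ³`. -/
def NZ : Type := {v : Fin 3 → ℝ // v ≠ 0}

instance : TopologicalSpace NZ :=
  inferInstanceAs (TopologicalSpace {v : Fin 3 → ℝ // v ≠ 0})

/-- Two nonzero vectors are equivalent if they are proportional. -/
instance prSetoid : Setoid NZ where
  r v w := ∃ c : ℝ, w.1 = c • v.1
  iseqv := by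
    refine ⟨fun v => ⟨1, by simp⟩, ?_, ?_⟩
    · rintro v w ⟨c, hc⟩
      have hc0 : c ≠ 0 := by
        rintro rfl
        exact w.2 (by simp [hc])
      exact ⟨c⁻¹, by rw [hc, smul_smul, inv_mul_cancel₀ hc0, one_smul]⟩
    · rintro u v w ⟨a, ha⟩ ⟨b, hb⟩
      exact ⟨b * a, by rw [hb, ha, smul_smul]⟩

/-- The real projective plane. -/
def RP2 : Type := Quotient prSetoid

instance : TopologicalSpace RP2 := inferInstanceAs (TopologicalSpace (Quotient prSetoid))

/-- The point of the projective plane given by a nonzero vector. -/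
def mkP (v : NZ) : RP2 := Quotient.mk prSetoid v

/-- The real part of the curve `F = 0`. -/
def realPart (F : MvPolynomial (Fin 3) ℝ) : Set RP2 :=
  {p | ∃ v : NZ, mkP v = p ∧ eval v.1 F = 0}

theorem continuous_mkP : Continuous mkP := continuous_quotient_mk'

theorem mkP_eq {v w : NZ} : mkP v = mkP w ↔ ∃ c : ℝ, w.1 = c • v.1 := Quotient.eq (r := prSetoid)

theorem smul_ne {v w : NZ} {c : ℝ} (h : w.1 = c • v.1) : c ≠ 0 := by
  rintro rfl
  exact w.2 (by simp [h])

theorem eval_smul' {F : MvPolynomial (Fin 3) ℝ} {d : ℕ} (hF : F.IsHomogeneous d) (c : ℝ)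
    (v : Fin 3 → ℝ) : eval (c • v) F = c ^ d * eval v F := by
  rw [MvPolynomial.eval_eq', MvPolynomial.eval_eq', Finset.mul_sum]
  refine Finset.sum_congr rfl fun m hm => ?_
  have h := deg_le hF hm
  simp only [Fin.prod_univ_three, Pi.smul_apply, smul_eq_mul, mul_pow]
  rw [← h, pow_add, pow_add]
  ring

theorem mem_realPart {F : MvPolynomial (Fin 3) ℝ} {d : ℕ} (hF : F.IsHomogeneous d) (v : NZ) :
    mkP v ∈ realPart F ↔ eval v.1 F = 0 := by
  constructor
  · rintro ⟨w, hw, h⟩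
    obtain ⟨c, hc⟩ := mkP_eq.1 hw
    rw [hc, eval_smul' hF, h, mul_zero]
  · intro h
    exact ⟨v, rfl, h⟩

theorem continuous_eval (F : MvPolynomial (Fin 3) ℝ) :
    Continuous fun v : Fin 3 → ℝ => eval v F := MvPolynomial.continuous_eval F

theorem isCompact_realPart {F : MvPolynomial (Fin 3) ℝ} {d : ℕ} (hF : F.IsHomogeneous d) :
    IsCompact (realPart F) := by
  set A : Set (Fin 3 → ℝ) := Metric.sphere 0 1 ∩ {v | eval v F = 0} with hA
  have hAc : IsCompact A :=
    (isCompact_sphere 0 1).inter_right (isClosed_eq (continuous_eval F) continuous_const)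
  have hne : ∀ v : A, (v : Fin 3 → ℝ) ≠ 0 := by
    rintro ⟨v, hv⟩ h0
    have h1 := hv.1
    simp only at h0
    rw [h0] at h1
    simp at h1
  set f : A → RP2 := fun v => mkP ⟨v.1, hne v⟩ with hf
  have hfc : Continuous f :=
    continuous_mkP.comp (Continuous.subtype_mk continuous_subtype_val _)
  have hr : realPart F = Set.range f := by
    ext p
    constructor
    · rintro ⟨v, hv, h⟩
      have hv0 : ‖v.1‖ ≠ 0 := norm_ne_zero_iff.2 v.2
      refine ⟨⟨(‖v.1‖⁻¹) • v.1, ?_, ?_⟩, ?_⟩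
      · rw [mem_sphere_zero_iff_norm, norm_smul, norm_inv, norm_norm, inv_mul_cancel₀ hv0]
      · change eval _ F = 0
        rw [eval_smul' hF, h, mul_zero]
      · rw [← hv]
        exact mkP_eq.2 ⟨‖v.1‖, by simp [smul_smul, mul_inv_cancel₀ hv0]⟩
    · rintro ⟨v, rfl⟩
      exact ⟨_, rfl, v.2.2⟩
  rw [hr]
  have : CompactSpace A := isCompact_iff_compactSpace.1 hAc
  exact isCompact_range hfc

/-- The point `(cos t : sin t : s)`. -/
def psi (s t : ℝ) : RP2 := mkP ⟨![Real.cos t, Real.sin t, s], by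
  intro h
  have h0 := congrFun h 0
  have h1 := congrFun h 1
  simp at h0 h1
  have := Real.cos_sq_add_sin_sq t
  rw [h0, h1] at this
  norm_num at this⟩

theorem continuous_psi : Continuous fun x : ℝ × ℝ => psi x.1 x.2 := by
  refine continuous_mkP.comp (Continuous.subtype_mk ?_ _)
  refine continuous_pi fun i => ?_
  fin_cases i
  · exact Real.continuous_cos.comp continuous_snd
  · exact Real.continuous_sin.comp continuous_snd
  · exact continuous_fst

theorem psi_mem {F : MvPolynomial (Fin 3) ℝ} {d : ℕ} (hF : F.IsHomogeneous d) (s t : ℝ) :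
    psi s t ∈ realPart F ↔ hh F s t = 0 := mem_realPart hF _

theorem psi_add_pi (s t : ℝ) : psi s (t + Real.pi) = psi (-s) t := by
  refine mkP_eq.2 ⟨-1, ?_⟩
  ext i
  fin_cases i <;> simp

/-- `z² / (x² + y² + z²)`. -/
def ph : RP2 → ℝ := Quotient.lift
  (fun v : NZ => v.1 2 ^ 2 / (v.1 0 ^ 2 + v.1 1 ^ 2 + v.1 2 ^ 2)) (by
    rintro v w ⟨c, hc⟩
    have hc0 := smul_ne hc
    simp only [hc, Pi.smul_apply, smul_eq_mul]
    rw [show (c * v.1 0) ^ 2 + (c * v.1 1) ^ 2 + (c * v.1 2) ^ 2 =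
      c ^ 2 * (v.1 0 ^ 2 + v.1 1 ^ 2 + v.1 2 ^ 2) by ring, mul_pow,
      mul_div_mul_left _ _ (pow_ne_zero 2 hc0)])

theorem sq_sum_pos (v : NZ) : 0 < v.1 0 ^ 2 + v.1 1 ^ 2 + v.1 2 ^ 2 := by
  rcases eq_or_ne (v.1 0) 0 with h0 | h0
  · rcases eq_or_ne (v.1 1) 0 with h1 | h1
    · have h2 : v.1 2 ≠ 0 := by
        intro h2
        exact v.2 (by ext i; fin_cases i <;> simpa)
      positivity
    · positivity
  · positivity

theorem continuous_ph : Continuous ph := by
  refine Continuous.quotient_lift ?_ _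
  have h : ∀ i : Fin 3, Continuous fun v : NZ => v.1 i := fun i =>
    (continuous_apply i).comp continuous_subtype_val
  exact Continuous.div ((h 2).pow 2) ((((h 0).pow 2).add ((h 1).pow 2)).add ((h 2).pow 2))
    fun v => (sq_sum_pos v).ne'

theorem ph_psi (s t : ℝ) : ph (psi s t) = s ^ 2 / (1 + s ^ 2) := by
  change s ^ 2 / (Real.cos t ^ 2 + Real.sin t ^ 2 + s ^ 2) = _
  rw [Real.cos_sq_add_sin_sq]

theorem ph_lt {s s' t t' : ℝ} (hs : 0 ≤ s) (h : s < s') : ph (psi s t) < ph (psi s' t') := by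
  rw [ph_psi, ph_psi, div_lt_div_iff₀ (by positivity) (by positivity)]
  nlinarith [mul_pos (show 0 < s' - s by linarith) (show 0 < s' + s by linarith)]

theorem ph_eq {s s' t t' : ℝ} (hs : 0 ≤ s) (hs' : 0 ≤ s') (h : ph (psi s t) = ph (psi s' t')) :
    s = s' := by
  rcases lt_trichotomy s s' with h1 | h1 | h1
  · exact absurd h (ph_lt hs h1).ne
  · exact h1
  · exact absurd h (ph_lt hs' h1).ne'

/-- Every point of the plane except `(0 : 0 : 1)` is of the form `psi s t`, `s ≥ 0`. -/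
theorem exists_psi {F : MvPolynomial (Fin 3) ℝ} {d : ℕ} (hF : F.IsHomogeneous d)
    (h0 : eval ![0, 0, 1] F ≠ 0) {p : RP2} (hp : p ∈ realPart F) :
    ∃ s t : ℝ, 0 ≤ s ∧ p = psi s t ∧ hh F s t = 0 := by
  obtain ⟨v, rfl, hv⟩ := hp
  have key : ∀ v : NZ, eval v.1 F = 0 → 0 ≤ v.1 2 →
      ∃ s t : ℝ, 0 ≤ s ∧ mkP v = psi s t ∧ hh F s t = 0 := by
    intro v hv hpos
    set z : ℂ := ⟨v.1 0, v.1 1⟩ with hz
    have hz0 : z ≠ 0 := by
      intro hz0
      have e0 : v.1 0 = 0 := congrArg Complex.re hz0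
      have e1 : v.1 1 = 0 := congrArg Complex.im hz0
      have e : v.1 = v.1 2 • ![0, 0, 1] := by
        ext i; fin_cases i <;> simp [e0, e1]
      rw [e, eval_smul' hF] at hv
      rcases mul_eq_zero.1 hv with h | h
      · have : v.1 2 = 0 := eq_zero_of_pow_eq_zero h
        exact v.2 (by rw [e, this, zero_smul])
      · exact h0 h
    have hr : 0 < ‖z‖ := norm_pos_iff.2 hz0
    have e0 : v.1 0 = ‖z‖ * Real.cos (Complex.arg z) := (Complex.norm_mul_cos_arg z).symm
    have e1 : v.1 1 = ‖z‖ * Real.sin (Complex.arg z) := (Complex.norm_mul_sin_arg z).symm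
    have e : v.1 = ‖z‖ • ![Real.cos (Complex.arg z), Real.sin (Complex.arg z), v.1 2 / ‖z‖] := by
      ext i
      fin_cases i
      · simpa using e0
      · simpa using e1
      · simp [mul_div_cancel₀ _ hr.ne']
    refine ⟨v.1 2 / ‖z‖, Complex.arg z, by positivity, ?_, ?_⟩
    · exact (mkP_eq.2 ⟨‖z‖, e⟩).symm
    · rw [e, eval_smul' hF] at hv
      exact (mul_eq_zero.1 hv).resolve_left (pow_ne_zero _ hr.ne')
  rcases le_total 0 (v.1 2) with h | h
  · exact key v hv h
  · have h1 : (-v.1) ≠ 0 := neg_ne_zero.2 v.2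
    obtain ⟨s, t, hs, hp, hh⟩ := key ⟨-v.1, h1⟩ (by
      have : (-v.1) = (-1 : ℝ) • v.1 := by simp
      simp only
      rw [this, eval_smul' hF, hv, mul_zero]) (by simpa using h)
    refine ⟨s, t, hs, ?_, hh⟩
    rw [← hp]
    exact mkP_eq.2 ⟨-1, by simp⟩

/-- The map of the projective plane given by an invertible linear map. -/
def gmap (g : (Fin 3 → ℝ) ≃ₗ[ℝ] (Fin 3 → ℝ)) : RP2 → RP2 :=
  Quotient.lift (fun v : NZ => mkP ⟨g v.1, by
    intro h
    exact v.2 (g.map_eq_zero_iff.1 h)⟩) (by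
    rintro v w ⟨c, hc⟩
    exact mkP_eq.2 ⟨c, by simp [hc]⟩)

theorem continuous_gmap (g : (Fin 3 → ℝ) ≃ₗ[ℝ] (Fin 3 → ℝ)) : Continuous (gmap g) := by
  refine Continuous.quotient_lift ?_ _
  refine continuous_mkP.comp (Continuous.subtype_mk ?_ _)
  exact (LinearMap.continuous_of_finiteDimensional g.toLinearMap).comp continuous_subtype_val

theorem gmap_gmap (g g' : (Fin 3 → ℝ) ≃ₗ[ℝ] (Fin 3 → ℝ)) (p : RP2) :
    gmap g' (gmap g p) = gmap (g.trans g') p := by
  induction p using Quotient.inductionOn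
  rfl

theorem gmap_refl (p : RP2) : gmap (LinearEquiv.refl ℝ _) p = p := by
  induction p using Quotient.inductionOn
  rfl

/-- Linear maps which match two forms give homeomorphisms of the real parts. -/
def homeoOf {F F' : MvPolynomial (Fin 3) ℝ} (g : (Fin 3 → ℝ) ≃ₗ[ℝ] (Fin 3 → ℝ))
    (h : ∀ v, eval (g v) F' = 0 ↔ eval v F = 0) : realPart F ≃ₜ realPart F' where
  toFun p := ⟨gmap g p.1, by
    obtain ⟨v, hv, h1⟩ := p.2
    rw [← hv]
    exact ⟨_, rfl, (h _).2 h1⟩⟩
  invFun p := ⟨gmap g.symm p.1, by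
    obtain ⟨v, hv, h1⟩ := p.2
    rw [← hv]
    exact ⟨_, rfl, by
      rw [← h]
      simpa using h1⟩⟩
  left_inv p := by
    apply Subtype.ext
    simp [gmap_gmap, gmap_refl]
  right_inv p := by
    apply Subtype.ext
    simp [gmap_gmap, gmap_refl]
  continuous_toFun := ((continuous_gmap g).comp continuous_subtype_val).subtype_mk _
  continuous_invFun := ((continuous_gmap g.symm).comp continuous_subtype_val).subtype_mk _

end

end Pool.Agent.H83.MC
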