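import Pool.Agent.H83.MC.Four

/-!
# The case `n = d - 1` and `n = d`
-/

open MvPolynomial

namespace Pool.Agent.H83.MC

noncomputable section

variable {F : MvPolynomial (Fin 3) ℝ} {d n : ℕ}

/-- The polar form of the equation. -/
structure Pol (F : MvPolynomial (Fin 3) ℝ) (n e : ℕ) (r φ : ℝ) : Prop where
  hr : 0 < r
  hh_eq : ∀ s t : ℝ, hh F s t = (AA F n).eval s + r * s ^ e * Real.cos (n * t - φ)
  dt_eq : ∀ s t : ℝ, dt F n s t = -(n * (r * s ^ e * Real.sin (n * t - φ)))
  dd_eq : ∀ s : ℝ, (DD F n).eval s = (r * s ^ e) ^ 2 - (AA F n).eval s ^ 2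

theorem Setup.exists_pol (S : Setup F d n) {e : ℕ} {p q : ℝ} (hpq : p ≠ 0 ∨ q ≠ 0)
    (hP : ∀ s, (PP F n).eval s = p * s ^ e) (hN : ∀ s, (NN F n).eval s = q * s ^ e) :
    ∃ r φ : ℝ, Pol F n e r φ := by
  set z : ℂ := ⟨p, q⟩ with hz
  have hz0 : z ≠ 0 := by
    intro h
    have h1 : p = 0 := congrArg Complex.re h
    have h2 : q = 0 := congrArg Complex.im h
    rcases hpq with h | h
    · exact h h1
    · exact h h2
  have hp : p = ‖z‖ * Real.cos (Complex.arg z) := (Complex.norm_mul_cos_arg z).symm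
  have hq : q = ‖z‖ * Real.sin (Complex.arg z) := (Complex.norm_mul_sin_arg z).symm
  refine ⟨‖z‖, Complex.arg z, norm_pos_iff.2 hz0, fun s t => ?_, fun s t => ?_, fun s => ?_⟩
  · rw [S.hh_eq, hP, hN, Real.cos_sub]
    conv_lhs => rw [hp, hq]
    ring
  · rw [dt, hP, hN, Real.sin_sub]
    conv_lhs => rw [hp, hq]
    ring
  · rw [eval_DD, hP, hN]
    conv_lhs => rw [hp, hq]
    have := Real.cos_sq_add_sin_sq (Complex.arg z)
    linear_combination (‖z‖ * s ^ e) ^ 2 * this

/-- The label of a critical distance. -/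
theorem Pol.label {e : ℕ} {r φ : ℝ} (P : Pol F n e r φ) {s : ℝ} (h : (DD F n).eval s = 0) :
    ∃ ε : ℝ, (ε = 1 ∨ ε = -1) ∧ (AA F n).eval s = ε * (r * s ^ e) := by
  rw [P.dd_eq] at h
  have h1 : (AA F n).eval s ^ 2 = (r * s ^ e) ^ 2 := by linarith
  rcases sq_eq_sq_iff_eq_or_eq_neg.1 h1 with h2 | h2
  · exact ⟨1, Or.inl rfl, by rw [h2, one_mul]⟩
  · exact ⟨-1, Or.inr rfl, by rw [h2, neg_one_mul]⟩

/-- The angle function. -/
def ang (F : MvPolynomial (Fin 3) ℝ) (n e : ℕ) (r s : ℝ) : ℝ :=
  Real.arccos (-((AA F n).eval s / (r * s ^ e)))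

theorem Pol.arc {e : ℕ} {r φ : ℝ} (P : Pol F n e r φ) (S : Setup F d n) {τ τ' : ℝ} (hτ : 0 < τ)
    (hI : ∀ x ∈ Set.Icc τ τ', |(AA F n).eval x| ≤ r * x ^ e) {a σ : ℝ}
    (hc : Real.cos (n * a - φ) = 1) (hσ : σ = 1 ∨ σ = -1)
    {κ : ConnectedComponents (realPart F)} {x y : ℝ} (hx : x ∈ Set.Icc τ τ')
    (hy : y ∈ Set.Icc τ τ') (h : InC κ (psi x (a + σ * ang F n e r x / n))) :
    InC κ (psi y (a + σ * ang F n e r y / n)) := by
  have hn := S.npos.ne'
  have hpos : ∀ x ∈ Set.Icc τ τ', 0 < r * x ^ e := fun x hx =>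
    mul_pos P.hr (pow_pos (lt_of_lt_of_le hτ hx.1) e)
  have hs : Real.sin (n * a - φ) = 0 := by
    have := Real.sin_sq_add_cos_sq (n * a - φ)
    rw [hc] at this
    have h2 : Real.sin (n * a - φ) ^ 2 = 0 := by linarith
    exact pow_eq_zero_iff (by norm_num) |>.1 h2
  have hcont : ContinuousOn (fun x : ℝ => (x, a + σ * ang F n e r x / n)) (Set.Icc τ τ') := by
    refine continuousOn_id.prodMk ?_
    refine continuousOn_const.add ?_
    refine ContinuousOn.div_const ?_ _
    refine continuousOn_const.mul ?_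
    refine Real.continuous_arccos.comp_continuousOn ?_
    refine ContinuousOn.neg ?_
    refine ContinuousOn.div (Polynomial.continuous _).continuousOn
      (continuous_const.mul (continuous_pow e)).continuousOn ?_
    intro x hx
    exact (hpos x hx).ne'
  refine InC.curve (c := fun x : ℝ => (x, a + σ * ang F n e r x / n)) isPreconnected_Icc hcont
    ?_ hx hy h
  intro x hx
  have hp := hpos x hx
  have habs := hI x hx
  rw [abs_le] at habs
  have h1 : -1 ≤ -((AA F n).eval x / (r * x ^ e)) := by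
    rw [neg_le_neg_iff, div_le_one hp]
    exact habs.2
  have h2 : -((AA F n).eval x / (r * x ^ e)) ≤ 1 := by
    rw [neg_le, le_div_iff₀ hp]
    linarith [habs.1]
  rw [psi_mem S.hF, P.hh_eq]
  have h3 : Real.cos (n * (a + σ * ang F n e r x / n) - φ) =
      -((AA F n).eval x / (r * x ^ e)) := by
    rw [show n * (a + σ * ang F n e r x / n) - φ = (n * a - φ) + σ * ang F n e r x by
      field_simp; ring, Real.cos_add, hc, hs, one_mul, zero_mul, sub_zero]
    rcases hσ with rfl | rfl
    · rw [one_mul, ang, Real.cos_arccos h1 h2]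
    · rw [neg_one_mul, Real.cos_neg, ang, Real.cos_arccos h1 h2]
  have h4 : ∀ y A : ℝ, 0 < y → A + y * -(A / y) = 0 := by
    intro y A hy
    field_simp
    ring
  rw [h3]
  exact h4 _ _ hp

/-- Two consecutive critical distances with different labels: the component is invariant. -/
theorem Pol.fix {e : ℕ} {r φ : ℝ} (P : Pol F n e r φ) (S : Setup F d n) {τ τ' ε : ℝ} (hτ : 0 < τ)
    (hττ : τ < τ') (hε : ε = 1 ∨ ε = -1) (h1 : (AA F n).eval τ = ε * (r * τ ^ e))
    (h2 : (AA F n).eval τ' = -ε * (r * τ' ^ e))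
    (hI : ∀ x ∈ Set.Icc τ τ', |(AA F n).eval x| ≤ r * x ^ e)
    {κ : ConnectedComponents (realPart F)} (hκ : Crit n κ τ) : S.perm κ = κ := by
  have hn := S.npos
  obtain ⟨t, ht, hdt⟩ := hκ
  have hp : 0 < r * τ ^ e := mul_pos P.hr (pow_pos hτ e)
  have hp' : 0 < r * τ' ^ e := mul_pos P.hr (pow_pos (hτ.trans hττ) e)
  have h0 := (psi_mem S.hF τ t).1 ht.1
  rw [P.hh_eq, h1] at h0
  have hcos : Real.cos (n * t - φ) = -ε := by
    have : (r * τ ^ e) * (ε + Real.cos (n * t - φ)) = 0 := by linarith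
    have := (mul_eq_zero.1 this).resolve_left hp.ne'
    linarith
  have hsin : Real.sin (n * t - φ) = 0 := by
    have h3 := Real.sin_sq_add_cos_sq (n * t - φ)
    rw [hcos] at h3
    have h4 : Real.sin (n * t - φ) ^ 2 = 0 := by
      rcases hε with rfl | rfl
      · linarith
      · linarith
    exact pow_eq_zero_iff (by norm_num) |>.1 h4
  have ha : ang F n e r τ = Real.arccos (-ε) := by
    rw [ang, h1, mul_div_assoc, div_self hp.ne', mul_one]
  have ha' : ang F n e r τ' = Real.arccos ε := by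
    rw [ang, h2, mul_div_assoc, div_self hp'.ne', mul_one, neg_neg]
  have hl : τ ∈ Set.Icc τ τ' := Set.left_mem_Icc.2 hττ.le
  have hr : τ' ∈ Set.Icc τ τ' := Set.right_mem_Icc.2 hττ.le
  rcases hε with rfl | rfl
  · rw [Real.arccos_neg, Real.arccos_one, sub_zero] at ha
    rw [Real.arccos_one] at ha'
    have hc : Real.cos (n * (t - Real.pi / n) - φ) = 1 := by
      rw [show n * (t - Real.pi / n) - φ = (n * t - φ) - Real.pi by field_simp; ring,
        Real.cos_sub_pi, hcos]
      ring
    have e1 : InC κ (psi τ ((t - Real.pi / n) + 1 * ang F n e r τ / n)) := by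
      rw [ha]
      convert ht using 2
      field_simp
      ring
    have e2 := P.arc S hτ hI hc (Or.inl rfl) hl hr e1
    have e3 : InC κ (psi τ' ((t - Real.pi / n) + (-1) * ang F n e r τ' / n)) := by
      rw [ha'] at e2 ⊢
      convert e2 using 2
      ring
    have e4 := P.arc S hτ hI hc (Or.inr rfl) hr hl e3
    rw [ha] at e4
    have e5 := S.inC_perm e4
    have e6 : (t - Real.pi / n) + (-1) * Real.pi / n + 2 * Real.pi / n = t := by
      field_simp
      ring
    rw [e6] at e5
    exact e5.unique ht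
  · rw [neg_neg, Real.arccos_one] at ha
    rw [Real.arccos_neg, Real.arccos_one, sub_zero] at ha'
    have hc : Real.cos (n * t - φ) = 1 := by rw [hcos, neg_neg]
    have hc' : Real.cos (n * (t + 2 * Real.pi / n) - φ) = 1 := by
      rw [show n * (t + 2 * Real.pi / n) - φ = (n * t - φ) + 2 * Real.pi by field_simp; ring,
        Real.cos_add_two_pi, hc]
    have e1 : InC κ (psi τ (t + 1 * ang F n e r τ / n)) := by
      rw [ha]
      convert ht using 2
      ring
    have e2 := P.arc S hτ hI hc (Or.inl rfl) hl hr e1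
    have e3 : InC κ (psi τ' ((t + 2 * Real.pi / n) + (-1) * ang F n e r τ' / n)) := by
      rw [ha'] at e2 ⊢
      convert e2 using 2
      ring
    have e4 := P.arc S hτ hI hc' (Or.inr rfl) hr hl e3
    rw [ha] at e4
    have e5 := S.inC_perm ht
    have e6 : (t + 2 * Real.pi / n) + (-1) * 0 / n = t + 2 * Real.pi / n := by ring
    rw [e6] at e4
    exact e5.unique e4

/-- Between two consecutive critical distances with different labels there are points. -/
theorem Pol.between {e : ℕ} {r φ : ℝ} (P : Pol F n e r φ) {τ τ' ε : ℝ}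
    (hτ : 0 < τ) (hττ : τ < τ') (hε : ε = 1 ∨ ε = -1)
    (h1 : (AA F n).eval τ = ε * (r * τ ^ e)) (h2 : (AA F n).eval τ' = -ε * (r * τ' ^ e))
    (hcons : ∀ x ∈ Set.Ioo τ τ', (DD F n).eval x ≠ 0) :
    ∀ x ∈ Set.Icc τ τ', |(AA F n).eval x| ≤ r * x ^ e := by
  have hpos : ∀ x ∈ Set.Icc τ τ', 0 < r * x ^ e := fun x hx =>
    mul_pos P.hr (pow_pos (lt_of_lt_of_le hτ hx.1) e)
  have hl : τ ∈ Set.Icc τ τ' := Set.left_mem_Icc.2 hττ.le
  have hr : τ' ∈ Set.Icc τ τ' := Set.right_mem_Icc.2 hττ.le
  have hcA : Continuous fun x => (AA F n).eval x := Polynomial.continuous _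
  have hcD : Continuous fun x => (DD F n).eval x := Polynomial.continuous _
  -- a zero of `A`
  have hzero : ∃ x₀ ∈ Set.Icc τ τ', (AA F n).eval x₀ = 0 := by
    have hl' := hpos τ hl
    have hr' := hpos τ' hr
    rcases hε with rfl | rfl
    · have : (0 : ℝ) ∈ Set.Icc ((AA F n).eval τ') ((AA F n).eval τ) := by
        rw [h1, h2]; constructor <;> linarith
      exact intermediate_value_Icc' hττ.le hcA.continuousOn this
    · have : (0 : ℝ) ∈ Set.Icc ((AA F n).eval τ) ((AA F n).eval τ') := by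
        rw [h1, h2]; constructor <;> linarith
      exact intermediate_value_Icc hττ.le hcA.continuousOn this
  obtain ⟨x₀, hx₀, hA0⟩ := hzero
  have hD0 : 0 < (DD F n).eval x₀ := by
    rw [P.dd_eq, hA0]
    have := hpos x₀ hx₀
    nlinarith [pow_pos this 2]
  intro x hx
  refine abs_le_of_sq_le_sq ?_ (hpos x hx).le
  by_contra hcon
  have hD : (DD F n).eval x < 0 := by
    rw [P.dd_eq]
    linarith
  have hne : x ≠ τ := by
    rintro rfl
    rw [P.dd_eq, h1] at hD
    rcases hε with rfl | rfl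
    · linarith
    · nlinarith
  have hne' : x ≠ τ' := by
    rintro rfl
    rw [P.dd_eq, h2] at hD
    rcases hε with rfl | rfl
    · nlinarith
    · nlinarith
  have hx₀τ : x₀ ≠ τ := by
    rintro rfl
    have := hpos x₀ hx₀
    rw [h1] at hA0
    rcases hε with rfl | rfl
    · linarith
    · linarith
  have hx₀τ' : x₀ ≠ τ' := by
    rintro rfl
    have := hpos x₀ hx₀
    rw [h2] at hA0
    rcases hε with rfl | rfl
    · linarith
    · linarith
  have hxI : x ∈ Set.Ioo τ τ' := ⟨lt_of_le_of_ne hx.1 (Ne.symm hne), lt_of_le_of_ne hx.2 hne'⟩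
  have hx₀I : x₀ ∈ Set.Ioo τ τ' :=
    ⟨lt_of_le_of_ne hx₀.1 (Ne.symm hx₀τ), lt_of_le_of_ne hx₀.2 hx₀τ'⟩
  obtain ⟨y, hy, hy0⟩ : (0 : ℝ) ∈ (fun x => (DD F n).eval x) '' Set.uIcc x x₀ :=
    intermediate_value_uIcc hcD.continuousOn (Set.mem_uIcc.2 (Or.inl ⟨hD.le, hD0.le⟩))
  have hyI : y ∈ Set.Ioo τ τ' := by
    have hsub : Set.uIcc x x₀ ⊆ Set.Ioo τ τ' :=
      (Set.ordConnected_Ioo).uIcc_subset hxI hx₀I
    exact hsub hy
  exact hcons y hyI hy0

/-- The numerator of the derivative. -/
def WW (F : MvPolynomial (Fin 3) ℝ) (n e : ℕ) : Polynomial ℝ :=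
  Polynomial.X * Polynomial.derivative (AA F n) - Polynomial.C (e : ℝ) * AA F n

theorem eval_WW (F : MvPolynomial (Fin 3) ℝ) (n e : ℕ) (s : ℝ) : (WW F n e).eval s =
    s * (Polynomial.derivative (AA F n)).eval s - e * (AA F n).eval s := by
  simp [WW]

/-- Two critical distances with the same label. -/
theorem rolle {e : ℕ} (he : e ≤ 1) {τ τ' c : ℝ} (hτ : 0 < τ) (hττ : τ < τ')
    (h1 : (AA F n).eval τ = c * τ ^ e) (h2 : (AA F n).eval τ' = c * τ' ^ e) :
    ∃ x ∈ Set.Ioo τ τ', (WW F n e).eval x = 0 := by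
  have hne : ∀ x ∈ Set.Icc τ τ', x ≠ 0 := fun x hx => (lt_of_lt_of_le hτ hx.1).ne'
  obtain ⟨x, hx, h⟩ := exists_hasDerivAt_eq_zero (f := fun x => (AA F n).eval x / x ^ e)
    (f' := fun x => ((Polynomial.derivative (AA F n)).eval x * x ^ e -
      (AA F n).eval x * (e * x ^ (e - 1))) / (x ^ e) ^ 2) hττ
    (ContinuousOn.div (Polynomial.continuous _).continuousOn (continuous_pow e).continuousOn
      fun x hx => pow_ne_zero e (hne x hx)) (by
      rw [h1, h2, mul_div_assoc, mul_div_assoc, div_self (pow_ne_zero e hτ.ne'),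
        div_self (pow_ne_zero e (hτ.trans hττ).ne')]) (by
      intro x hx
      exact (Polynomial.hasDerivAt _ x).div (hasDerivAt_pow e x)
        (pow_ne_zero e (hne x (Set.Ioo_subset_Icc_self hx))))
  refine ⟨x, hx, ?_⟩
  have hx0 : x ≠ 0 := hne x (Set.Ioo_subset_Icc_self hx)
  rw [div_eq_zero_iff] at h
  have h3 := h.resolve_right (pow_ne_zero 2 (pow_ne_zero e hx0))
  rw [eval_WW]
  rcases (show e = 0 ∨ e = 1 by omega) with rfl | rfl
  · simp at h3 ⊢
    exact Or.inr h3
  · simp at h3 ⊢
    linarith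

theorem Setup.WW_ne (S : Setup F d n) {e : ℕ} (he : e ≤ 1) (hd : 2 ≤ d) : WW F n e ≠ 0 := by
  intro h
  have h1 : (WW F n e).coeff d = (d - e) * eval ![0, 0, 1] F := by
    obtain ⟨k, rfl⟩ : ∃ k, d = k + 1 := ⟨d - 1, by omega⟩
    rw [WW, Polynomial.coeff_sub, Polynomial.coeff_X_mul, Polynomial.coeff_derivative,
      Polynomial.coeff_C_mul, coeff_AA S.hF]
    push_cast
    ring
  rw [h, Polynomial.coeff_zero] at h1
  have h2 : ((d : ℝ) - e) ≠ 0 := by
    have : (e : ℝ) < d := by exact_mod_cast (by omega : e < d)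
    linarith
  exact mul_ne_zero h2 S.h0 h1.symm

theorem Setup.natDegree_WW (S : Setup F d n) (e : ℕ) : (WW F n e).natDegree ≤ d := by
  have h1 := natDegree_AA S.hF n
  refine (Polynomial.natDegree_sub_le_of_le (m := d) (n := d) ?_ ?_).trans (max_self d).le
  · rw [Polynomial.natDegree_le_iff_coeff_eq_zero]
    intro N hN
    obtain ⟨k, rfl⟩ : ∃ k, N = k + 1 := ⟨N - 1, by omega⟩
    rw [Polynomial.coeff_X_mul, Polynomial.coeff_derivative,
      Polynomial.coeff_eq_zero_of_natDegree_lt (by omega), zero_mul]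
  · exact (Polynomial.natDegree_C_mul_le _ _).trans h1

theorem Setup.WW_neg (S : Setup F d n) (e : ℕ) (s : ℝ) :
    (WW F n e).eval (-s) = (WW F n e).eval s := by
  have h1 : (AA F n).comp (-Polynomial.X) = AA F n := by
    apply Polynomial.funext
    intro s
    rw [Polynomial.eval_comp]
    simp [(S.parity s).1]
  have h2 : (Polynomial.derivative (AA F n)).eval (-s) =
      -(Polynomial.derivative (AA F n)).eval s := by
    have h3 := congrArg (fun p => (Polynomial.derivative p).eval s) h1
    simp only [Polynomial.derivative_comp, Polynomial.eval_mul, Polynomial.eval_comp] at h3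
    simp at h3
    linarith
  rw [eval_WW, eval_WW, h2, (S.parity s).1]
  ring

/-- The number of positive roots of an even polynomial. -/
theorem card_pos_roots {p : Polynomial ℝ} (hp : p ≠ 0) {d : ℕ} (hd : p.natDegree ≤ d)
    (hev : ∀ s, p.eval (-s) = p.eval s) (T : Finset ℝ) (hT : ∀ s ∈ T, 0 < s ∧ p.eval s = 0) :
    2 * T.card ≤ d ∧ (p.eval 0 = 0 → 2 * T.card + 1 ≤ d) := by
  have hdisj : Disjoint T (T.image fun s => -s) := by
    rw [Finset.disjoint_left]
    intro s hs hs'
    obtain ⟨r, hr, hrs⟩ := Finset.mem_image.1 hs'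
    have h1 := (hT s hs).1
    have h2 := (hT r hr).1
    linarith
  have hcard : (T ∪ T.image fun s => -s).card = 2 * T.card := by
    rw [Finset.card_union_of_disjoint hdisj, Finset.card_image_of_injective _ neg_injective]
    ring
  have hsub : T ∪ (T.image fun s => -s) ⊆ p.roots.toFinset := by
    intro s hs
    rw [Multiset.mem_toFinset, Polynomial.mem_roots hp, Polynomial.IsRoot.def]
    rcases Finset.mem_union.1 hs with h | h
    · exact (hT s h).2
    · obtain ⟨r, hr, rfl⟩ := Finset.mem_image.1 h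
      rw [hev]
      exact (hT r hr).2
  have hroots : p.roots.toFinset.card ≤ d :=
    (Multiset.toFinset_card_le _).trans ((Polynomial.card_roots' p).trans hd)
  constructor
  · rw [← hcard]
    exact (Finset.card_le_card hsub).trans hroots
  · intro h0
    have h0m : (0 : ℝ) ∈ p.roots.toFinset := by
      rw [Multiset.mem_toFinset, Polynomial.mem_roots hp, Polynomial.IsRoot.def]
      exact h0
    have h0n : (0 : ℝ) ∉ T ∪ T.image fun s => -s := by
      intro h
      rcases Finset.mem_union.1 h with h | h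
      · exact lt_irrefl _ (hT 0 h).1
      · obtain ⟨r, hr, hr0⟩ := Finset.mem_image.1 h
        have := (hT r hr).1
        linarith
    have := Finset.card_le_card (Finset.insert_subset h0m hsub)
    rw [Finset.card_insert_of_notMem h0n, hcard] at this
    omega

open scoped Classical in
/-- The critical distances with at least two components. -/
def TB (F : MvPolynomial (Fin 3) ℝ) (n : ℕ) [Fintype (ConnectedComponents (realPart F))] :
    Finset ℝ :=
  (TT F n).filter fun s => 2 ≤ (Finset.univ.filter fun κ : ConnectedComponents (realPart F) =>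
    Crit n κ s).card

open scoped Classical in
/-- A critical distance with two components is followed by one with the same label. -/
theorem Pol.next {e : ℕ} {r φ : ℝ} (P : Pol F n e r φ) (S : Setup F d n) (he : e ≤ 1)
    [Fintype (ConnectedComponents (realPart F))] {τ : ℝ} (hτ : τ ∈ TB F n)
    (hmax : ∃ x ∈ TT F n, τ < x) :
    ∃ c, 0 < c ∧ (WW F n e).eval c = 0 ∧ τ < c ∧ ∀ x ∈ TT F n, τ < x → c < x := by
  obtain ⟨hτT, hτ2⟩ := Finset.mem_filter.1 hτ
  have hτ0 := (S.mem_TT.1 hτT).2
  set U := (TT F n).filter fun x => τ < x with hU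
  have hUne : U.Nonempty := by
    obtain ⟨x, hx, hx'⟩ := hmax
    exact ⟨x, Finset.mem_filter.2 ⟨hx, hx'⟩⟩
  set τ' := U.min' hUne with hτ'
  obtain ⟨hτ'T, hττ⟩ := Finset.mem_filter.1 (U.min'_mem hUne)
  have hmin : ∀ x ∈ TT F n, τ < x → τ' ≤ x := fun x hx hx' =>
    U.min'_le x (Finset.mem_filter.2 ⟨hx, hx'⟩)
  obtain ⟨ε, hε, hA⟩ := P.label (S.mem_TT.1 hτT).1
  obtain ⟨ε', hε', hA'⟩ := P.label (S.mem_TT.1 hτ'T).1
  have hsame : ε = ε' := by
    by_contra hne
    have hneg : ε' = -ε := by
      rcases hε with rfl | rfl <;> rcases hε' with rfl | rfl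
      · exact absurd rfl hne
      · rfl
      · norm_num
      · exact absurd rfl hne
    rw [hneg] at hA'
    have hcons : ∀ x ∈ Set.Ioo τ τ', (DD F n).eval x ≠ 0 := by
      intro x hx h0
      have := hmin x (S.mem_TT.2 ⟨h0, hτ0.trans hx.1⟩) hx.1
      linarith [hx.2]
    have hI := P.between hτ0 hττ hε hA hA' hcons
    obtain ⟨κ, hκ⟩ : (Finset.univ.filter fun κ : ConnectedComponents (realPart F) =>
        Crit n κ τ).Nonempty := Finset.card_pos.1 (by omega)
    have hc := (Finset.mem_filter.1 hκ).2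
    have hfix := P.fix S hτ0 hττ hε hA hA' hI hc
    have := S.card_crit_le (K := Finset.univ) hc one_pos (by simpa using hfix)
    omega
  rw [← hsame] at hA'
  obtain ⟨c, hc, hc0⟩ := rolle (F := F) (n := n) he (c := ε * r) hτ0 hττ (by rw [hA]; ring)
    (by rw [hA']; ring)
  exact ⟨c, hτ0.trans hc.1, hc0, hc.1, fun x hx hx' => lt_of_lt_of_le hc.2 (hmin x hx hx')⟩

/-- The number of the critical distances with at least two components. -/
theorem Pol.card_TB {e : ℕ} {r φ : ℝ} (P : Pol F n e r φ) (S : Setup F d n) (he : e ≤ 1)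
    (hd : 2 ≤ d) [Fintype (ConnectedComponents (realPart F))] :
    2 * (TB F n).card ≤ d + 2 ∧ (e = 0 → 2 * (TB F n).card + 1 ≤ d + 2) := by
  rcases (TB F n).eq_empty_or_nonempty with h0 | h0
  · rw [h0]
    simp
  · set m := (TB F n).max' h0 with hm
    set V := (TB F n).erase m with hV
    have hVlt : ∀ τ ∈ V, ∃ x ∈ TT F n, τ < x := by
      intro τ hτ
      obtain ⟨h1, h2⟩ := Finset.mem_erase.1 hτ
      have hmm := (TB F n).max'_mem h0
      exact ⟨m, (Finset.mem_filter.1 hmm).1, lt_of_le_of_ne ((TB F n).le_max' τ h2) h1⟩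
    have hch : ∀ τ : V, ∃ c, 0 < c ∧ (WW F n e).eval c = 0 ∧ τ.1 < c ∧
        ∀ x ∈ TT F n, τ.1 < x → c < x := fun τ =>
      P.next S he (Finset.mem_erase.1 τ.2).2 (hVlt τ.1 τ.2)
    choose f hf0 hfW hflt hfmin using hch
    have hinj : Function.Injective f := by
      have hmono : ∀ a b : V, a.1 < b.1 → f a < f b := by
        intro a b hab
        have hb : b.1 ∈ TT F n := (Finset.mem_filter.1 (Finset.mem_erase.1 b.2).2).1
        exact (hfmin a b.1 hb hab).trans (hflt b)
      intro a b hab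
      rcases lt_trichotomy a.1 b.1 with h | h | h
      · exact absurd hab (hmono a b h).ne
      · exact Subtype.ext h
      · exact absurd hab (hmono b a h).ne'
    have hcard : V.card = (Finset.univ.image f).card := by
      rw [Finset.card_image_of_injective _ hinj, Finset.card_univ, Fintype.card_coe]
    have hroots := card_pos_roots (S.WW_ne he hd) (S.natDegree_WW e) (S.WW_neg e)
      (Finset.univ.image f) (by
        intro s hs
        obtain ⟨a, _, rfl⟩ := Finset.mem_image.1 hs
        exact ⟨hf0 a, hfW a⟩)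
    have hcV : V.card + 1 = (TB F n).card :=
      Finset.card_erase_add_one ((TB F n).max'_mem h0)
    rw [← hcard] at hroots
    constructor
    · omega
    · intro he0
      subst he0
      have := hroots.2 (by rw [eval_WW]; simp)
      omega

open scoped Classical in
/-- The count of the components in terms of the two kinds of critical distances. -/
theorem Setup.count_TB (S : Setup F d n) [Fintype (ConnectedComponents (realPart F))] :
    2 * Fintype.card (ConnectedComponents (realPart F)) + 2 * (TB F n).card ≤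
      n * (TB F n).card + 2 * (TT F n).card := by
  have h := dc' Finset.univ (TT F n) (fun (κ : ConnectedComponents (realPart F)) s => Crit n κ s)
    (fun κ => if IsConst κ ∨ Meets κ then 2 else 1) 2
    (fun s => if 2 ≤ (Finset.univ.filter fun κ : ConnectedComponents (realPart F) =>
      Crit n κ s).card then n else 2) (fun κ _ => S.two_le_w κ) (by
      intro s hs
      split_ifs with h2
      · exact S.sum_w_le (S.mem_TT.1 hs).2
      · calc ∑ κ ∈ Finset.univ.filter fun κ : ConnectedComponents (realPart F) => Crit n κ s,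
              (if IsConst κ ∨ Meets κ then 2 else 1)
            ≤ ∑ κ ∈ Finset.univ.filter fun κ : ConnectedComponents (realPart F) => Crit n κ s,
              2 := Finset.sum_le_sum fun κ _ => by split_ifs <;> omega
          _ ≤ 2 := by
              rw [Finset.sum_const, smul_eq_mul]
              omega)
  rw [Finset.sum_ite, Finset.sum_const, Finset.sum_const, smul_eq_mul, smul_eq_mul] at h
  have h3 : ((TT F n).filter fun s => 2 ≤ (Finset.univ.filter fun κ :
      ConnectedComponents (realPart F) => Crit n κ s).card) = TB F n := rfl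
  have h4 := Finset.card_filter_add_card_filter_not (s := TT F n) (fun s =>
    2 ≤ (Finset.univ.filter fun κ : ConnectedComponents (realPart F) => Crit n κ s).card)
  rw [h3] at h h4
  rw [Finset.card_univ] at h
  nlinarith

/-- The case `n = d - 1` and `n = d`. -/
theorem Setup.main_big (S : Setup F d n) (hd8 : 8 ≤ d) {e : ℕ} (he : e ≤ 1) (hde : n + e = d) :
    Nat.card (ConnectedComponents (realPart F)) ≠ (d - 1) * (d - 2) / 2 + 1 := by
  classical
  have hfin := S.finite
  have : Fintype (ConnectedComponents (realPart F)) := Fintype.ofFinite _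
  rw [Nat.card_eq_fintype_card]
  intro hM
  have hT := S.card_TT
  obtain ⟨h, hh'⟩ := S.hd
  have hM2 : 2 * Fintype.card (ConnectedComponents (realPart F)) =
      2 * ((d - 1) * (h - 1)) + 2 := by
    have : (d - 1) * (d - 2) = 2 * ((d - 1) * (h - 1)) := by
      rw [show d - 2 = 2 * (h - 1) by omega]; ring
    rw [hM, this]
    omega
  obtain ⟨p, q, hP, hN⟩ := S.exists_pq he hde
  obtain ⟨j, rfl⟩ : ∃ j, h = j + 4 := ⟨h - 4, by omega⟩
  rw [show d - 1 = 2 * j + 7 by omega, show j + 4 - 1 = j + 3 by omega] at hM2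
  by_cases hpq : p ≠ 0 ∨ q ≠ 0
  · obtain ⟨r, φ, P⟩ := S.exists_pol hpq hP hN
    have h1 := P.card_TB S he (by omega)
    have h2 := S.count_TB
    rcases (show e = 0 ∨ e = 1 by omega) with rfl | rfl
    · have h3 := h1.2 rfl
      have h4 : (TB F n).card ≤ j + 4 := by omega
      obtain rfl : n = 2 * j + 8 := by omega
      nlinarith
    · have h4 : (TB F n).card ≤ j + 5 := by omega
      obtain rfl : n = 2 * j + 7 := by omega
      nlinarith
  · push Not at hpq
    obtain ⟨hp0, hq0⟩ := hpq
    have h1 := S.count_zero (fun s => by rw [hP, hp0, zero_mul]) (fun s => by rw [hN, hq0, zero_mul])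
    nlinarith

end

end Pool.Agent.H83.MC
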