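import Pool.Agent.H83.MC.Loc

/-!
# Extrema of the distance function on the components
-/

open MvPolynomial

namespace Pool.Agent.H83.MC

noncomputable section

variable {F : MvPolynomial (Fin 3) ℝ} {d n : ℕ}

theorem Setup.npos (S : Setup F d n) : (0 : ℝ) < n := by
  have := S.hn
  exact_mod_cast (by omega : 0 < n)

theorem Setup.d_ne (S : Setup F d n) {t : ℝ} (h : hh F 0 t = 0) : d ≠ 0 := by
  rintro rfl
  have e1 := eval_smul' S.hF 0 ![0, 0, 1]
  have e2 := eval_smul' S.hF 0 ![Real.cos t, Real.sin t, 0]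
  simp only [pow_zero, one_mul, zero_smul] at e1 e2
  exact S.h0 (by rw [← e1, e2]; exact h)

/-- The curve does not contain the line `z = 0`. -/
theorem Setup.exists_ne (S : Setup F d n) : ∃ t, hh F 0 t ≠ 0 := by
  by_contra hcon
  push Not at hcon
  have h1 : ∀ t, dt F n 0 t = 0 := fun t => (S.hasDerivAt_t 0 t).unique (by
    have : (fun y => hh F 0 y) = fun _ => 0 := funext hcon
    rw [this]
    exact hasDerivAt_const t 0)
  have h2 : ∀ t, ds F 0 t ≠ 0 := fun t => S.ds_ne (hcon t) (h1 t)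
  have hd0 : d ≠ 0 := S.d_ne (hcon 0)
  have hodd : Odd (d - 1) := by
    obtain ⟨k, hk⟩ := S.hd
    exact ⟨k - 1, by omega⟩
  have h3 : ds F 0 Real.pi = - ds F 0 0 := by
    have e : ![Real.cos Real.pi, Real.sin Real.pi, 0] =
        (-1 : ℝ) • ![Real.cos 0, Real.sin 0, 0] := by
      ext i; fin_cases i <;> simp
    rw [ds, ds, e, eval_smul' (S.hF.pderiv), hodd.neg_one_pow]
    ring
  have h4 : Continuous fun t => ds F 0 t := by
    refine (MvPolynomial.continuous_eval (pderiv 2 F)).comp ?_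
    refine continuous_pi fun i => ?_
    fin_cases i
    · exact Real.continuous_cos
    · exact Real.continuous_sin
    · exact continuous_const
  have h5 : ∃ t, ds F 0 t = 0 := by
    rcases le_total (ds F 0 0) 0 with h | h
    · exact mem_range_of_exists_le_of_exists_ge h4 ⟨0, h⟩ ⟨Real.pi, by rw [h3]; linarith⟩
    · exact mem_range_of_exists_le_of_exists_ge h4 ⟨Real.pi, by rw [h3]; linarith⟩ ⟨0, h⟩
  obtain ⟨t, ht⟩ := h5
  exact h2 t ht

/-- A circle contained in the curve. -/
theorem Setup.flat (S : Setup F d n) {s t : ℝ} (h : ∀ᶠ y in nhds t, hh F s y = 0) :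
    (AA F n).eval s = 0 ∧ (PP F n).eval s = 0 ∧ (NN F n).eval s = 0 := by
  have h1 : ∀ᶠ y in nhds t, dt F n s y = 0 := by
    filter_upwards [eventually_eventually_nhds.2 h] with y hy
    exact (S.hasDerivAt_t s y).unique ((hasDerivAt_const y (0 : ℝ)).congr_of_eventuallyEq hy)
  have hl : HasDerivAt (fun y : ℝ => (n : ℝ) * y) n t := by
    simpa using (hasDerivAt_id t).const_mul (n : ℝ)
  have hc := ((Real.hasDerivAt_cos (n * t)).comp t hl).const_mul ((NN F n).eval s)
  have hs := ((Real.hasDerivAt_sin (n * t)).comp t hl).const_mul ((PP F n).eval s)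
  have h2 : HasDerivAt (fun y => dt F n s y) (n * ((NN F n).eval s * (-Real.sin (n * t) * n) -
      (PP F n).eval s * (Real.cos (n * t) * n))) t := (hc.sub hs).const_mul (n : ℝ)
  have h3 := h2.unique ((hasDerivAt_const t (0 : ℝ)).congr_of_eventuallyEq h1)
  have h4 : dt F n s t = 0 := h1.self_of_nhds
  have h5 : hh F s t = 0 := h.self_of_nhds
  have hn := S.npos.ne'
  rw [dt] at h4
  have h6 : (NN F n).eval s * Real.cos (n * t) - (PP F n).eval s * Real.sin (n * t) = 0 :=
    (mul_eq_zero.1 h4).resolve_left hn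
  have h7 : (NN F n).eval s * Real.sin (n * t) + (PP F n).eval s * Real.cos (n * t) = 0 := by
    have : (n : ℝ) * n * ((NN F n).eval s * Real.sin (n * t) +
      (PP F n).eval s * Real.cos (n * t)) = 0 := by linear_combination -h3
    exact (mul_eq_zero.1 this).resolve_left (mul_ne_zero hn hn)
  have e := Real.cos_sq_add_sin_sq (n * t)
  have hN : (NN F n).eval s = 0 := by
    linear_combination Real.cos (n * t) * h6 + Real.sin (n * t) * h7 - (NN F n).eval s * e
  have hP : (PP F n).eval s = 0 := by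
    linear_combination Real.cos (n * t) * h7 - Real.sin (n * t) * h6 - (PP F n).eval s * e
  rw [S.hh_eq, hN, hP] at h5
  exact ⟨by linarith, hP, hN⟩

theorem isCompact_fiber {F : MvPolynomial (Fin 3) ℝ} {d : ℕ} (hF : F.IsHomogeneous d)
    (κ : ConnectedComponents (realPart F)) :
    IsCompact {x : realPart F | (x : ConnectedComponents (realPart F)) = κ} := by
  have : CompactSpace (realPart F) := isCompact_iff_compactSpace.1 (isCompact_realPart hF)
  refine IsClosed.isCompact ?_
  obtain ⟨x, rfl⟩ := ConnectedComponents.surjective_coe κ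
  have : {y : realPart F | (y : ConnectedComponents (realPart F)) = (x : _)} =
      connectedComponent x := connectedComponents_preimage_singleton
  rw [this]
  exact isClosed_connectedComponent

theorem InC.exists_psi {κ : ConnectedComponents (realPart F)} (S : Setup F d n) {p : RP2}
    (h : InC κ p) : ∃ s t, 0 ≤ s ∧ p = psi s t ∧ hh F s t = 0 := MC.exists_psi S.hF S.h0 h.1

theorem Setup.exists_max (S : Setup F d n) (κ : ConnectedComponents (realPart F)) :
    ∃ s t, 0 ≤ s ∧ InC κ (psi s t) ∧ dt F n s t = 0 ∧ ∀ p, InC κ p → ph p ≤ ph (psi s t) := by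
  have hne : {x : realPart F | (x : ConnectedComponents (realPart F)) = κ}.Nonempty :=
    ConnectedComponents.surjective_coe κ
  obtain ⟨x, hx, hmax⟩ := (isCompact_fiber S.hF κ).exists_isMaxOn hne
    (f := fun x : realPart F => ph x.1) (continuous_ph.comp continuous_subtype_val).continuousOn
  have hxC : InC κ x.1 := ⟨x.2, by rw [← hx]⟩
  obtain ⟨s, t, hs, hst, h0⟩ := hxC.exists_psi S
  have hmax' : ∀ p, InC κ p → ph p ≤ ph (psi s t) := by
    intro p hp
    have := hmax (a := ⟨p, hp.1⟩) hp.2.symm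
    rw [← hst]
    exact this
  rw [hst] at hxC
  refine ⟨s, t, hs, hxC, ?_, hmax'⟩
  by_contra hdt
  obtain ⟨δ, hδ, hm⟩ := S.move_s hxC hdt
  obtain ⟨t', ht'⟩ := hm (s + δ / 2) ⟨by linarith, by linarith⟩
  exact absurd (hmax' _ ht') (not_le.2 (ph_lt hs (by linarith)))

theorem Setup.exists_min (S : Setup F d n) (κ : ConnectedComponents (realPart F)) :
    ∃ s t, 0 ≤ s ∧ InC κ (psi s t) ∧ (s ≠ 0 → dt F n s t = 0) ∧
      ∀ p, InC κ p → ph (psi s t) ≤ ph p := by
  have hne : {x : realPart F | (x : ConnectedComponents (realPart F)) = κ}.Nonempty :=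
    ConnectedComponents.surjective_coe κ
  obtain ⟨x, hx, hmin⟩ := (isCompact_fiber S.hF κ).exists_isMinOn hne
    (f := fun x : realPart F => ph x.1) (continuous_ph.comp continuous_subtype_val).continuousOn
  have hxC : InC κ x.1 := ⟨x.2, by rw [← hx]⟩
  obtain ⟨s, t, hs, hst, h0⟩ := hxC.exists_psi S
  have hmin' : ∀ p, InC κ p → ph (psi s t) ≤ ph p := by
    intro p hp
    have := hmin (a := ⟨p, hp.1⟩) hp.2.symm
    rw [← hst]
    exact this
  rw [hst] at hxC
  refine ⟨s, t, hs, hxC, fun hs0 => ?_, hmin'⟩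
  by_contra hdt
  obtain ⟨δ, hδ, hm⟩ := S.move_s hxC hdt
  have hs1 : 0 < s := lt_of_le_of_ne hs (Ne.symm hs0)
  have hs2 : max 0 (s - δ / 2) < s := max_lt hs1 (by linarith)
  obtain ⟨t', ht'⟩ := hm (max 0 (s - δ / 2))
    ⟨lt_of_lt_of_le (by linarith) (le_max_right _ _), by linarith⟩
  exact absurd (hmin' _ ht') (not_le.2 (ph_lt (le_max_left _ _) hs2))

/-- If the distance function is constant on a component, then the component is a circle. -/
theorem Setup.flat_of_const (S : Setup F d n) {κ : ConnectedComponents (realPart F)} {s t : ℝ}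
    (hs : 0 ≤ s) (h : InC κ (psi s t)) (hdt : dt F n s t = 0)
    (hc : ∀ p, InC κ p → ph p = ph (psi s t)) :
    (AA F n).eval s = 0 ∧ (PP F n).eval s = 0 ∧ (NN F n).eval s = 0 := by
  have h0 : hh F s t = 0 := (psi_mem S.hF s t).1 h.1
  obtain ⟨g, δ, hδ, hg, hgt, hm⟩ := S.move_t h (S.ds_ne h0 hdt)
  have hmem : t ∈ Set.Ioo (t - δ) (t + δ) := ⟨by linarith, by linarith⟩
  have hnh : Set.Ioo (t - δ) (t + δ) ∈ nhds t := Ioo_mem_nhds hmem.1 hmem.2
  have hcont : ContinuousAt g t := hg.continuousAt hnh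
  have habs : ∀ y ∈ Set.Ioo (t - δ) (t + δ), |g y| = s := by
    intro y hy
    have e := hc _ (hm y hy)
    refine ph_eq (t := y) (t' := t) (abs_nonneg _) hs ?_
    rw [← e, ph_psi, ph_psi, sq_abs]
  refine S.flat (t := t) ?_
  rcases hs.eq_or_lt with hs0 | hs0
  · filter_upwards [hnh] with y hy
    have e : g y = s := by
      rw [← hs0]
      exact abs_eq_zero.1 (by rw [habs y hy, ← hs0])
    rw [← e]
    exact (psi_mem S.hF _ _).1 (hm y hy).1
  · have hpos : ∀ᶠ y in nhds t, 0 < g y := by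
      apply hcont.eventually
      rw [hgt]
      exact lt_mem_nhds hs0
    filter_upwards [hnh, hpos] with y hy hy'
    have e : g y = s := by
      rw [← habs y hy, abs_of_pos hy']
    rw [← e]
    exact (psi_mem S.hF _ _).1 (hm y hy).1

theorem Setup.circle (S : Setup F d n) {κ : ConnectedComponents (realPart F)} {s t : ℝ}
    (h : InC κ (psi s t)) (hA : (AA F n).eval s = 0) (hP : (PP F n).eval s = 0)
    (hN : (NN F n).eval s = 0) (t' : ℝ) : InC κ (psi s t') := by
  have hc : ContinuousOn (fun x : ℝ => (s, x)) Set.univ :=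
    (continuous_const.prodMk continuous_id).continuousOn
  have hm : ∀ x ∈ (Set.univ : Set ℝ), psi s x ∈ realPart F := by
    intro x _
    rw [psi_mem S.hF, S.hh_eq, hA, hP, hN]
    ring
  exact InC.curve (c := fun x : ℝ => (s, x)) isPreconnected_univ hc hm (Set.mem_univ t)
    (Set.mem_univ t') h

/-- The discriminant polynomial. -/
def DD (F : MvPolynomial (Fin 3) ℝ) (n : ℕ) : Polynomial ℝ := PP F n ^ 2 + NN F n ^ 2 - AA F n ^ 2

theorem eval_DD (F : MvPolynomial (Fin 3) ℝ) (n : ℕ) (s : ℝ) : (DD F n).eval s =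
    (PP F n).eval s ^ 2 + (NN F n).eval s ^ 2 - (AA F n).eval s ^ 2 := by
  simp [DD]

/-- The equations of the critical points. -/
theorem Setup.crit (S : Setup F d n) {s t : ℝ} (h : hh F s t = 0) (h' : dt F n s t = 0) :
    (AA F n).eval s * Real.cos (n * t) = -(PP F n).eval s ∧
    (AA F n).eval s * Real.sin (n * t) = -(NN F n).eval s := by
  have hn := S.npos.ne'
  rw [dt] at h'
  have h6 : (NN F n).eval s * Real.cos (n * t) - (PP F n).eval s * Real.sin (n * t) = 0 :=
    (mul_eq_zero.1 h').resolve_left hn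
  rw [S.hh_eq] at h
  have e := Real.cos_sq_add_sin_sq (n * t)
  constructor
  · linear_combination Real.cos (n * t) * h - Real.sin (n * t) * h6 - (PP F n).eval s * e
  · linear_combination Real.sin (n * t) * h + Real.cos (n * t) * h6 - (NN F n).eval s * e

theorem Setup.dd_zero (S : Setup F d n) {s t : ℝ} (h : hh F s t = 0) (h' : dt F n s t = 0) :
    (DD F n).eval s = 0 := by
  obtain ⟨h1, h2⟩ := S.crit h h'
  have e := Real.cos_sq_add_sin_sq (n * t)
  rw [eval_DD]
  have e1 : (PP F n).eval s = -((AA F n).eval s * Real.cos (n * t)) := by rw [h1]; ring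
  have e2 : (NN F n).eval s = -((AA F n).eval s * Real.sin (n * t)) := by rw [h2]; ring
  rw [e1, e2]
  linear_combination (AA F n).eval s ^ 2 * e

/-- The maximum is at a positive distance. -/
theorem Setup.exists_max' (S : Setup F d n) (κ : ConnectedComponents (realPart F)) :
    ∃ s t, 0 < s ∧ InC κ (psi s t) ∧ dt F n s t = 0 ∧ ∀ p, InC κ p → ph p ≤ ph (psi s t) := by
  obtain ⟨s, t, hs, h1, h2, h3⟩ := S.exists_max κ
  refine ⟨s, t, ?_, h1, h2, h3⟩
  refine lt_of_le_of_ne hs fun hs0 => ?_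
  subst hs0
  have hconst : ∀ p, InC κ p → ph p = ph (psi 0 t) := by
    intro p hp
    refine le_antisymm (h3 p hp) ?_
    obtain ⟨s', t', hs', rfl, _⟩ := hp.exists_psi S
    rw [ph_psi, ph_psi]
    simp only [ne_eq, OfNat.ofNat_ne_zero, not_false_eq_true, zero_pow, add_zero, div_one]
    positivity
  obtain ⟨hA, hP, hN⟩ := S.flat_of_const le_rfl h1 h2 hconst
  obtain ⟨y, hy⟩ := S.exists_ne
  apply hy
  rw [S.hh_eq, hA, hP, hN]
  ring

end

end Pool.Agent.H83.MC
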