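import Pool.Agent.H83.MC.Roots

/-!
# Counting the components
-/

open MvPolynomial Function

namespace Pool.Agent.H83.MC

noncomputable section

open scoped Classical in
/-- Double counting. -/
theorem dc {α : Type*} (K : Finset α) (T : Finset ℝ) (r : α → ℝ → Prop) (w : α → ℕ) (c b : ℕ)
    (h1 : ∀ κ ∈ K, c ≤ (T.filter fun s => r κ s).card * w κ)
    (h2 : ∀ s ∈ T, ∑ κ ∈ K.filter (fun κ => r κ s), w κ ≤ b) : c * K.card ≤ b * T.card := by
  calc c * K.card = ∑ κ ∈ K, c := by rw [Finset.sum_const, smul_eq_mul, mul_comm]
    _ ≤ ∑ κ ∈ K, ∑ s ∈ T.filter (fun s => r κ s), w κ := by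
        refine Finset.sum_le_sum fun κ hκ => ?_
        rw [Finset.sum_const, smul_eq_mul]
        exact h1 κ hκ
    _ = ∑ s ∈ T, ∑ κ ∈ K.filter (fun κ => r κ s), w κ := by
        simp only [Finset.sum_filter]
        exact Finset.sum_comm
    _ ≤ ∑ s ∈ T, b := Finset.sum_le_sum h2
    _ = b * T.card := by rw [Finset.sum_const, smul_eq_mul, mul_comm]

open scoped Classical in
/-- Double counting with two bounds. -/
theorem dc' {α : Type*} (K : Finset α) (T : Finset ℝ) (r : α → ℝ → Prop) (w : α → ℕ) (c : ℕ)
    (b : ℝ → ℕ) (h1 : ∀ κ ∈ K, c ≤ (T.filter fun s => r κ s).card * w κ)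
    (h2 : ∀ s ∈ T, ∑ κ ∈ K.filter (fun κ => r κ s), w κ ≤ b s) : c * K.card ≤ ∑ s ∈ T, b s := by
  calc c * K.card = ∑ κ ∈ K, c := by rw [Finset.sum_const, smul_eq_mul, mul_comm]
    _ ≤ ∑ κ ∈ K, ∑ s ∈ T.filter (fun s => r κ s), w κ := by
        refine Finset.sum_le_sum fun κ hκ => ?_
        rw [Finset.sum_const, smul_eq_mul]
        exact h1 κ hκ
    _ = ∑ s ∈ T, ∑ κ ∈ K.filter (fun κ => r κ s), w κ := by
        simp only [Finset.sum_filter]
        exact Finset.sum_comm
    _ ≤ ∑ s ∈ T, b s := Finset.sum_le_sum h2

/-- A finite set invariant under a map, all of whose points have period `n`. -/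
theorem dvd_card {α : Type*} [DecidableEq α] (f : α → α) (hf : Injective f) {n : ℕ} (hn : 0 < n) :
    ∀ (N : ℕ) (X : Finset α), X.card = N → (∀ x ∈ X, f x ∈ X) →
      (∀ x ∈ X, minimalPeriod f x = n) → n ∣ X.card := by
  intro N
  induction N using Nat.strong_induction_on with
  | _ N ih =>
    intro X hX hfX hper
    rcases X.eq_empty_or_nonempty with rfl | ⟨x, hx⟩
    · simp
    · set O := (Finset.range n).image fun k => f^[k] x with hO
      have hpx := hper x hx
      have hfix : f^[n] x = x := by
        have := iterate_minimalPeriod (f := f) (x := x)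
        rwa [hpx] at this
      have hmem : ∀ k, f^[k] x ∈ X := by
        intro k
        induction k with
        | zero => exact hx
        | succ k ihk =>
          rw [iterate_succ_apply']
          exact hfX _ ihk
      have hOX : O ⊆ X := by
        intro y hy
        obtain ⟨k, _, rfl⟩ := Finset.mem_image.1 hy
        exact hmem k
      have hOc : O.card = n := by
        rw [hO, Finset.card_image_of_injOn, Finset.card_range]
        intro a ha b hb hab
        have ha' : a ∈ Set.Iio (minimalPeriod f x) := by
          rw [hpx]; exact Finset.mem_range.1 ha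
        have hb' : b ∈ Set.Iio (minimalPeriod f x) := by
          rw [hpx]; exact Finset.mem_range.1 hb
        exact iterate_injOn_Iio_minimalPeriod ha' hb' hab
      have hcard : (X \ O).card + O.card = X.card := Finset.card_sdiff_add_card_eq_card hOX
      have hinv : ∀ y ∈ X \ O, f y ∈ X \ O := by
        intro y hy
        rw [Finset.mem_sdiff] at hy ⊢
        refine ⟨hfX y hy.1, fun hc => hy.2 ?_⟩
        obtain ⟨k, hk, hky⟩ := Finset.mem_image.1 hc
        rw [Finset.mem_range] at hk
        rcases Nat.eq_zero_or_pos k with rfl | hk0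
        · have h1 : f y = f (f^[n - 1] x) := by
            rw [← iterate_succ_apply' f, show (n - 1).succ = n by omega, hfix]
            exact hky.symm
          rw [hf h1]
          exact Finset.mem_image.2 ⟨n - 1, Finset.mem_range.2 (by omega), rfl⟩
        · have h1 : f y = f (f^[k - 1] x) := by
            rw [← iterate_succ_apply' f, show (k - 1).succ = k by omega]
            exact hky.symm
          rw [hf h1]
          exact Finset.mem_image.2 ⟨k - 1, Finset.mem_range.2 (by omega), rfl⟩
      have hdvd := ih (X \ O).card (by omega) (X \ O) rfl hinv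
        fun y hy => hper y (Finset.mem_sdiff.1 hy).1
      rw [← hcard, hOc]
      exact dvd_add hdvd dvd_rfl

variable {F : MvPolynomial (Fin 3) ℝ} {d n : ℕ}

theorem Setup.orbit_mod (S : Setup F d n) {κ κ' : ConnectedComponents (realPart F)} {s : ℝ}
    (h : Crit n κ s) (h' : Crit n κ' s) {m : ℕ} (hm : 0 < m) (hp : S.perm^[m] κ = κ) :
    ∃ k < m, S.perm^[k] κ = κ' := by
  obtain ⟨k, _, hk⟩ := S.crit_orbit h h'
  refine ⟨k % m, Nat.mod_lt _ hm, ?_⟩
  have hp' : IsPeriodicPt S.perm m κ := hp
  rw [hp'.iterate_mod_apply, hk]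

theorem Setup.finite (S : Setup F d n) : Finite (ConnectedComponents (realPart F)) := by
  have h1 : (Set.univ : Set (ConnectedComponents (realPart F))) ⊆
      ⋃ s ∈ TT F n, {κ | Crit n κ s} := by
    intro κ _
    obtain ⟨s, hs, hc⟩ := S.one_crit κ
    exact Set.mem_biUnion (S.mem_TT.2 ⟨hc.dd S, hs⟩) hc
  have h2 : (⋃ s ∈ TT F n, {κ : ConnectedComponents (realPart F) | Crit n κ s}).Finite := by
    refine Set.Finite.biUnion (TT F n).finite_toSet fun s _ => ?_
    rcases Set.eq_empty_or_nonempty {κ : ConnectedComponents (realPart F) | Crit n κ s} with h | h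
    · rw [h]; exact Set.finite_empty
    · obtain ⟨κ, hκ⟩ := h
      refine ((Finset.range n).finite_toSet.image fun k => S.perm^[k] κ).subset ?_
      intro κ' hκ'
      obtain ⟨k, hk, h⟩ := S.crit_orbit hκ hκ'
      exact ⟨k, Finset.mem_coe.2 (Finset.mem_range.2 hk), h⟩
  exact Set.finite_univ_iff.1 (h2.subset h1)

open scoped Classical in
theorem Setup.card_crit_le (S : Setup F d n) {K : Finset (ConnectedComponents (realPart F))}
    {κ : ConnectedComponents (realPart F)} {s : ℝ} (h : Crit n κ s) {m : ℕ} (hm : 0 < m)
    (hp : S.perm^[m] κ = κ) : (K.filter fun κ' => Crit n κ' s).card ≤ m := by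
  have : (K.filter fun κ' => Crit n κ' s) ⊆ (Finset.range m).image fun k => S.perm^[k] κ := by
    intro κ' hκ'
    obtain ⟨k, hk, hk'⟩ := S.orbit_mod h (Finset.mem_filter.1 hκ').2 hm hp
    exact Finset.mem_image.2 ⟨k, Finset.mem_range.2 hk, hk'⟩
  exact (Finset.card_le_card this).trans (Finset.card_image_le.trans (Finset.card_range m).le)

open scoped Classical in
theorem Setup.one_le (S : Setup F d n) (κ : ConnectedComponents (realPart F)) :
    1 ≤ ((TT F n).filter fun s => Crit n κ s).card := by
  obtain ⟨s, hs, hc⟩ := S.one_crit κ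
  exact Finset.card_pos.2 ⟨s, Finset.mem_filter.2 ⟨S.mem_TT.2 ⟨hc.dd S, hs⟩, hc⟩⟩

open scoped Classical in
theorem Setup.two_le (S : Setup F d n) {κ : ConnectedComponents (realPart F)}
    (h : ¬ IsConst κ) (h' : ¬ Meets κ) :
    2 ≤ ((TT F n).filter fun s => Crit n κ s).card := by
  obtain ⟨s, s', hs, hss, hc, hc'⟩ := S.two_crit h h'
  have : ({s, s'} : Finset ℝ) ⊆ (TT F n).filter fun s => Crit n κ s := by
    intro x hx
    rw [Finset.mem_insert, Finset.mem_singleton] at hx
    rcases hx with rfl | rfl
    · exact Finset.mem_filter.2 ⟨S.mem_TT.2 ⟨hc.dd S, hs⟩, hc⟩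
    · exact Finset.mem_filter.2 ⟨S.mem_TT.2 ⟨hc'.dd S, hs.trans hss⟩, hc'⟩
  calc 2 = ({s, s'} : Finset ℝ).card := by rw [Finset.card_pair hss.ne]
    _ ≤ _ := Finset.card_le_card this

open scoped Classical in
/-- The weights of the components with a critical point at a given distance. -/
theorem Setup.sum_w_le (S : Setup F d n) [Fintype (ConnectedComponents (realPart F))] {s : ℝ}
    (hs0 : 0 < s) : ∑ κ ∈ Finset.univ.filter
      (fun κ : ConnectedComponents (realPart F) => Crit n κ s),
        (if IsConst κ ∨ Meets κ then 2 else 1) ≤ n := by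
  have hn := S.hn
  rcases (Finset.univ.filter fun κ : ConnectedComponents (realPart F) =>
    Crit n κ s).eq_empty_or_nonempty with he | ⟨κ, hκ⟩
  · rw [he, Finset.sum_empty]
    exact Nat.zero_le _
  · have hc := (Finset.mem_filter.1 hκ).2
    by_cases h1 : ∃ κ : ConnectedComponents (realPart F), Crit n κ s ∧ IsConst κ
    · obtain ⟨κ₁, hc₁, hk₁⟩ := h1
      have : (Finset.univ.filter fun κ : ConnectedComponents (realPart F) =>
          Crit n κ s) ⊆ {κ₁} := by
        intro κ' hκ'
        rw [Finset.mem_singleton]
        exact (S.const_unique hk₁ hs0.le hc₁ (Finset.mem_filter.1 hκ').2).symm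
      refine (Finset.sum_le_sum_of_subset this).trans ?_
      rw [Finset.sum_singleton]
      split_ifs <;> omega
    · by_cases h2 : ∃ κ : ConnectedComponents (realPart F), Crit n κ s ∧ Meets κ
      · obtain ⟨κ₂, hc₂, hk₂⟩ := h2
        have hev := hk₂.even S
        obtain ⟨k, hk⟩ := hev
        have hcard := S.card_crit_le (K := Finset.univ) hc₂ (by omega : 0 < n / 2) (hk₂.half S)
        calc ∑ κ ∈ Finset.univ.filter fun κ : ConnectedComponents (realPart F) => Crit n κ s,
              (if IsConst κ ∨ Meets κ then 2 else 1)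
            ≤ ∑ κ ∈ Finset.univ.filter fun κ : ConnectedComponents (realPart F) => Crit n κ s,
              2 := Finset.sum_le_sum fun κ _ => by split_ifs <;> omega
          _ ≤ n := by
              rw [Finset.sum_const, smul_eq_mul]
              omega
      · have hcard := S.card_crit_le (K := Finset.univ) hc (by omega : 0 < n) (S.perm_n κ)
        calc ∑ κ ∈ Finset.univ.filter fun κ : ConnectedComponents (realPart F) => Crit n κ s,
              (if IsConst κ ∨ Meets κ then 2 else 1)
            = ∑ κ ∈ Finset.univ.filter fun κ : ConnectedComponents (realPart F) => Crit n κ s,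
              1 := by
              refine Finset.sum_congr rfl fun κ hκ => ?_
              have hκ' := (Finset.mem_filter.1 hκ).2
              rw [if_neg]
              rintro (h | h)
              · exact h1 ⟨κ, hκ', h⟩
              · exact h2 ⟨κ, hκ', h⟩
          _ ≤ n := by
              rw [Finset.sum_const, smul_eq_mul]
              omega

open scoped Classical in
theorem Setup.two_le_w (S : Setup F d n) (κ : ConnectedComponents (realPart F)) :
    2 ≤ ((TT F n).filter fun s => Crit n κ s).card * (if IsConst κ ∨ Meets κ then 2 else 1) := by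
  split_ifs with h
  · have := S.one_le κ
    omega
  · push Not at h
    have := S.two_le h.1 h.2
    omega

open scoped Classical in
/-- The first bound. -/
theorem Setup.count_all (S : Setup F d n) [Fintype (ConnectedComponents (realPart F))] :
    2 * Fintype.card (ConnectedComponents (realPart F)) ≤ n * (TT F n).card :=
  dc Finset.univ (TT F n) (fun κ s => Crit n κ s)
    (fun κ => if IsConst κ ∨ Meets κ then 2 else 1) 2 n (fun κ _ => S.two_le_w κ)
    fun _ hs => S.sum_w_le (S.mem_TT.1 hs).2

/-- The components of full period. -/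
def Full (S : Setup F d n) (κ : ConnectedComponents (realPart F)) : Prop :=
  ¬ IsConst κ ∧ minimalPeriod S.perm κ = n

theorem Setup.mem_periodic (S : Setup F d n) (κ : ConnectedComponents (realPart F)) :
    κ ∈ periodicPts S.perm := by
  have := S.hn
  exact mk_mem_periodicPts (by omega : 0 < n) (S.perm_n κ)

theorem Full.of_crit {S : Setup F d n} {κ κ' : ConnectedComponents (realPart F)}
    (h : Full S κ) {s : ℝ} (hs : 0 ≤ s) (hc : Crit n κ s) (hc' : Crit n κ' s) : Full S κ' := by
  obtain ⟨k, _, hk⟩ := S.crit_orbit hc hc'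
  constructor
  · intro hcon
    rw [S.const_unique hcon hs hc' hc] at hcon
    exact h.1 hcon
  · rw [← hk, minimalPeriod_apply_iterate (S.mem_periodic κ)]
    exact h.2

theorem Full.perm {S : Setup F d n} {κ : ConnectedComponents (realPart F)}
    (h : Full S κ) : Full S (S.perm κ) := by
  obtain ⟨s, hs, hc⟩ := S.one_crit κ
  exact h.of_crit hs.le hc (hc.iterate S 1)

open scoped Classical in
/-- The second bound: no component meets the line `z = 0`. -/
theorem Setup.count_two (S : Setup F d n) [Fintype (ConnectedComponents (realPart F))]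
    (hm : ∀ κ : ConnectedComponents (realPart F), ¬ Meets κ) (hn4 : 4 ≤ n) :
    ∃ a y b : ℕ, Fintype.card (ConnectedComponents (realPart F)) = n * a + b ∧
      2 * a + y ≤ (TT F n).card ∧ 4 * b ≤ n * y := by
  have hn := S.hn
  set X : Finset (ConnectedComponents (realPart F)) := Finset.univ.filter fun κ => Full S κ with hX
  set Y : Finset (ConnectedComponents (realPart F)) := Finset.univ.filter fun κ => ¬ Full S κ
    with hY
  set TX := (TT F n).filter fun s => ∃ κ, Full S κ ∧ Crit n κ s with hTX
  set TY := (TT F n).filter fun s => ∃ κ, ¬ Full S κ ∧ Crit n κ s with hTY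
  have hcard : X.card + Y.card = Fintype.card (ConnectedComponents (realPart F)) := by
    rw [hX, hY, Finset.card_filter_add_card_filter_not]
    rfl
  have hT : TX.card + TY.card ≤ (TT F n).card := by
    rw [← Finset.card_union_of_disjoint]
    · exact Finset.card_le_card (Finset.union_subset (Finset.filter_subset _ _)
        (Finset.filter_subset _ _))
    · rw [Finset.disjoint_left]
      intro s h1 h2
      obtain ⟨h3, κ, hκ, hc⟩ := Finset.mem_filter.1 h1
      obtain ⟨_, κ', hκ', hc'⟩ := Finset.mem_filter.1 h2
      exact hκ' (hκ.of_crit (S.mem_TT.1 h3).2.le hc hc')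
  have hXd : n ∣ X.card := by
    refine dvd_card S.perm S.perm.injective (by omega) _ X rfl ?_ ?_
    · intro κ hκ
      exact Finset.mem_filter.2 ⟨Finset.mem_univ _, (Finset.mem_filter.1 hκ).2.perm⟩
    · intro κ hκ
      exact (Finset.mem_filter.1 hκ).2.2
  have hX2 : 2 * X.card ≤ n * TX.card := by
    refine dc X TX (fun κ s => Crit n κ s) (fun _ => 1) 2 n ?_ ?_
    · intro κ hκ
      have hf := (Finset.mem_filter.1 hκ).2
      rw [mul_one]
      refine (S.two_le hf.1 (hm κ)).trans (Finset.card_le_card ?_)
      intro s hs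
      obtain ⟨h1, h2⟩ := Finset.mem_filter.1 hs
      exact Finset.mem_filter.2 ⟨Finset.mem_filter.2 ⟨h1, κ, hf, h2⟩, h2⟩
    · intro s hs
      obtain ⟨_, κ, _, hc⟩ := Finset.mem_filter.1 hs
      rw [Finset.sum_const, smul_eq_mul, mul_one]
      exact S.card_crit_le hc (by omega) (S.perm_n κ)
  have hY4 : 4 * Y.card ≤ n * TY.card := by
    refine dc Y TY (fun κ s => Crit n κ s) (fun κ => if IsConst κ then 4 else 2) 4 n ?_ ?_
    · intro κ hκ
      have hf := (Finset.mem_filter.1 hκ).2
      have hsub : ((TT F n).filter fun s => Crit n κ s) ⊆ TY.filter fun s => Crit n κ s := by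
        intro s hs
        obtain ⟨h1, h2⟩ := Finset.mem_filter.1 hs
        exact Finset.mem_filter.2 ⟨Finset.mem_filter.2 ⟨h1, κ, hf, h2⟩, h2⟩
      have hle := Finset.card_le_card hsub
      split_ifs with h
      · have := S.one_le κ
        omega
      · have := S.two_le h (hm κ)
        omega
    · intro s hs
      obtain ⟨h1, κ, hκ, hc⟩ := Finset.mem_filter.1 hs
      have hs0 := (S.mem_TT.1 h1).2
      by_cases h1 : ∃ κ : ConnectedComponents (realPart F), Crit n κ s ∧ IsConst κ
      · obtain ⟨κ₁, hc₁, hk₁⟩ := h1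
        have : (Y.filter fun κ => Crit n κ s) ⊆ {κ₁} := by
          intro κ' hκ'
          rw [Finset.mem_singleton]
          exact (S.const_unique hk₁ hs0.le hc₁ (Finset.mem_filter.1 hκ').2).symm
        refine (Finset.sum_le_sum_of_subset this).trans ?_
        rw [Finset.sum_singleton]
        split_ifs <;> omega
      · have hnc : ¬ IsConst κ := fun h => h1 ⟨κ, hc, h⟩
        have hper : minimalPeriod S.perm κ ≠ n := fun h => hκ ⟨hnc, h⟩
        have hdvd : minimalPeriod S.perm κ ∣ n :=
          IsPeriodicPt.minimalPeriod_dvd (S.perm_n κ)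
        have hpos : 0 < minimalPeriod S.perm κ :=
          minimalPeriod_pos_of_mem_periodicPts (S.mem_periodic κ)
        obtain ⟨e, he⟩ := hdvd
        have hcard := S.card_crit_le (K := Y) hc hpos iterate_minimalPeriod
        have he2 : 2 ≤ e := by
          by_contra hcon
          have : e = 0 ∨ e = 1 := by omega
          rcases this with rfl | rfl
          · omega
          · omega
        calc ∑ κ ∈ Y.filter fun κ => Crit n κ s, (if IsConst κ then 4 else 2)
            = ∑ κ ∈ Y.filter fun κ => Crit n κ s, 2 := by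
              refine Finset.sum_congr rfl fun κ' hκ' => ?_
              rw [if_neg]
              exact fun h => h1 ⟨κ', (Finset.mem_filter.1 hκ').2, h⟩
          _ ≤ n := by
              rw [Finset.sum_const, smul_eq_mul]
              nlinarith
  obtain ⟨a, ha⟩ := hXd
  refine ⟨a, TY.card, Y.card, by rw [← hcard, ha], ?_, hY4⟩
  have : 2 * a ≤ TX.card := by
    have h1 : n * (2 * a) ≤ n * TX.card := by
      calc n * (2 * a) = 2 * X.card := by rw [ha]; ring
        _ ≤ _ := hX2
    exact Nat.le_of_mul_le_mul_left h1 (by omega)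
  omega

/-- For `n > d` the form is a function of the distance. -/
theorem hh_const (hF : F.IsHomogeneous d) (hn : 0 < n) (hdn : d < n)
    (hinv : ∀ s t : ℝ, hh F s (t + 2 * Real.pi / n) = hh F s t) (s : ℝ) :
    ∀ t t' : ℝ, hh F s t = hh F s t' := by
  set Q := QQ F d s with hQ
  have hpoly : Q = Polynomial.C (Q.coeff d) * Polynomial.X ^ d := by
    ext k
    simp only [Polynomial.coeff_C_mul_X_pow]
    by_cases h1 : k = d
    · subst h1
      rw [if_pos rfl]
    · rw [if_neg h1]
      by_cases h2 : k = d + n
      · exact Polynomial.coeff_eq_zero_of_natDegree_lt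
          (lt_of_le_of_lt (natDegree_QQ hF s) (by omega))
      · exact coeff_QQ hF hn (by omega) hinv s k h1 h2 (by omega)
  have key : ∀ t : ℝ, (hh F s t : ℂ) = Q.coeff d := by
    intro t
    have h1 := eval_QQ hF s t
    rw [← hQ, hpoly] at h1
    simp only [Polynomial.eval_mul, Polynomial.eval_C, Polynomial.eval_pow,
      Polynomial.eval_X] at h1
    have hw : Complex.exp (t * Complex.I) ^ d ≠ 0 := pow_ne_zero _ (Complex.exp_ne_zero _)
    have h2 := mul_right_cancel₀ hw h1
    rw [← h2]
  intro t t'
  have := (key t).trans (key t').symm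
  exact_mod_cast this

open scoped Classical in
/-- If the form is a function of the distance, there are at most `d` components. -/
theorem Setup.count_zero (S : Setup F d n) [Fintype (ConnectedComponents (realPart F))]
    (hP : ∀ s, (PP F n).eval s = 0) (hN : ∀ s, (NN F n).eval s = 0) :
    Fintype.card (ConnectedComponents (realPart F)) ≤ (TT F n).card := by
  have := dc Finset.univ (TT F n) (fun (κ : ConnectedComponents (realPart F)) s => Crit n κ s)
    (fun _ => 1) 1 1 ?_ ?_
  · simpa using this
  · intro κ _
    rw [mul_one]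
    exact S.one_le κ
  · intro s hs
    rw [Finset.sum_const, smul_eq_mul, mul_one, Finset.card_le_one]
    intro κ hκ κ' hκ'
    obtain ⟨t, h1, h2⟩ := (Finset.mem_filter.1 hκ).2
    obtain ⟨t', h1', _⟩ := (Finset.mem_filter.1 hκ').2
    have h0 := (psi_mem S.hF s t).1 h1.1
    rw [S.hh_eq, hP, hN] at h0
    exact (S.circle h1 (by linarith) (hP s) (hN s) t').unique h1'

/-- For `n > d` there are at most `d` components. -/
theorem Setup.count_large (S : Setup F d n) [Fintype (ConnectedComponents (realPart F))]
    (hdn : d < n) : Fintype.card (ConnectedComponents (realPart F)) ≤ (TT F n).card := by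
  have hn := S.hn
  have hconst := hh_const S.hF (by omega) hdn S.hinv
  refine S.count_zero ?_ ?_
  · intro s
    simp only [PP, Polynomial.eval_mul, Polynomial.eval_C, Polynomial.eval_sub, eval_HP]
    rw [hconst s 0 (Real.pi / n)]
    ring
  · intro s
    simp only [NN, Polynomial.eval_mul, Polynomial.eval_C, Polynomial.eval_sub, eval_HP]
    rw [hconst s (Real.pi / (2 * n)) (3 * Real.pi / (2 * n))]
    ring

/-- The main bound. -/
theorem Setup.main (S : Setup F d n) (hd6 : 6 ≤ d) (hdn : n + 2 ≤ d ∨ d < n) :
    Nat.card (ConnectedComponents (realPart F)) ≠ (d - 1) * (d - 2) / 2 + 1 := by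
  classical
  have hfin := S.finite
  have : Fintype (ConnectedComponents (realPart F)) := Fintype.ofFinite _
  rw [Nat.card_eq_fintype_card]
  intro hM
  have hT := S.card_TT
  have hev := S.hd
  have hM2 : 2 * Fintype.card (ConnectedComponents (realPart F)) = (d - 1) * (d - 2) + 2 := by
    obtain ⟨k, hk⟩ := hev
    have : (d - 1) * (d - 2) = 2 * ((d - 1) * (k - 1)) := by
      rw [show d - 2 = 2 * (k - 1) by omega]; ring
    rw [hM, this]
    omega
  obtain ⟨e, rfl⟩ : ∃ e, d = e + 2 := ⟨d - 2, by omega⟩
  rw [show e + 2 - 1 = e + 1 by omega, show e + 2 - 2 = e by omega] at hM2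
  rcases hdn with hdn | hdn
  · have hall := S.count_all
    rcases (show n + 1 ≤ e ∨ n = e by omega) with h1 | h1
    · have h2 : n * (TT F n).card ≤ n * (e + 2) := Nat.mul_le_mul_left _ hT
      obtain ⟨j, rfl⟩ : ∃ j, e = n + 1 + j := ⟨e - n - 1, by omega⟩
      nlinarith
    · subst h1
      by_cases hm : ∃ κ : ConnectedComponents (realPart F), Meets κ
      · obtain ⟨κ, t, ht⟩ := hm
        have h3 := S.card_TT' (S.dd_nonneg ((psi_mem S.hF 0 t).1 ht.1))
        have h4 : (TT F n).card ≤ n + 1 := by omega
        have h5 : n * (TT F n).card ≤ n * (n + 1) := Nat.mul_le_mul_left _ h4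
        nlinarith
      · push Not at hm
        obtain ⟨a, y, b, h3, h4, h5⟩ := S.count_two hm (by omega)
        rw [h3] at hM2
        obtain ⟨k, hk⟩ := hev
        obtain ⟨m, rfl⟩ : ∃ m, n = 2 * m := ⟨k - 1, by omega⟩
        have h6 : 2 * a + y ≤ 2 * m + 2 := by omega
        have h7 : 2 * b ≤ m * y := by nlinarith
        have h8 : 2 * m * a + b = 2 * m * m + m + 1 := by nlinarith
        have hm2 : 2 ≤ m := by omega
        rcases (show y = 0 ∨ y = 1 ∨ 2 ≤ y by omega) with hy | hy | hy
        · subst hy
          have hb : b = 0 := by omega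
          subst hb
          have h9 : m ∣ 1 := by
            have h10 : m ∣ 2 * m * m + m + 1 := ⟨2 * a, by rw [← h8]; ring⟩
            have h11 : m ∣ 2 * m * m + m := ⟨2 * m + 1, by ring⟩
            exact (Nat.dvd_add_right h11).1 h10
          have := Nat.le_of_dvd one_pos h9
          omega
        · subst hy
          have h9 : a ≤ m := by omega
          have h10 : 2 * m * a ≤ 2 * m * m := Nat.mul_le_mul_left _ h9
          omega
        · have h9 : m * (2 * a + y) ≤ m * (2 * m + 2) := Nat.mul_le_mul_left _ h6
          have h10 : m * 2 ≤ m * y := Nat.mul_le_mul_left _ hy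
          nlinarith
  · have h1 := S.count_large hdn
    have h2 : Fintype.card (ConnectedComponents (realPart F)) ≤ e + 2 := h1.trans hT
    nlinarith

end

end Pool.Agent.H83.MC
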