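import Pool.Agent.H83.MC.Count

/-!
# The oscillating part for large `n`
-/

open MvPolynomial

namespace Pool.Agent.H83.MC

noncomputable section

variable {F : MvPolynomial (Fin 3) ℝ} {d n : ℕ}

/-- The Fourier coefficient of a monomial. -/
def KK (d n : ℕ) (m : Fin 3 →₀ ℕ) : ℂ :=
  (Polynomial.X ^ (d - (m 0 + m 1)) *
    ((Polynomial.C (1 / 2 : ℂ) * (Polynomial.X ^ 2 + 1)) ^ m 0 *
      (Polynomial.C (-Complex.I / 2 : ℂ) * (Polynomial.X ^ 2 - 1)) ^ m 1)).coeff (d + n)

theorem KK_zero {m : Fin 3 →₀ ℕ} (hm : m 0 + m 1 + m 2 = d) (h : m 0 + m 1 < n) :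
    KK d n m = 0 := by
  apply Polynomial.coeff_eq_zero_of_natDegree_lt
  refine lt_of_le_of_lt (Polynomial.natDegree_mul_le) ?_
  have h3 : (Polynomial.X ^ (d - (m 0 + m 1)) : Polynomial ℂ).natDegree ≤ d - (m 0 + m 1) :=
    Polynomial.natDegree_X_pow_le _
  have h4 : ((Polynomial.C (1 / 2 : ℂ) * (Polynomial.X ^ 2 + 1)) ^ m 0).natDegree ≤ 2 * m 0 := by
    refine (Polynomial.natDegree_pow_le).trans ?_
    have : (Polynomial.C (1 / 2 : ℂ) * (Polynomial.X ^ 2 + 1)).natDegree ≤ 2 := by
      refine (Polynomial.natDegree_C_mul_le _ _).trans ?_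
      compute_degree
    nlinarith
  have h5 : ((Polynomial.C (-Complex.I / 2 : ℂ) * (Polynomial.X ^ 2 - 1)) ^ m 1).natDegree ≤
      2 * m 1 := by
    refine (Polynomial.natDegree_pow_le).trans ?_
    have : (Polynomial.C (-Complex.I / 2 : ℂ) * (Polynomial.X ^ 2 - 1)).natDegree ≤ 2 := by
      refine (Polynomial.natDegree_C_mul_le _ _).trans ?_
      compute_degree
    nlinarith
  have h6 := (Polynomial.natDegree_mul_le (p := (Polynomial.C (1 / 2 : ℂ) *
    (Polynomial.X ^ 2 + 1)) ^ m 0) (q := (Polynomial.C (-Complex.I / 2 : ℂ) *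
    (Polynomial.X ^ 2 - 1)) ^ m 1))
  omega

theorem coeff_QQ_eq (F : MvPolynomial (Fin 3) ℝ) (d n : ℕ) (s : ℝ) : (QQ F d s).coeff (d + n) =
    ∑ m ∈ F.support, ((coeff m F * s ^ m 2 : ℝ) : ℂ) * KK d n m := by
  rw [QQ, Polynomial.finsetSum_coeff]
  refine Finset.sum_congr rfl fun m _ => ?_
  rw [Polynomial.coeff_C_mul, KK]

theorem Setup.fourier (S : Setup F d n) (hnd : n ≤ d) (s t : ℝ) :
    (hh F s t : ℂ) = (QQ F d s).coeff d +
      (QQ F d s).coeff (d + n) * Complex.exp (n * t * Complex.I) +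
      (QQ F d s).coeff (d - n) * Complex.exp (-(n * t * Complex.I)) := by
  have hn := S.hn
  set Q := QQ F d s with hQ
  have hpoly : Q = Polynomial.C (Q.coeff d) * Polynomial.X ^ d +
      Polynomial.C (Q.coeff (d + n)) * Polynomial.X ^ (d + n) +
      Polynomial.C (Q.coeff (d - n)) * Polynomial.X ^ (d - n) := by
    ext k
    simp only [Polynomial.coeff_add, Polynomial.coeff_C_mul_X_pow]
    by_cases h1 : k = d
    · subst h1
      rw [if_pos rfl, if_neg (by omega), if_neg (by omega)]; simp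
    by_cases h2 : k = d + n
    · subst h2
      rw [if_neg (by omega), if_pos rfl, if_neg (by omega)]; simp
    by_cases h3 : k = d - n
    · subst h3
      rw [if_neg (by omega), if_neg (by omega), if_pos rfl]; simp
    · rw [if_neg h1, if_neg h2, if_neg h3]
      simpa using coeff_QQ S.hF (by omega) S.hdn S.hinv s k h1 h2 (by omega)
  have h1 := eval_QQ S.hF s t
  rw [← hQ, hpoly] at h1
  simp only [Polynomial.eval_add, Polynomial.eval_mul, Polynomial.eval_C,
    Polynomial.eval_pow, Polynomial.eval_X] at h1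
  have hw : Complex.exp (t * Complex.I) ^ d ≠ 0 := pow_ne_zero _ (Complex.exp_ne_zero _)
  refine mul_right_cancel₀ hw ?_
  rw [← h1]
  have e1 : Complex.exp (n * t * Complex.I) = Complex.exp (t * Complex.I) ^ n := by
    rw [← Complex.exp_nat_mul]; congr 1; ring
  have e2 : Complex.exp (-(n * t * Complex.I)) * Complex.exp (t * Complex.I) ^ d =
      Complex.exp (t * Complex.I) ^ (d - n) := by
    rw [← Complex.exp_nat_mul, ← Complex.exp_nat_mul, ← Complex.exp_add]
    congr 1
    rw [Nat.cast_sub hnd]; ring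
  rw [e1, ← e2]
  ring

theorem Setup.PP_NN_eq (S : Setup F d n) (hnd : n ≤ d) (s : ℝ) :
    (PP F n).eval s = 2 * ((QQ F d s).coeff (d + n)).re ∧
    (NN F n).eval s = -2 * ((QQ F d s).coeff (d + n)).im := by
  have hn' : (n : ℂ) ≠ 0 := by
    have := S.npos.ne'
    exact_mod_cast this
  set a := (QQ F d s).coeff d with ha
  set b := (QQ F d s).coeff (d + n) with hb
  set c := (QQ F d s).coeff (d - n) with hc
  have k0 : (hh F s 0 : ℂ) = a + b + c := by
    rw [S.fourier hnd s 0]
    simp [ha, hb, hc]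
  have k1 : (hh F s (Real.pi / n) : ℂ) = a - b - c := by
    rw [S.fourier hnd s (Real.pi / n)]
    have e : (n : ℂ) * ((Real.pi / n : ℝ) : ℂ) * Complex.I = Real.pi * Complex.I := by
      push_cast; field_simp
    rw [e, Complex.exp_neg, Complex.exp_pi_mul_I, ← ha, ← hb, ← hc]
    norm_num
    ring
  have hexp2 : Complex.exp (Real.pi / 2 * Complex.I) = Complex.I := Complex.exp_pi_div_two_mul_I
  have k2 : (hh F s (Real.pi / (2 * n)) : ℂ) = a + b * Complex.I - c * Complex.I := by
    rw [S.fourier hnd s (Real.pi / (2 * n))]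
    have e : (n : ℂ) * ((Real.pi / (2 * n) : ℝ) : ℂ) * Complex.I = Real.pi / 2 * Complex.I := by
      push_cast; field_simp
    rw [e, Complex.exp_neg, hexp2, ← ha, ← hb, ← hc, Complex.inv_I]
    ring
  have k3 : (hh F s (3 * Real.pi / (2 * n)) : ℂ) = a - b * Complex.I + c * Complex.I := by
    rw [S.fourier hnd s (3 * Real.pi / (2 * n))]
    have e : (n : ℂ) * ((3 * Real.pi / (2 * n) : ℝ) : ℂ) * Complex.I =
        Real.pi * Complex.I + Real.pi / 2 * Complex.I := by
      push_cast; field_simp; ring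
    rw [e, Complex.exp_neg, Complex.exp_add, Complex.exp_pi_mul_I, hexp2, ← ha, ← hb, ← hc]
    have : (-1 * Complex.I)⁻¹ = Complex.I := by
      rw [neg_one_mul, inv_neg, Complex.inv_I, neg_neg]
    rw [this]
    ring
  have p1 : (((PP F n).eval s : ℝ) : ℂ) = b + c := by
    simp only [PP, Polynomial.eval_mul, Polynomial.eval_C, Polynomial.eval_sub, eval_HP]
    push_cast
    rw [k0, k1]
    ring
  have p2 : (((NN F n).eval s : ℝ) : ℂ) = (b - c) * Complex.I := by
    simp only [NN, Polynomial.eval_mul, Polynomial.eval_C, Polynomial.eval_sub, eval_HP]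
    push_cast
    rw [k2, k3]
    ring
  have r1 := congrArg Complex.re p1
  have i1 := congrArg Complex.im p1
  have r2 := congrArg Complex.re p2
  have i2 := congrArg Complex.im p2
  simp only [Complex.ofReal_re, Complex.ofReal_im, Complex.add_re, Complex.add_im, Complex.mul_re,
    Complex.mul_im, Complex.sub_re, Complex.sub_im, Complex.I_re, Complex.I_im] at r1 i1 r2 i2
  constructor
  · linarith
  · linarith

theorem Setup.natDegree_PP' (S : Setup F d n) (hnd : n ≤ d) :
    (PP F n).natDegree ≤ d - n := by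
  have h : PP F n = ∑ m ∈ F.support, Polynomial.C (coeff m F * (2 * (KK d n m).re)) *
      Polynomial.X ^ m 2 := by
    apply Polynomial.funext
    intro s
    rw [(S.PP_NN_eq hnd s).1, coeff_QQ_eq, Complex.re_sum, Finset.mul_sum,
      Polynomial.eval_finsetSum]
    refine Finset.sum_congr rfl fun m _ => ?_
    rw [Complex.re_ofReal_mul]
    simp only [Polynomial.eval_mul, Polynomial.eval_C, Polynomial.eval_pow, Polynomial.eval_X]
    ring
  rw [h]
  refine Polynomial.natDegree_sum_le_of_forall_le _ _ fun m hm => ?_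
  have h1 := deg_le S.hF hm
  by_cases h2 : m 0 + m 1 < n
  · rw [KK_zero h1 h2]
    simp
  · refine (Polynomial.natDegree_C_mul_X_pow_le _ _).trans ?_
    omega

theorem Setup.natDegree_NN' (S : Setup F d n) (hnd : n ≤ d) :
    (NN F n).natDegree ≤ d - n := by
  have h : NN F n = ∑ m ∈ F.support, Polynomial.C (coeff m F * (-2 * (KK d n m).im)) *
      Polynomial.X ^ m 2 := by
    apply Polynomial.funext
    intro s
    rw [(S.PP_NN_eq hnd s).2, coeff_QQ_eq, Complex.im_sum, Finset.mul_sum,
      Polynomial.eval_finsetSum]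
    refine Finset.sum_congr rfl fun m _ => ?_
    rw [Complex.im_ofReal_mul]
    simp only [Polynomial.eval_mul, Polynomial.eval_C, Polynomial.eval_pow, Polynomial.eval_X]
    ring
  rw [h]
  refine Polynomial.natDegree_sum_le_of_forall_le _ _ fun m hm => ?_
  have h1 := deg_le S.hF hm
  by_cases h2 : m 0 + m 1 < n
  · rw [KK_zero h1 h2]
    simp
  · refine (Polynomial.natDegree_C_mul_X_pow_le _ _).trans ?_
    omega

/-- A polynomial of degree at most `e ≤ 1` and parity `n` with `n + e` even. -/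
theorem poly_form {p : Polynomial ℝ} {e n : ℕ} (he : e ≤ 1) (hp : p.natDegree ≤ e)
    (hpar : ∀ s, p.eval (-s) = (-1) ^ n * p.eval s) (hne : Even (n + e)) :
    ∃ c : ℝ, ∀ s, p.eval s = c * s ^ e := by
  rcases (show e = 0 ∨ e = 1 by omega) with rfl | rfl
  · refine ⟨p.coeff 0, fun s => ?_⟩
    rw [Polynomial.eq_C_of_natDegree_le_zero hp]
    simp
  · refine ⟨p.coeff 1, fun s => ?_⟩
    have h0 := hpar 0
    have hodd : Odd n := by
      rw [Nat.even_add_one] at hne
      exact Nat.not_even_iff_odd.1 hne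
    rw [neg_zero, hodd.neg_one_pow] at h0
    have h1 : p.coeff 0 = 0 := by
      rw [Polynomial.coeff_zero_eq_eval_zero]
      linarith
    rw [Polynomial.eq_X_add_C_of_natDegree_le_one hp, h1]
    simp

/-- For `n = d` and `n = d - 1` the oscillating part is a multiple of a monomial. -/
theorem Setup.exists_pq (S : Setup F d n) {e : ℕ} (he : e ≤ 1) (hde : n + e = d) :
    ∃ p q : ℝ, (∀ s, (PP F n).eval s = p * s ^ e) ∧ ∀ s, (NN F n).eval s = q * s ^ e := by
  have h1 := S.natDegree_PP' (by omega)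
  have h2 := S.natDegree_NN' (by omega)
  rw [show d - n = e by omega] at h1 h2
  have hev : Even (n + e) := by rw [hde]; exact S.hd
  obtain ⟨p, hp⟩ := poly_form he h1 (fun s => (S.parity s).2.1) hev
  obtain ⟨q, hq⟩ := poly_form he h2 (fun s => (S.parity s).2.2) hev
  exact ⟨p, q, hp, hq⟩

end

end Pool.Agent.H83.MC
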