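import Pool.Agent.H83.MC.Count

/-!
# Linear maps of finite projective order in dimension three
-/

namespace Pool.Agent.H83.MC

noncomputable section

open Matrix Polynomial

theorem exists_real_root (p : ℝ[X]) (hp : p.Monic) (hd : p.natDegree = 3) : ∃ x, p.eval x = 0 := by
  have h1 : Filter.Tendsto (fun x => p.eval x) Filter.atTop Filter.atTop := by
    refine p.tendsto_atTop_of_leadingCoeff_nonneg ?_ (by rw [hp.leadingCoeff]; norm_num)
    rw [← natDegree_pos_iff_degree_pos]
    omega
  set q : ℝ[X] := -(p.comp (-X)) with hq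
  have hq1 : q.natDegree = 3 := by
    rw [hq, natDegree_neg, natDegree_comp, natDegree_neg, natDegree_X, hd]
  have hq2 : q.leadingCoeff = 1 := by
    rw [hq, leadingCoeff_neg, leadingCoeff_comp (by rw [natDegree_neg, natDegree_X]; norm_num),
      hp.leadingCoeff, leadingCoeff_neg, leadingCoeff_X, hd]
    norm_num
  have h2 : Filter.Tendsto (fun x => q.eval x) Filter.atTop Filter.atTop := by
    refine q.tendsto_atTop_of_leadingCoeff_nonneg ?_ (by rw [hq2]; norm_num)
    rw [← natDegree_pos_iff_degree_pos]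
    omega
  obtain ⟨a, ha⟩ := (h1.eventually_ge_atTop 0).exists
  obtain ⟨b, hb⟩ := (h2.eventually_ge_atTop 0).exists
  have hb' : p.eval (-b) ≤ 0 := by
    simp only [hq, eval_neg, eval_comp, eval_X] at hb
    linarith
  exact mem_range_of_exists_le_of_exists_ge p.continuous ⟨-b, hb'⟩ ⟨a, ha⟩

theorem exists_real_eigen (M : Matrix (Fin 3) (Fin 3) ℝ) :
    ∃ μ : ℝ, ∃ e : Fin 3 → ℝ, e ≠ 0 ∧ M.mulVec e = μ • e := by
  obtain ⟨μ, hμ⟩ := exists_real_root M.charpoly M.charpoly_monic (by
    rw [M.charpoly_natDegree_eq_dim]; simp)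
  have hdet : (Matrix.scalar (Fin 3) μ - M).det = 0 := by
    rw [← Matrix.eval_charpoly]
    exact hμ
  obtain ⟨e, he, h⟩ := Matrix.exists_mulVec_eq_zero_iff.2 hdet
  refine ⟨μ, e, he, ?_⟩
  rw [Matrix.sub_mulVec, sub_eq_zero] at h
  rw [← h, Matrix.scalar_apply]
  ext i
  simp [Matrix.mulVec_diagonal]

/-- The complexification of a real matrix. -/
def cx (M : Matrix (Fin 3) (Fin 3) ℝ) : Matrix (Fin 3) (Fin 3) ℂ :=
  Complex.ofRealHom.mapMatrix M

theorem exists_eigen_of_spectrum {G : Matrix (Fin 3) (Fin 3) ℂ} {z : ℂ} (hz : z ∈ spectrum ℂ G) :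
    ∃ w : Fin 3 → ℂ, w ≠ 0 ∧ G.mulVec w = z • w := by
  have hdet : (algebraMap ℂ (Matrix (Fin 3) (Fin 3) ℂ) z - G).det = 0 := by
    by_contra hne
    exact hz ((Matrix.isUnit_iff_isUnit_det _).2 (isUnit_iff_ne_zero.2 hne))
  obtain ⟨w, hw, h⟩ := Matrix.exists_mulVec_eq_zero_iff.2 hdet
  refine ⟨w, hw, ?_⟩
  rw [Matrix.sub_mulVec, sub_eq_zero] at h
  rw [← h]
  ext i
  simp [Matrix.algebraMap_eq_diagonal, Matrix.mulVec_diagonal]

theorem exists_cx_eigen {M : Matrix (Fin 3) (Fin 3) ℝ} {n : ℕ} (hn : 0 < n) (hM : M ^ n = 1)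
    (hM2 : M ^ 2 ≠ 1) : ∃ z : ℂ, z.im ≠ 0 ∧ ∃ w : Fin 3 → ℂ, w ≠ 0 ∧
      (cx M).mulVec w = z • w := by
  by_contra hcon
  push Not at hcon
  set G := cx M with hG
  have hGn : G ^ n = 1 := by rw [hG, cx, ← map_pow, hM, map_one]
  have hspec : ∀ z ∈ spectrum ℂ G, z ^ n = 1 ∧ z.im = 0 := by
    intro z hz
    obtain ⟨w, hw, h⟩ := exists_eigen_of_spectrum hz
    constructor
    · have h1 := spectrum.pow_mem_pow G n hz
      rw [hGn] at h1
      simpa using h1
    · by_contra him
      exact hcon z him w hw h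
  apply hM2
  -- it is enough to find a polynomial without real roots of unity as roots
  have hne : (spectrum ℂ G).Nonempty :=
    spectrum.nonempty_of_isAlgClosed_of_finiteDimensional ℂ G
  have key : ∀ p : ℂ[X], (X ^ n - 1 : ℂ[X]) ∣ (X ^ 2 - 1) * p →
      (∀ x : ℂ, x ^ n = 1 → x.im = 0 → p.eval x ≠ 0) → M ^ 2 = 1 := by
    intro p hdvd hroot
    have hunit : IsUnit (aeval G p) := by
      by_contra hnu
      have h0 : (0 : ℂ) ∈ spectrum ℂ (aeval G p) := (spectrum.zero_mem_iff ℂ).2 hnu
      rw [spectrum.map_polynomial_aeval_of_nonempty G p hne] at h0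
      obtain ⟨k, hk, hk0⟩ := h0
      exact hroot k (hspec k hk).1 (hspec k hk).2 hk0
    obtain ⟨q, hq⟩ := hdvd
    have h1 : (G ^ 2 - 1) * aeval G p = 0 := by
      have := congrArg (aeval G) hq
      simp only [map_mul, map_sub, map_pow, aeval_X, map_one, hGn, sub_self, zero_mul] at this
      exact this
    have h2 : G ^ 2 - 1 = 0 := by
      obtain ⟨u, hu⟩ := hunit
      rw [← hu] at h1
      exact (Units.mul_left_eq_zero u).1 h1
    have h3 : cx (M ^ 2) = cx 1 := by
      have : cx (M ^ 2) = G ^ 2 := by rw [hG, cx, cx, map_pow]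
      rw [this, sub_eq_zero.1 h2, cx, map_one]
    ext i j
    have h4 := congrFun (congrFun h3 i) j
    simp only [cx, RingHom.mapMatrix_apply, Matrix.map_apply, Complex.ofRealHom_eq_coe] at h4
    exact_mod_cast h4
  rcases Nat.even_or_odd n with hev | hodd
  · obtain ⟨m, hm⟩ := hev
    by_cases hm1 : m = 1
    · subst hm1
      rw [hm] at hM
      exact hM
    refine key (∑ i ∈ Finset.range m, (X ^ 2) ^ i) ?_ ?_
    · rw [mul_comm, geom_sum_mul, ← pow_mul]
      rw [show 2 * m = n by omega]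
    · intro x hx him
      have hxr : x = (x.re : ℂ) := by
        apply Complex.ext
        · simp
        · simp [him]
      rw [eval_finsetSum]
      simp only [eval_pow, eval_X]
      rw [hxr]
      have : ∑ i ∈ Finset.range m, ((x.re : ℂ) ^ 2) ^ i =
          ((∑ i ∈ Finset.range m, (x.re ^ 2) ^ i : ℝ) : ℂ) := by push_cast; rfl
      rw [this]
      have hpos : 0 < ∑ i ∈ Finset.range m, (x.re ^ 2) ^ i := by
        have h0 : (0 : ℕ) ∈ Finset.range m := Finset.mem_range.2 (by omega)
        calc (0 : ℝ) < (x.re ^ 2) ^ 0 := by simp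
          _ ≤ _ := Finset.single_le_sum (f := fun i => (x.re ^ 2) ^ i)
            (fun i _ => pow_nonneg (sq_nonneg _) i) h0
      exact_mod_cast hpos.ne'
  · have hn1 : n ≠ 1 := by
      rintro rfl
      rw [pow_one] at hM
      exact hM2 (by rw [hM, one_pow])
    refine key (∑ i ∈ Finset.range n, X ^ i) ?_ ?_
    · have : (X ^ 2 - 1 : ℂ[X]) * (∑ i ∈ Finset.range n, X ^ i) = (X ^ n - 1) * (X + 1) := by
        have h := geom_sum_mul (X : ℂ[X]) n
        linear_combination (X + 1) * h
      rw [this]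
      exact dvd_mul_right _ _
    · intro x hx him hx0
      rw [eval_finsetSum] at hx0
      simp only [eval_pow, eval_X] at hx0
      have hxr : x = (x.re : ℂ) := by
        apply Complex.ext
        · simp
        · simp [him]
      have h1 : (x.re) ^ n = 1 := by
        rw [hxr] at hx
        exact_mod_cast hx
      have h2 : x.re = 1 := by
        have : x.re ^ n = 1 ^ n := by rw [h1, one_pow]
        exact hodd.strictMono_pow.injective this
      rw [hxr, h2] at hx0
      simp at hx0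
      omega

end

end Pool.Agent.H83.MC
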