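import Pool.Agent.H83.MC.Base

/-!
# Local structure of the components
-/

open MvPolynomial

namespace Pool.Agent.H83.MC

noncomputable section

theorem hasDerivAt_eval (F : MvPolynomial (Fin 3) ℝ) (c : ℝ → Fin 3 → ℝ) (c' : Fin 3 → ℝ) (x : ℝ)
    (hc : ∀ i, HasDerivAt (fun y => c y i) (c' i) x) :
    HasDerivAt (fun y => eval (c y) F) (∑ i, eval (c x) (pderiv i F) * c' i) x := by
  induction F using MvPolynomial.induction_on with
  | C a => simpa using hasDerivAt_const x a
  | add p q hp hq =>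
    simp only [map_add, add_mul, Finset.sum_add_distrib]
    exact hp.add hq
  | mul_X p j hp =>
    have h := hp.mul (hc j)
    have : ∀ i, eval (c x) (pderiv i (p * X j)) * c' i =
        (eval (c x) (pderiv i p) * c' i) * c x j + (if i = j then eval (c x) p * c' i else 0) := by
      intro i
      rw [Derivation.leibniz, pderiv_X]
      by_cases hij : i = j
      · subst hij
        simp
        ring
      · simp [hij, Ne.symm hij]
        ring
    have h2 : ∑ i, eval (c x) (pderiv i (p * X j)) * c' i =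
        (∑ i, eval (c x) (pderiv i p) * c' i) * c x j + eval (c x) p * c' j := by
      simp only [this, Finset.sum_add_distrib, ← Finset.sum_mul]
      simp
    rw [h2]
    refine HasDerivAt.congr_of_eventuallyEq h (Filter.Eventually.of_forall fun y => ?_)
    simp

/-- The implicit function theorem in the plane. -/
theorem exists_implicit {f : ℝ × ℝ → ℝ} (hf : ContDiff ℝ 1 f) {a b c : ℝ} (h0 : f (a, b) = 0)
    (hc : HasDerivAt (fun y => f (a, y)) c b) (hc0 : c ≠ 0) :
    ∃ (g : ℝ → ℝ) (δ : ℝ), 0 < δ ∧ ContinuousOn g (Set.Ioo (a - δ) (a + δ)) ∧ g a = b ∧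
      ∀ x ∈ Set.Ioo (a - δ) (a + δ), f (x, g x) = 0 := by
  have cdf : ContDiffAt ℝ 1 f (a, b) := hf.contDiffAt
  have hd : HasFDerivAt f (fderiv ℝ f (a, b)) (a, b) :=
    (cdf.differentiableAt (by norm_num)).hasFDerivAt
  have h1 : (fderiv ℝ f (a, b)) (0, 1) = c := by
    have h2 : HasDerivAt (fun y : ℝ => ((a, y) : ℝ × ℝ)) (0, 1) b :=
      (hasDerivAt_const b a).prodMk (hasDerivAt_id b)
    have h3 := hd.comp_hasDerivAt b h2
    exact h3.unique hc
  have hinv : (fderiv ℝ f (a, b) ∘L .inr ℝ ℝ ℝ).IsInvertible := by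
    refine ⟨(LinearEquiv.smulOfNeZero ℝ ℝ c hc0).toContinuousLinearEquiv, ?_⟩
    ext
    simp [h1]
  set g := cdf.implicitFunction one_ne_zero hinv with hg
  have hga : g a = b := cdf.implicitFunction_apply_self one_ne_zero hinv
  have he := cdf.eventually_apply_implicitFunction one_ne_zero hinv
  have hgc := cdf.contDiffAt_implicitFunction one_ne_zero hinv
  have hgc' : ∀ᶠ x in nhds a, ContDiffAt ℝ 1 g x := hgc.eventually (by simp)
  have hall : ∀ᶠ x in nhds a, f (x, g x) = 0 ∧ ContinuousAt g x := by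
    filter_upwards [he, hgc'] with x hx1 hx2
    exact ⟨by rw [hx1, h0], hx2.continuousAt⟩
  obtain ⟨δ, hδ, hball⟩ := Metric.eventually_nhds_iff_ball.1 hall
  refine ⟨g, δ, hδ, ?_, hga, ?_⟩
  · intro x hx
    rw [← Real.ball_eq_Ioo] at hx
    exact (hball x hx).2.continuousWithinAt
  · intro x hx
    rw [← Real.ball_eq_Ioo] at hx
    exact (hball x hx).1

theorem contDiff_swap {f : ℝ → ℝ → ℝ} (h : ContDiff ℝ 1 fun x : ℝ × ℝ => f x.1 x.2) :
    ContDiff ℝ 1 fun x : ℝ × ℝ => f x.2 x.1 := by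
  have hsw : ContDiff ℝ 1 fun x : ℝ × ℝ => (x.2, x.1) := contDiff_snd.prodMk contDiff_fst
  exact h.comp hsw

theorem exists_implicit' {f : ℝ → ℝ → ℝ} (hf : ContDiff ℝ 1 fun x : ℝ × ℝ => f x.2 x.1)
    {a b c : ℝ} (h0 : f b a = 0) (hc : HasDerivAt (fun y => f y a) c b) (hc0 : c ≠ 0) :
    ∃ (g : ℝ → ℝ) (δ : ℝ), 0 < δ ∧ ContinuousOn g (Set.Ioo (a - δ) (a + δ)) ∧ g a = b ∧
      ∀ x ∈ Set.Ioo (a - δ) (a + δ), f (g x) x = 0 :=
  exists_implicit hf h0 hc hc0

theorem contDiff_poly (p : Polynomial ℝ) : ContDiff ℝ 1 fun x : ℝ => p.eval x := by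
  induction p using Polynomial.induction_on' with
  | add p q hp hq =>
    simp only [Polynomial.eval_add]
    exact hp.add hq
  | monomial k a =>
    simp only [Polynomial.eval_monomial]
    exact contDiff_const.mul (contDiff_id.pow k)

/-- The component `κ` contains the point `p`. -/
def InC {F : MvPolynomial (Fin 3) ℝ} (κ : ConnectedComponents (realPart F)) (p : RP2) : Prop :=
  ∃ h : p ∈ realPart F, κ = ((⟨p, h⟩ : realPart F) : ConnectedComponents (realPart F))

theorem InC.unique {F : MvPolynomial (Fin 3) ℝ} {κ κ' : ConnectedComponents (realPart F)}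
    {p : RP2} (h : InC κ p) (h' : InC κ' p) : κ = κ' := by
  obtain ⟨_, rfl⟩ := h
  obtain ⟨_, rfl⟩ := h'
  rfl

theorem InC.curve {F : MvPolynomial (Fin 3) ℝ} {κ : ConnectedComponents (realPart F)}
    {I : Set ℝ} (hI : IsPreconnected I) {c : ℝ → ℝ × ℝ} (hc : ContinuousOn c I)
    (h0 : ∀ x ∈ I, psi (c x).1 (c x).2 ∈ realPart F) {x y : ℝ} (hx : x ∈ I) (hy : y ∈ I)
    (h : InC κ (psi (c x).1 (c x).2)) : InC κ (psi (c y).1 (c y).2) := by
  refine ⟨h0 y hy, ?_⟩
  rw [h.2, ConnectedComponents.coe_eq_coe']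
  set f : I → realPart F := fun z => ⟨psi (c z).1 (c z).2, h0 z z.2⟩ with hf
  have hfc : Continuous f :=
    (continuous_psi.comp (continuousOn_iff_continuous_domRestrict.1 hc)).subtype_mk _
  have : PreconnectedSpace I := isPreconnected_iff_preconnectedSpace.1 hI
  have hr : IsPreconnected (Set.range f) := isPreconnected_range hfc
  exact hr.subset_connectedComponent (Set.mem_range_self (⟨y, hy⟩ : I))
    (Set.mem_range_self (⟨x, hx⟩ : I))

/-- The hypotheses: `F` is a real form of even degree `d`, without real singular points, invariant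
under the rotation by `2 π / n`, where `d < 2 n`, and `(0 : 0 : 1)` is not on the curve. -/
structure Setup (F : MvPolynomial (Fin 3) ℝ) (d n : ℕ) : Prop where
  hF : F.IsHomogeneous d
  hd : Even d
  hn : 3 ≤ n
  hdn : d < 2 * n
  hinv : ∀ s t : ℝ, hh F s (t + 2 * Real.pi / n) = hh F s t
  hns : ∀ v : Fin 3 → ℝ, v ≠ 0 → eval v F = 0 → ∃ i, eval v (pderiv i F) ≠ 0
  h0 : eval ![0, 0, 1] F ≠ 0

variable {F : MvPolynomial (Fin 3) ℝ} {d n : ℕ}

/-- The derivative in the angle. -/
def dt (F : MvPolynomial (Fin 3) ℝ) (n : ℕ) (s t : ℝ) : ℝ :=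
  n * ((NN F n).eval s * Real.cos (n * t) - (PP F n).eval s * Real.sin (n * t))

/-- The derivative in the third coordinate. -/
def ds (F : MvPolynomial (Fin 3) ℝ) (s t : ℝ) : ℝ :=
  eval ![Real.cos t, Real.sin t, s] (pderiv 2 F)

theorem Setup.hh_eq (S : Setup F d n) (s t : ℝ) :
    hh F s t = (AA F n).eval s + (PP F n).eval s * Real.cos (n * t) +
      (NN F n).eval s * Real.sin (n * t) :=
  MC.hh_eq S.hF (by have := S.hn; omega) S.hdn S.hinv s t

theorem Setup.contDiff (S : Setup F d n) : ContDiff ℝ 1 fun x : ℝ × ℝ => hh F x.1 x.2 := by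
  have : (fun x : ℝ × ℝ => hh F x.1 x.2) = fun x : ℝ × ℝ => (AA F n).eval x.1 +
      (PP F n).eval x.1 * Real.cos (n * x.2) + (NN F n).eval x.1 * Real.sin (n * x.2) := by
    funext x
    exact S.hh_eq x.1 x.2
  rw [this]
  have hp : ∀ p : Polynomial ℝ, ContDiff ℝ 1 fun x : ℝ × ℝ => p.eval x.1 := fun p =>
    (contDiff_poly p).comp contDiff_fst
  have hc : ContDiff ℝ 1 fun x : ℝ × ℝ => Real.cos (n * x.2) :=
    Real.contDiff_cos.comp (contDiff_const.mul contDiff_snd)
  have hs : ContDiff ℝ 1 fun x : ℝ × ℝ => Real.sin (n * x.2) :=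
    Real.contDiff_sin.comp (contDiff_const.mul contDiff_snd)
  exact ((hp _).add ((hp _).mul hc)).add ((hp _).mul hs)

theorem Setup.hasDerivAt_t (S : Setup F d n) (s t : ℝ) :
    HasDerivAt (fun y => hh F s y) (dt F n s t) t := by
  have : (fun y => hh F s y) = fun y => (AA F n).eval s +
      (PP F n).eval s * Real.cos (n * y) + (NN F n).eval s * Real.sin (n * y) := by
    funext y
    exact S.hh_eq s y
  rw [this, dt]
  have h1 : HasDerivAt (fun y : ℝ => (n : ℝ) * y) n t := by
    simpa using (hasDerivAt_id t).const_mul (n : ℝ)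
  have h2 := ((Real.hasDerivAt_cos (n * t)).comp t h1).const_mul ((PP F n).eval s)
  have h3 := ((Real.hasDerivAt_sin (n * t)).comp t h1).const_mul ((NN F n).eval s)
  have h4 := ((hasDerivAt_const t ((AA F n).eval s)).add h2).add h3
  have e : (n : ℝ) * ((NN F n).eval s * Real.cos (n * t) - (PP F n).eval s * Real.sin (n * t)) =
      0 + (PP F n).eval s * (-Real.sin (n * t) * n) +
        (NN F n).eval s * (Real.cos (n * t) * n) := by ring
  rw [e]
  exact h4

theorem hasDerivAt_t' (F : MvPolynomial (Fin 3) ℝ) (s t : ℝ) :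
    HasDerivAt (fun y => hh F s y)
      (eval ![Real.cos t, Real.sin t, s] (pderiv 0 F) * (-Real.sin t) +
        eval ![Real.cos t, Real.sin t, s] (pderiv 1 F) * Real.cos t) t := by
  have h := hasDerivAt_eval F (fun y => ![Real.cos y, Real.sin y, s])
    ![-Real.sin t, Real.cos t, 0] t (by
      intro i
      fin_cases i
      · simpa using Real.hasDerivAt_cos t
      · simpa using Real.hasDerivAt_sin t
      · simpa using hasDerivAt_const t s)
  simpa [Fin.sum_univ_three, hh] using h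

theorem hasDerivAt_s (F : MvPolynomial (Fin 3) ℝ) (s t : ℝ) :
    HasDerivAt (fun y => hh F y t) (ds F s t) s := by
  have h := hasDerivAt_eval F (fun y => ![Real.cos t, Real.sin t, y])
    ![0, 0, 1] s (by
      intro i
      fin_cases i
      · simpa using hasDerivAt_const s (Real.cos t)
      · simpa using hasDerivAt_const s (Real.sin t)
      · simpa using hasDerivAt_id' s)
  simpa [Fin.sum_univ_three, ds, hh] using h

theorem vec_ne (s t : ℝ) : ![Real.cos t, Real.sin t, s] ≠ 0 := by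
  intro h
  have h0 := congrFun h 0
  have h1 := congrFun h 1
  simp at h0 h1
  have := Real.cos_sq_add_sin_sq t
  rw [h0, h1] at this
  norm_num at this

/-- No singular points. -/
theorem Setup.ds_ne (S : Setup F d n) {s t : ℝ} (h : hh F s t = 0) (h' : dt F n s t = 0) :
    ds F s t ≠ 0 := by
  intro h2
  obtain ⟨i, hi⟩ := S.hns _ (vec_ne s t) h
  have e1 := (hasDerivAt_t' F s t).unique (S.hasDerivAt_t s t)
  rw [h'] at e1
  have e2 := congrArg (eval ![Real.cos t, Real.sin t, s]) (S.hF.sum_X_mul_pderiv)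
  simp only [Fin.sum_univ_three, map_nsmul, map_add, map_mul, eval_X] at e2
  rw [show eval ![Real.cos t, Real.sin t, s] F = 0 from h] at e2
  simp only [smul_zero, Matrix.cons_val_zero, Matrix.cons_val_one, Matrix.cons_val] at e2
  rw [show eval ![Real.cos t, Real.sin t, s] (pderiv 2 F) = 0 from h2] at e2
  have e3 := Real.cos_sq_add_sin_sq t
  set X := eval ![Real.cos t, Real.sin t, s] (pderiv 0 F) with hX
  set Y := eval ![Real.cos t, Real.sin t, s] (pderiv 1 F) with hY
  have hX0 : X = 0 := by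
    have : X * (Real.cos t ^ 2 + Real.sin t ^ 2) = 0 := by
      linear_combination Real.cos t * e2 - Real.sin t * e1
    rwa [e3, mul_one] at this
  have hY0 : Y = 0 := by
    have : Y * (Real.cos t ^ 2 + Real.sin t ^ 2) = 0 := by
      linear_combination Real.sin t * e2 + Real.cos t * e1
    rwa [e3, mul_one] at this
  fin_cases i
  · exact hi hX0
  · exact hi hY0
  · exact hi h2

/-- If the angular derivative is not zero, the component contains points on both sides. -/
theorem Setup.move_s (S : Setup F d n) {κ : ConnectedComponents (realPart F)} {s t : ℝ}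
    (h : InC κ (psi s t)) (hdt : dt F n s t ≠ 0) :
    ∃ δ : ℝ, 0 < δ ∧ ∀ s' ∈ Set.Ioo (s - δ) (s + δ), ∃ t', InC κ (psi s' t') := by
  have h0 : hh F s t = 0 := (psi_mem S.hF s t).1 h.1
  obtain ⟨g, δ, hδ, hg, hgs, hz⟩ := exists_implicit S.contDiff (a := s) (b := t) h0
    (S.hasDerivAt_t s t) hdt
  refine ⟨δ, hδ, fun s' hs' => ⟨g s', ?_⟩⟩
  have hc : ContinuousOn (fun x : ℝ => (x, g x)) (Set.Ioo (s - δ) (s + δ)) :=
    continuousOn_id.prodMk hg
  have hm : ∀ x ∈ Set.Ioo (s - δ) (s + δ), psi x (g x) ∈ realPart F :=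
    fun x hx => (psi_mem S.hF _ _).2 (hz x hx)
  have hs : s ∈ Set.Ioo (s - δ) (s + δ) := ⟨by linarith, by linarith⟩
  have h' : InC κ (psi s (g s)) := by rw [hgs]; exact h
  exact InC.curve isPreconnected_Ioo hc hm hs hs' h'

/-- If the derivative in `s` is not zero, the component contains a graph over the angle. -/
theorem Setup.move_t (S : Setup F d n) {κ : ConnectedComponents (realPart F)} {s t : ℝ}
    (h : InC κ (psi s t)) (hds : ds F s t ≠ 0) :
    ∃ (g : ℝ → ℝ) (δ : ℝ), 0 < δ ∧ ContinuousOn g (Set.Ioo (t - δ) (t + δ)) ∧ g t = s ∧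
      ∀ t' ∈ Set.Ioo (t - δ) (t + δ), InC κ (psi (g t') t') := by
  have h0 : hh F s t = 0 := (psi_mem S.hF s t).1 h.1
  have hcd : ContDiff ℝ 1 fun x : ℝ × ℝ => hh F x.2 x.1 := contDiff_swap S.contDiff
  obtain ⟨g, δ, hδ, hg, hgs, hz⟩ := exists_implicit' hcd h0 (hasDerivAt_s F s t) hds
  refine ⟨g, δ, hδ, hg, hgs, fun t' ht' => ?_⟩
  have hc : ContinuousOn (fun x : ℝ => (g x, x)) (Set.Ioo (t - δ) (t + δ)) :=
    hg.prodMk continuousOn_id
  have hm : ∀ x ∈ Set.Ioo (t - δ) (t + δ), psi (g x) x ∈ realPart F :=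
    fun x hx => (psi_mem S.hF _ _).2 (hz x hx)
  have hs : t ∈ Set.Ioo (t - δ) (t + δ) := ⟨by linarith, by linarith⟩
  have h' : InC κ (psi (g t) t) := by rw [hgs]; exact h
  exact InC.curve isPreconnected_Ioo hc hm hs ht' h'

end

end Pool.Agent.H83.MC
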