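import Pool.Agent.H83.MC.Lin

/-!
# Normal form of a linear map of finite projective order
-/

namespace Pool.Agent.H83.MC

noncomputable section

open Matrix

/-- The map given by a complex vector and a real vector. -/
def Bf (w : Fin 3 → ℂ) (e : Fin 3 → ℝ) : (Fin 3 → ℝ) →ₗ[ℝ] (Fin 3 → ℝ) where
  toFun v i := (((v 0 : ℂ) + v 1 * Complex.I) * w i).re + v 2 * e i
  map_add' v v' := by
    ext i
    simp
    ring
  map_smul' c v := by
    ext i
    simp
    ring

theorem Bf_apply (w : Fin 3 → ℂ) (e v : Fin 3 → ℝ) (i : Fin 3) :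
    Bf w e v i = (((v 0 : ℂ) + v 1 * Complex.I) * w i).re + v 2 * e i := rfl

theorem mulVec_Bf {K : Matrix (Fin 3) (Fin 3) ℝ} {w : Fin 3 → ℂ} {e : Fin 3 → ℝ} {ζ : ℂ}
    (hw : (cx K).mulVec w = ζ • w) (he : K.mulVec e = e) {v v' : Fin 3 → ℝ}
    (h : (v' 0 : ℂ) + v' 1 * Complex.I = ((v 0 : ℂ) + v 1 * Complex.I) * ζ) (h2 : v' 2 = v 2) :
    K.mulVec (Bf w e v) = Bf w e v' := by
  ext i
  rw [Bf_apply, h, h2]
  have h3 := congrFun he i
  have h4 := congrFun hw i
  simp only [Matrix.mulVec, dotProduct, cx, RingHom.mapMatrix_apply, Matrix.map_apply,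
    Complex.ofRealHom_eq_coe, Pi.smul_apply, smul_eq_mul] at h3 h4
  simp only [Matrix.mulVec, dotProduct, Bf_apply]
  have e1 : ∑ j, K i j * ((((v 0 : ℂ) + v 1 * Complex.I) * w j).re + v 2 * e j) =
      (((v 0 : ℂ) + v 1 * Complex.I) * ∑ j, (K i j : ℂ) * w j).re + v 2 * ∑ j, K i j * e j := by
    rw [Finset.mul_sum, Complex.re_sum, Finset.mul_sum, ← Finset.sum_add_distrib]
    refine Finset.sum_congr rfl fun j _ => ?_
    have : ((v 0 : ℂ) + v 1 * Complex.I) * ((K i j : ℂ) * w j) =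
        (K i j : ℂ) * (((v 0 : ℂ) + v 1 * Complex.I) * w j) := by ring
    rw [this, Complex.re_ofReal_mul]
    ring
  rw [e1, h3, h4]
  ring_nf

theorem norm_one {z : ℂ} {n : ℕ} (hn : 0 < n) (hz : z ^ n = 1) : z.re ^ 2 + z.im ^ 2 = 1 := by
  have h : ‖z‖ = 1 := Complex.norm_eq_one_of_pow_eq_one hz hn.ne'
  have h2 := Complex.sq_norm z
  rw [h, Complex.normSq_apply] at h2
  linarith

theorem Bf_injective {K : Matrix (Fin 3) (Fin 3) ℝ} {w : Fin 3 → ℂ} {e : Fin 3 → ℝ} {z : ℂ}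
    (hw : (cx K).mulVec w = z • w) (he : K.mulVec e = e) (hw0 : w ≠ 0) (he0 : e ≠ 0)
    (hz : z.im ≠ 0) (hz1 : z.re ^ 2 + z.im ^ 2 = 1) : Function.Injective (Bf w e) := by
  rw [injective_iff_map_eq_zero]
  intro v hv
  set α : ℂ := (v 0 : ℂ) + v 1 * Complex.I with hα
  set v' : Fin 3 → ℝ := ![(α * z).re, (α * z).im, v 2] with hv'
  set v'' : Fin 3 → ℝ := ![(α * z * z).re, (α * z * z).im, v 2] with hv''
  have e1 : (v' 0 : ℂ) + v' 1 * Complex.I = ((v 0 : ℂ) + v 1 * Complex.I) * z := by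
    rw [← hα]
    simp only [hv', Matrix.cons_val_zero, Matrix.cons_val_one]
    exact Complex.re_add_im _
  have e2 : (v'' 0 : ℂ) + v'' 1 * Complex.I = ((v' 0 : ℂ) + v' 1 * Complex.I) * z := by
    rw [e1, ← hα]
    simp only [hv'', Matrix.cons_val_zero, Matrix.cons_val_one]
    exact Complex.re_add_im _
  have h1 := mulVec_Bf hw he e1 (by simp [hv'])
  have h2 := mulVec_Bf hw he e2 (by simp [hv', hv''])
  rw [hv, Matrix.mulVec_zero] at h1
  rw [← h1, Matrix.mulVec_zero] at h2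
  have a0 : ∀ i, (α * w i).re + v 2 * e i = 0 := fun i => by
    have := congrFun hv i
    rwa [Bf_apply] at this
  have a1 : ∀ i, (α * z * w i).re + v 2 * e i = 0 := fun i => by
    have := congrFun h1 i
    rw [Bf_apply, e1, ← hα] at this
    simpa [hv'] using this.symm
  have a2 : ∀ i, (α * z * z * w i).re + v 2 * e i = 0 := fun i => by
    have := congrFun h2 i
    rw [Bf_apply, e2, e1, ← hα] at this
    simpa [hv''] using this.symm
  have hzz : z * z = 2 * z.re * z - 1 := by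
    apply Complex.ext
    · simp
      nlinarith
    · simp
      ring
  have a3 : ∀ i, v 2 * e i * (2 - 2 * z.re) = 0 := by
    intro i
    have : (α * z * z * w i).re = 2 * z.re * (α * z * w i).re - (α * w i).re := by
      rw [show α * z * z * w i = α * w i * (z * z) by ring, hzz,
        show α * w i * (2 * z.re * z - 1) = ((2 * z.re : ℝ) : ℂ) * (α * z * w i) - α * w i by
          push_cast; ring, Complex.sub_re, Complex.re_ofReal_mul]
    have b0 := a0 i
    have b1 := a1 i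
    have b2 := a2 i
    rw [this] at b2
    linear_combination -(2 * z.re) * b1 + b0 + b2
  have hre : 2 - 2 * z.re ≠ 0 := by
    intro h
    have h3 : z.re = 1 := by linarith
    rw [h3] at hz1
    have : z.im ^ 2 = 0 := by linarith
    exact hz (pow_eq_zero_iff (by norm_num) |>.1 this)
  have hv2 : v 2 = 0 := by
    obtain ⟨i, hi⟩ := Function.ne_iff.1 he0
    have h3 := (mul_eq_zero.1 (a3 i)).resolve_right hre
    exact (mul_eq_zero.1 h3).resolve_right hi
  have hαw : ∀ i, α * w i = 0 := by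
    intro i
    have b0 := a0 i
    have b1 := a1 i
    rw [hv2, zero_mul, add_zero] at b0 b1
    rw [show α * z * w i = α * w i * z by ring, Complex.mul_re, b0, zero_mul, zero_sub,
      neg_eq_zero] at b1
    have b2 := (mul_eq_zero.1 b1).resolve_right hz
    exact Complex.ext b0 b2
  have hα0 : α = 0 := by
    obtain ⟨i, hi⟩ := Function.ne_iff.1 hw0
    exact (mul_eq_zero.1 (hαw i)).resolve_right hi
  have h0 : v 0 = 0 := by
    have := congrArg Complex.re hα0
    simpa [hα] using this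
  have h1 : v 1 = 0 := by
    have := congrArg Complex.im hα0
    simpa [hα] using this
  ext i
  fin_cases i
  · exact h0
  · exact h1
  · exact hv2

theorem cx_pow_mulVec {K : Matrix (Fin 3) (Fin 3) ℝ} {w : Fin 3 → ℂ} {z : ℂ}
    (hw : (cx K).mulVec w = z • w) (k : ℕ) : (cx (K ^ k)).mulVec w = z ^ k • w := by
  induction k with
  | zero => simp [cx]
  | succ k ih =>
    have : cx (K ^ (k + 1)) = cx (K ^ k) * cx K := by rw [cx, cx, cx, pow_succ, map_mul]
    rw [this, ← Matrix.mulVec_mulVec, hw, Matrix.mulVec_smul, ih, smul_smul, pow_succ, mul_comm]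

theorem pow_mulVec {K : Matrix (Fin 3) (Fin 3) ℝ} {e : Fin 3 → ℝ} (he : K.mulVec e = e) (k : ℕ) :
    (K ^ k).mulVec e = e := by
  induction k with
  | zero => simp
  | succ k ih => rw [pow_succ, ← Matrix.mulVec_mulVec, he, ih]

/-- A matrix of projective order `n ≥ 3` has a power which, up to a factor, is conjugate to the
rotation by `2 π / n`. -/
theorem exists_normal (M : Matrix (Fin 3) (Fin 3) ℝ) {n : ℕ} (hn : 3 ≤ n)
    (hord : ∀ k : ℕ, (∃ a : ℝ, M ^ k = a • (1 : Matrix (Fin 3) (Fin 3) ℝ)) ↔ n ∣ k) :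
    ∃ (B : (Fin 3 → ℝ) ≃ₗ[ℝ] (Fin 3 → ℝ)) (m : ℕ) (a : ℝ), a ≠ 0 ∧
      ∀ v, (M ^ m).mulVec (B v) = a • B (rotF (2 * Real.pi / n) v) := by
  obtain ⟨μ, e, he0, he⟩ := exists_real_eigen M
  obtain ⟨a, ha⟩ := (hord n).2 dvd_rfl
  have ha0 : a ≠ 0 := by
    rintro rfl
    have : n ∣ n + 1 := (hord (n + 1)).1 ⟨0, by rw [pow_succ, ha]; simp⟩
    have := (Nat.dvd_add_right (dvd_refl n)).1 this
    have := Nat.le_of_dvd one_pos this
    omega
  have hpow : ∀ k : ℕ, (M ^ k).mulVec e = μ ^ k • e := by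
    intro k
    induction k with
    | zero => simp
    | succ k ih =>
      rw [pow_succ, ← Matrix.mulVec_mulVec, he, Matrix.mulVec_smul, ih, smul_smul, pow_succ,
        mul_comm]
  have hμn : μ ^ n = a := by
    have h1 := hpow n
    rw [ha, Matrix.smul_mulVec, Matrix.one_mulVec] at h1
    obtain ⟨i, hi⟩ := Function.ne_iff.1 he0
    have h2 := congrFun h1 i
    simp only [Pi.smul_apply, smul_eq_mul] at h2
    exact (mul_right_cancel₀ hi h2).symm
  have hμ : μ ≠ 0 := by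
    rintro rfl
    rw [zero_pow (by omega)] at hμn
    exact ha0 hμn.symm
  set H : Matrix (Fin 3) (Fin 3) ℝ := μ⁻¹ • M with hH
  have hHk : ∀ k : ℕ, H ^ k = (μ⁻¹) ^ k • M ^ k := fun k => smul_pow _ _ _
  have hMk : ∀ k : ℕ, M ^ k = μ ^ k • H ^ k := fun k => by
    rw [hHk, smul_smul, ← mul_pow, mul_inv_cancel₀ hμ, one_pow, one_smul]
  have hHn : H ^ n = 1 := by
    rw [hHk, ha, ← hμn, smul_smul, ← mul_pow, inv_mul_cancel₀ hμ, one_pow, one_smul]
  have hHe : H.mulVec e = e := by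
    rw [hH, Matrix.smul_mulVec, he, smul_smul, inv_mul_cancel₀ hμ, one_smul]
  have hone : ∀ k : ℕ, H ^ k = 1 → n ∣ k := fun k hk =>
    (hord k).1 ⟨μ ^ k, by rw [hMk, hk]⟩
  have hH2 : H ^ 2 ≠ 1 := by
    intro h
    have := Nat.le_of_dvd (by norm_num) (hone 2 h)
    omega
  obtain ⟨z, hz, w, hw0, hw⟩ := exists_cx_eigen (by omega) hHn hH2
  have hzn : z ^ n = 1 := by
    have h1 := cx_pow_mulVec hw n
    rw [hHn] at h1
    obtain ⟨i, hi⟩ := Function.ne_iff.1 hw0
    have h2 := congrFun h1 i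
    simp only [cx, map_one, Matrix.one_mulVec, Pi.smul_apply, smul_eq_mul] at h2
    have h3 : z ^ n * w i = 1 * w i := by rw [← h2, one_mul]
    exact mul_right_cancel₀ hi h3
  have hz1 := norm_one (by omega) hzn
  have hinj := Bf_injective hw hHe hw0 he0 hz hz1
  set B : (Fin 3 → ℝ) ≃ₗ[ℝ] (Fin 3 → ℝ) := LinearEquiv.ofInjectiveEndo (Bf w e) hinj with hB
  have hBv : ∀ v, B v = Bf w e v := fun v => rfl
  have hprim : IsPrimitiveRoot z n := by
    refine ⟨hzn, fun k hk => hone k ?_⟩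
    have h1 : ∀ v, (H ^ k).mulVec (Bf w e v) = Bf w e v := fun v =>
      mulVec_Bf (cx_pow_mulVec hw k) (pow_mulVec hHe k) (by rw [hk, mul_one]) rfl
    have h2 : ∀ x, (H ^ k).mulVec x = x := by
      intro x
      obtain ⟨v, rfl⟩ := B.surjective x
      exact h1 v
    ext i j
    have h3 := congrFun (h2 (Pi.single j 1)) i
    rw [Matrix.mulVec_single_one] at h3
    simp only [Matrix.col_apply] at h3
    rw [h3, Matrix.one_apply]
    simp [Pi.single_apply]
  have hexp : Complex.exp (2 * Real.pi * Complex.I / n) ^ n = 1 :=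
    (Complex.isPrimitiveRoot_exp n (by omega)).pow_eq_one
  have : NeZero n := ⟨by omega⟩
  obtain ⟨m, _, hm⟩ := hprim.eq_pow_of_pow_eq_one hexp
  refine ⟨B, m, μ ^ m, pow_ne_zero _ hμ, fun v => ?_⟩
  rw [hMk, Matrix.smul_mulVec]
  congr 1
  refine mulVec_Bf (cx_pow_mulVec hw m) (pow_mulVec hHe m) ?_ rfl
  rw [hm, show (2 : ℂ) * Real.pi * Complex.I / n = ((2 * Real.pi / n : ℝ) : ℂ) * Complex.I by
    push_cast; ring, Complex.exp_mul_I, ← Complex.ofReal_cos, ← Complex.ofReal_sin]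
  apply Complex.ext
  · simp [rotF]
    ring
  · simp [rotF]
    ring

end

end Pool.Agent.H83.MC
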