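import Pool.Agent.H83.MC.Norm

/-!
# Reduction to a rotation
-/

namespace Pool.Agent.H83.MC

noncomputable section

open MvPolynomial

/-- The form `F ∘ B`. -/
def pull (F : MvPolynomial (Fin 3) ℝ) (B : (Fin 3 → ℝ) ≃ₗ[ℝ] (Fin 3 → ℝ)) :
    MvPolynomial (Fin 3) ℝ :=
  aeval (fun i => ∑ j, C (B (Pi.single j 1) i) * X j) F

theorem lin_apply (B : (Fin 3 → ℝ) ≃ₗ[ℝ] (Fin 3 → ℝ)) (v : Fin 3 → ℝ) (i : Fin 3) :
    B v i = ∑ j, B (Pi.single j 1) i * v j := by
  have e : v = ∑ j, v j • (Pi.single j 1 : Fin 3 → ℝ) := by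
    ext k
    simp [Finset.sum_apply, Pi.single_apply]
  conv_lhs => rw [e]
  rw [map_sum, Finset.sum_apply]
  refine Finset.sum_congr rfl fun j _ => ?_
  rw [map_smul, Pi.smul_apply, smul_eq_mul, mul_comm]

theorem eval_pull (F : MvPolynomial (Fin 3) ℝ) (B : (Fin 3 → ℝ) ≃ₗ[ℝ] (Fin 3 → ℝ))
    (v : Fin 3 → ℝ) : eval v (pull F B) = eval (B v) F := by
  have h : (eval v).comp (aeval (fun i => ∑ j, C (B (Pi.single j 1) i) * X j) :
      MvPolynomial (Fin 3) ℝ →ₐ[ℝ] MvPolynomial (Fin 3) ℝ).toRingHom = eval (B v) := by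
    apply MvPolynomial.ringHom_ext
    · intro r
      simp
    · intro i
      simp [lin_apply B v i]
  exact congrArg (fun φ => φ F) h

theorem pull_homog {F : MvPolynomial (Fin 3) ℝ} {d : ℕ} (hF : F.IsHomogeneous d)
    (B : (Fin 3 → ℝ) ≃ₗ[ℝ] (Fin 3 → ℝ)) : (pull F B).IsHomogeneous d := by
  have h : ∀ i : Fin 3, (∑ j, C (B (Pi.single j 1) i) * X j :
      MvPolynomial (Fin 3) ℝ).IsHomogeneous 1 := fun i =>
    IsHomogeneous.sum _ _ _ fun j _ => isHomogeneous_C_mul_X _ _
  have := hF.aeval (fun i => (∑ j, C (B (Pi.single j 1) i) * X j : MvPolynomial (Fin 3) ℝ)) h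
  rwa [one_mul] at this

/-- The derivative along a line. -/
theorem deriv_line (F : MvPolynomial (Fin 3) ℝ) (v u : Fin 3 → ℝ) :
    HasDerivAt (fun y : ℝ => eval (v + y • u) F) (∑ i, eval v (pderiv i F) * u i) 0 := by
  have h := hasDerivAt_eval F (fun y => v + y • u) u 0 (by
    intro i
    simp only [Pi.add_apply, Pi.smul_apply, smul_eq_mul]
    simpa using ((hasDerivAt_id' (0 : ℝ)).mul_const (u i)).const_add (v i))
  simpa using h

theorem pull_ns {F : MvPolynomial (Fin 3) ℝ}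
    (hns : ∀ v : Fin 3 → ℝ, v ≠ 0 → eval v F = 0 → ∃ i, eval v (pderiv i F) ≠ 0)
    (B : (Fin 3 → ℝ) ≃ₗ[ℝ] (Fin 3 → ℝ)) (v : Fin 3 → ℝ) (hv : v ≠ 0)
    (h : eval v (pull F B) = 0) : ∃ i, eval v (pderiv i (pull F B)) ≠ 0 := by
  by_contra hcon
  push Not at hcon
  rw [eval_pull] at h
  obtain ⟨i, hi⟩ := hns (B v) (fun h0 => hv (B.map_eq_zero_iff.1 h0)) h
  apply hi
  set u := B.symm (Pi.single i 1) with hu
  have h1 := deriv_line (pull F B) v u
  have h2 := deriv_line F (B v) (B u)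
  have h3 : (fun y : ℝ => eval (v + y • u) (pull F B)) =
      fun y : ℝ => eval (B v + y • B u) F := by
    funext y
    rw [eval_pull, map_add, map_smul]
  rw [h3] at h1
  have h4 := h1.unique h2
  simp only [hcon, zero_mul, Finset.sum_const_zero, hu, LinearEquiv.apply_symm_apply] at h4
  simpa [Pi.single_apply] using h4.symm

/-- A form which is semi-invariant under the rotation does not vanish at `(0 : 0 : 1)`. -/
theorem ne_center {F : MvPolynomial (Fin 3) ℝ} {d n : ℕ} (hF : F.IsHomogeneous d)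
    (hns : ∀ v : Fin 3 → ℝ, v ≠ 0 → eval v F = 0 → ∃ i, eval v (pderiv i F) ≠ 0)
    (hn : 3 ≤ n) {c : ℝ} (hinv : ∀ v, eval (rotF (2 * Real.pi / n) v) F = c * eval v F) :
    eval ![0, 0, 1] F ≠ 0 := by
  intro h0
  have hP : (![0, 0, 1] : Fin 3 → ℝ) ≠ 0 := by
    intro h
    have := congrFun h 2
    simp at this
  obtain ⟨i, hi⟩ := hns _ hP h0
  set θ := 2 * Real.pi / n with hθ
  have hn' : (3 : ℝ) ≤ n := by exact_mod_cast hn
  have hsin : 0 < Real.sin θ := by
    apply Real.sin_pos_of_pos_of_lt_pi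
    · have := Real.pi_pos
      positivity
    · rw [hθ, div_lt_iff₀ (by linarith)]
      nlinarith [Real.pi_pos]
  set Dx := eval ![0, 0, 1] (pderiv 0 F) with hDx
  set Dy := eval ![0, 0, 1] (pderiv 1 F) with hDy
  set Dz := eval ![0, 0, 1] (pderiv 2 F) with hDz
  have hz : Dz = 0 := by
    have e2 := congrArg (eval ![0, 0, 1]) (hF.sum_X_mul_pderiv)
    simp only [Fin.sum_univ_three, map_nsmul, map_add, map_mul, eval_X] at e2
    rw [h0] at e2
    simpa using e2
  have key : ∀ u : Fin 3 → ℝ, ∑ i, eval ![0, 0, 1] (pderiv i F) * rotF θ u i =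
      c * ∑ i, eval ![0, 0, 1] (pderiv i F) * u i := by
    intro u
    have h1 := deriv_line F ![0, 0, 1] (rotF θ u)
    have h2 := (deriv_line F ![0, 0, 1] u).const_mul c
    have h3 : (fun y : ℝ => eval (![0, 0, 1] + y • rotF θ u) F) =
        fun y : ℝ => c * eval (![0, 0, 1] + y • u) F := by
      funext y
      rw [← hinv]
      congr 1
      have : rotF θ (![0, 0, 1] + y • u) = rotF θ ![0, 0, 1] + y • rotF θ u := by
        have h4 := (rotL θ).map_add ![0, 0, 1] (y • u)
        rw [(rotL θ).map_smul] at h4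
        exact h4
      rw [this]
      congr 1
      ext i
      fin_cases i <;> simp [rotF]
    rw [h3] at h1
    exact h1.unique h2
  have k1 := key ![1, 0, 0]
  have k2 := key ![0, 1, 0]
  simp only [Fin.sum_univ_three, rotF, Matrix.cons_val_zero, Matrix.cons_val_one,
    Matrix.cons_val, ← hDx, ← hDy, ← hDz, hz] at k1 k2
  have hx : Dx = 0 := by
    have : Dx * ((Real.cos θ - c) ^ 2 + Real.sin θ ^ 2) = 0 := by
      linear_combination (Real.cos θ - c) * k1 - Real.sin θ * k2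
    rcases mul_eq_zero.1 this with h | h
    · exact h
    · nlinarith [sq_nonneg (Real.cos θ - c), pow_pos hsin 2]
  have hy : Dy = 0 := by
    have : Dy * ((Real.cos θ - c) ^ 2 + Real.sin θ ^ 2) = 0 := by
      linear_combination (Real.cos θ - c) * k2 + Real.sin θ * k1
    rcases mul_eq_zero.1 this with h | h
    · exact h
    · nlinarith [sq_nonneg (Real.cos θ - c), pow_pos hsin 2]
  fin_cases i
  · exact hi hx
  · exact hi hy
  · exact hi hz

theorem matrix_iterate (g : (Fin 3 → ℝ) ≃ₗ[ℝ] (Fin 3 → ℝ)) (k : ℕ) (v : Fin 3 → ℝ) :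
    ((LinearMap.toMatrix' g.toLinearMap) ^ k).mulVec v = g^[k] v := by
  induction k generalizing v with
  | zero => simp
  | succ k ih =>
    rw [pow_succ, ← Matrix.mulVec_mulVec, LinearMap.toMatrix'_mulVec, ih]
    rfl

/-- Reduction to the rotation by `2 π / n`. -/
theorem exists_setup {F : MvPolynomial (Fin 3) ℝ} {d n : ℕ} (hF : F.IsHomogeneous d)
    (hd : Even d) (hns : ∀ v : Fin 3 → ℝ, v ≠ 0 → eval v F = 0 → ∃ i, eval v (pderiv i F) ≠ 0)
    (hn : 3 ≤ n) (hdn : d < 2 * n) (g : (Fin 3 → ℝ) ≃ₗ[ℝ] (Fin 3 → ℝ)) (c : ℝ)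
    (hg : ∀ v, eval (g v) F = c * eval v F)
    (hord : ∀ k : ℕ, (∃ a : ℝ, ∀ v, g^[k] v = a • v) ↔ n ∣ k) :
    ∃ F' : MvPolynomial (Fin 3) ℝ, Setup F' d n ∧ Nonempty (realPart F' ≃ₜ realPart F) := by
  set M := LinearMap.toMatrix' g.toLinearMap with hM
  have hord' : ∀ k : ℕ, (∃ a : ℝ, M ^ k = a • (1 : Matrix (Fin 3) (Fin 3) ℝ)) ↔ n ∣ k := by
    intro k
    rw [← hord k]
    constructor
    · rintro ⟨a, ha⟩
      refine ⟨a, fun v => ?_⟩
      rw [← matrix_iterate, ← hM, ha, Matrix.smul_mulVec, Matrix.one_mulVec]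
    · rintro ⟨a, ha⟩
      refine ⟨a, ?_⟩
      ext i j
      have h1 := matrix_iterate g k (Pi.single j 1)
      rw [ha, ← hM, Matrix.mulVec_single_one] at h1
      have h2 := congrFun h1 i
      simp only [Matrix.col_apply] at h2
      rw [h2, Matrix.smul_apply, Matrix.one_apply]
      simp [Pi.single_apply]
  obtain ⟨B, m, a, ha, hB⟩ := exists_normal M hn hord'
  have hgk : ∀ (k : ℕ) (v : Fin 3 → ℝ), eval (g^[k] v) F = c ^ k * eval v F := by
    intro k
    induction k with
    | zero => simp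
    | succ k ih =>
      intro v
      rw [Function.iterate_succ_apply', hg, ih, pow_succ]
      ring
  have hinv : ∀ v, eval (rotF (2 * Real.pi / n) v) (pull F B) =
      ((a⁻¹) ^ d * c ^ m) * eval v (pull F B) := by
    intro v
    rw [eval_pull, eval_pull]
    have h1 := hB v
    rw [hM, matrix_iterate] at h1
    have h2 : B (rotF (2 * Real.pi / n) v) = a⁻¹ • g^[m] (B v) := by
      rw [h1, smul_smul, inv_mul_cancel₀ ha, one_smul]
    rw [h2, eval_smul' hF, hgk]
    ring
  have hP := ne_center (pull_homog hF B) (pull_ns hns B) hn hinv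
  have hc1 : (a⁻¹) ^ d * c ^ m = 1 := by
    have h1 := hinv ![0, 0, 1]
    have h2 : rotF (2 * Real.pi / n) ![0, 0, 1] = ![0, 0, 1] := by
      ext i
      fin_cases i <;> simp [rotF]
    rw [h2] at h1
    have h3 : 1 * eval ![0, 0, 1] (pull F B) =
        ((a⁻¹) ^ d * c ^ m) * eval ![0, 0, 1] (pull F B) := by rw [one_mul]; exact h1
    exact (mul_right_cancel₀ hP h3).symm
  refine ⟨pull F B, ⟨pull_homog hF B, hd, hn, hdn, ?_, pull_ns hns B, hP⟩,
    ⟨homeoOf B fun v => by rw [eval_pull]⟩⟩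
  intro s t
  have h1 := hinv ![Real.cos t, Real.sin t, s]
  rw [hc1, one_mul, rotF_vec] at h1
  exact h1

/-- Homeomorphic spaces have the same number of components. -/
theorem card_components {α β : Type*} [TopologicalSpace α] [TopologicalSpace β] (f : α ≃ₜ β) :
    Nat.card (ConnectedComponents α) = Nat.card (ConnectedComponents β) := by
  refine Nat.card_congr ⟨f.continuous.connectedComponentsMap,
    f.symm.continuous.connectedComponentsMap, fun κ => ?_, fun κ => ?_⟩
  · obtain ⟨x, rfl⟩ := ConnectedComponents.surjective_coe κ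
    rw [Continuous.connectedComponentsMap_mk, Continuous.connectedComponentsMap_mk,
      Homeomorph.symm_apply_apply]
  · obtain ⟨x, rfl⟩ := ConnectedComponents.surjective_coe κ
    rw [Continuous.connectedComponentsMap_mk, Continuous.connectedComponentsMap_mk,
      Homeomorph.apply_symm_apply]

end

end Pool.Agent.H83.MC
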