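import Pool.Agent.H83.MC.Rot

/-!
# The critical distances
-/

open MvPolynomial

namespace Pool.Agent.H83.MC

noncomputable section

variable {F : MvPolynomial (Fin 3) ℝ} {d n : ℕ}

theorem HP_eq (F : MvPolynomial (Fin 3) ℝ) (t : ℝ) : HP F t =
    ∑ m ∈ F.support, Polynomial.C (coeff m F * (Real.cos t ^ m 0 * Real.sin t ^ m 1)) *
      Polynomial.X ^ m 2 := by
  apply Polynomial.funext
  intro s
  rw [eval_HP, hh, eval_eq_sum, Polynomial.eval_finsetSum]
  refine Finset.sum_congr rfl fun m _ => ?_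
  simp only [Polynomial.eval_mul, Polynomial.eval_C, Polynomial.eval_pow, Polynomial.eval_X]
  ring

theorem natDegree_HP (hF : F.IsHomogeneous d) (t : ℝ) : (HP F t).natDegree ≤ d := by
  rw [HP_eq]
  refine Polynomial.natDegree_sum_le_of_forall_le _ _ fun m hm => ?_
  have h1 := deg_le hF hm
  refine (Polynomial.natDegree_C_mul_X_pow_le _ _).trans ?_
  omega

theorem coeff_HP (hF : F.IsHomogeneous d) (t : ℝ) :
    (HP F t).coeff d = eval ![0, 0, 1] F := by
  rw [HP_eq, Polynomial.finsetSum_coeff, eval_eq_sum]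
  refine Finset.sum_congr rfl fun m hm => ?_
  have h1 := deg_le hF hm
  rw [Polynomial.coeff_C_mul_X_pow]
  split_ifs with h2
  · have e0 : m 0 = 0 := by omega
    have e1 : m 1 = 0 := by omega
    simp [e0, e1]
  · rcases Nat.eq_zero_or_pos (m 0) with e0 | e0
    · have e1 : m 1 ≠ 0 := by omega
      simp [e1]
    · simp [e0.ne']

theorem natDegree_AA (hF : F.IsHomogeneous d) (n : ℕ) : (AA F n).natDegree ≤ d :=
  (Polynomial.natDegree_C_mul_le _ _).trans
    (Polynomial.natDegree_add_le_of_degree_le (natDegree_HP hF _) (natDegree_HP hF _))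

theorem natDegree_PP (hF : F.IsHomogeneous d) (n : ℕ) : (PP F n).natDegree ≤ d :=
  (Polynomial.natDegree_C_mul_le _ _).trans
    ((Polynomial.natDegree_sub_le_of_le (natDegree_HP hF _) (natDegree_HP hF _)).trans
      (max_self d).le)

theorem natDegree_NN (hF : F.IsHomogeneous d) (n : ℕ) : (NN F n).natDegree ≤ d :=
  (Polynomial.natDegree_C_mul_le _ _).trans
    ((Polynomial.natDegree_sub_le_of_le (natDegree_HP hF _) (natDegree_HP hF _)).trans
      (max_self d).le)

theorem coeff_AA (hF : F.IsHomogeneous d) (n : ℕ) :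
    (AA F n).coeff d = eval ![0, 0, 1] F := by
  rw [AA, Polynomial.coeff_C_mul, Polynomial.coeff_add, coeff_HP hF, coeff_HP hF]
  ring

theorem coeff_PP (hF : F.IsHomogeneous d) (n : ℕ) : (PP F n).coeff d = 0 := by
  rw [PP, Polynomial.coeff_C_mul, Polynomial.coeff_sub, coeff_HP hF, coeff_HP hF]
  ring

theorem coeff_NN (hF : F.IsHomogeneous d) (n : ℕ) : (NN F n).coeff d = 0 := by
  rw [NN, Polynomial.coeff_C_mul, Polynomial.coeff_sub, coeff_HP hF, coeff_HP hF]
  ring

theorem natDegree_sq {p : Polynomial ℝ} {d : ℕ} (h : p.natDegree ≤ d) :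
    (p ^ 2).natDegree ≤ 2 * d := (Polynomial.natDegree_pow_le).trans (by omega)

theorem natDegree_DD (hF : F.IsHomogeneous d) (n : ℕ) : (DD F n).natDegree ≤ 2 * d :=
  (Polynomial.natDegree_sub_le_of_le (Polynomial.natDegree_add_le_of_degree_le
    (natDegree_sq (natDegree_PP hF n)) (natDegree_sq (natDegree_NN hF n)))
    (natDegree_sq (natDegree_AA hF n))).trans (max_self _).le

theorem coeff_sq {p : Polynomial ℝ} {d : ℕ} (h : p.natDegree ≤ d) :
    (p ^ 2).coeff (2 * d) = p.coeff d ^ 2 := by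
  rw [pow_two, two_mul, Polynomial.coeff_mul_add_eq_of_natDegree_le h h, pow_two]

theorem coeff_DD (hF : F.IsHomogeneous d) (n : ℕ) :
    (DD F n).coeff (2 * d) = -(eval ![0, 0, 1] F) ^ 2 := by
  rw [DD, Polynomial.coeff_sub, Polynomial.coeff_add, coeff_sq (natDegree_PP hF n),
    coeff_sq (natDegree_NN hF n), coeff_sq (natDegree_AA hF n), coeff_PP hF, coeff_NN hF,
    coeff_AA hF]
  ring

theorem Setup.DD_ne (S : Setup F d n) : DD F n ≠ 0 := by
  intro h
  have h1 := coeff_DD S.hF n
  rw [h, Polynomial.coeff_zero] at h1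
  have := S.h0
  have h2 : (eval ![0, 0, 1] F) ^ 2 = 0 := by linarith
  exact this (pow_eq_zero_iff (by norm_num) |>.1 h2)

/-- The parities of the three polynomials. -/
theorem Setup.parity (S : Setup F d n) (s : ℝ) : (AA F n).eval (-s) = (AA F n).eval s ∧
    (PP F n).eval (-s) = (-1) ^ n * (PP F n).eval s ∧
    (NN F n).eval (-s) = (-1) ^ n * (NN F n).eval s := by
  have hn := S.npos.ne'
  have key : ∀ t, (AA F n).eval (-s) + (PP F n).eval (-s) * Real.cos (n * t) +
      (NN F n).eval (-s) * Real.sin (n * t) = (AA F n).eval s +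
      (PP F n).eval s * Real.cos (n * t + n * Real.pi) +
      (NN F n).eval s * Real.sin (n * t + n * Real.pi) := fun t => by
    rw [← S.hh_eq, S.hh_neg, S.hh_eq, mul_add]
  have hc : ∀ x : ℝ, Real.cos (x + n * Real.pi) = (-1) ^ n * Real.cos x := fun x =>
    Real.cos_add_nat_mul_pi x n
  have hs : ∀ x : ℝ, Real.sin (x + n * Real.pi) = (-1) ^ n * Real.sin x := fun x =>
    Real.sin_add_nat_mul_pi x n
  have k0 := key 0
  have k1 := key (Real.pi / n)
  have k2 := key (Real.pi / (2 * n))
  rw [hc, hs] at k0 k1 k2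
  rw [mul_zero, Real.cos_zero, Real.sin_zero] at k0
  rw [show (n : ℝ) * (Real.pi / n) = Real.pi by field_simp, Real.cos_pi, Real.sin_pi] at k1
  rw [show (n : ℝ) * (Real.pi / (2 * n)) = Real.pi / 2 by field_simp, Real.cos_pi_div_two,
    Real.sin_pi_div_two] at k2
  have hA : (AA F n).eval (-s) = (AA F n).eval s := by linarith
  have hP : (PP F n).eval (-s) = (-1) ^ n * (PP F n).eval s := by linarith
  have hN : (NN F n).eval (-s) = (-1) ^ n * (NN F n).eval s := by linarith
  exact ⟨hA, hP, hN⟩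

/-- The discriminant polynomial is even. -/
theorem Setup.DD_neg (S : Setup F d n) (s : ℝ) : (DD F n).eval (-s) = (DD F n).eval s := by
  obtain ⟨hA, hP, hN⟩ := S.parity s
  have h1 : (((-1 : ℝ)) ^ n) ^ 2 = 1 := by rw [← pow_mul, mul_comm, pow_mul]; simp
  rw [eval_DD, eval_DD, hA, hP, hN, mul_pow, mul_pow, h1]
  ring

/-- The positive roots of the discriminant polynomial. -/
def TT (F : MvPolynomial (Fin 3) ℝ) (n : ℕ) : Finset ℝ :=
  (DD F n).roots.toFinset.filter fun s => 0 < s

theorem Setup.mem_TT (S : Setup F d n) {s : ℝ} : s ∈ TT F n ↔ (DD F n).eval s = 0 ∧ 0 < s := by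
  rw [TT, Finset.mem_filter, Multiset.mem_toFinset, Polynomial.mem_roots S.DD_ne,
    Polynomial.IsRoot.def]

/-- The positive and the negative roots. -/
def RR (F : MvPolynomial (Fin 3) ℝ) (n : ℕ) : Finset ℝ :=
  TT F n ∪ (TT F n).image fun s => -s

theorem disj_TT : Disjoint (TT F n) ((TT F n).image fun s => -s) := by
  rw [Finset.disjoint_left]
  intro s hs hs'
  rw [Finset.mem_image] at hs'
  obtain ⟨r, hr, hrs⟩ := hs'
  have h1 := (Finset.mem_filter.1 hs).2
  have h2 := (Finset.mem_filter.1 hr).2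
  linarith

theorem card_RR : (RR F n).card = 2 * (TT F n).card := by
  rw [RR, Finset.card_union_of_disjoint disj_TT, Finset.card_image_of_injective _ neg_injective]
  ring

theorem Setup.RR_le (S : Setup F d n) : (RR F n).val ≤ (DD F n).roots := by
  rw [Multiset.le_iff_subset (RR F n).nodup]
  intro s hs
  rw [Finset.mem_val, RR, Finset.mem_union, Finset.mem_image] at hs
  rw [Polynomial.mem_roots S.DD_ne, Polynomial.IsRoot.def]
  rcases hs with hs | ⟨r, hr, rfl⟩
  · exact (S.mem_TT.1 hs).1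
  · rw [S.DD_neg]
    exact (S.mem_TT.1 hr).1

theorem Setup.card_TT (S : Setup F d n) : (TT F n).card ≤ d := by
  have h1 := Multiset.card_le_card S.RR_le
  have h2 := Polynomial.card_roots' (DD F n)
  have h3 := natDegree_DD S.hF n
  have h4 := card_RR (F := F) (n := n)
  rw [← Finset.card_def] at h1
  omega

/-- If the discriminant is not negative at zero, there are at most `d - 1` positive roots. -/
theorem Setup.card_TT' (S : Setup F d n) (h : 0 ≤ (DD F n).eval 0) : (TT F n).card ≠ d := by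
  intro hd
  have h1 := Multiset.card_le_card S.RR_le
  have h2 := Polynomial.card_roots' (DD F n)
  have h3 := natDegree_DD S.hF n
  have h4 := card_RR (F := F) (n := n)
  have h5 : (DD F n).roots = (RR F n).val :=
    (Multiset.eq_of_le_of_card_le S.RR_le (by
      change _ ≤ (RR F n).card
      omega)).symm
  have h1' : (RR F n).card ≤ Multiset.card (DD F n).roots := h1
  have h6 : Multiset.card (DD F n).roots = (DD F n).natDegree := by omega
  have h7 : (DD F n).natDegree = 2 * d := by omega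
  have h8 := Polynomial.C_leadingCoeff_mul_prod_multiset_X_sub_C h6
  have h9 := congrArg (Polynomial.eval 0) h8
  have h10 : (DD F n).leadingCoeff = -(eval ![0, 0, 1] F) ^ 2 := by
    rw [Polynomial.leadingCoeff, h7, coeff_DD S.hF]
  rw [h5, Polynomial.eval_mul, Polynomial.eval_C, h10] at h9
  have h11 : (((RR F n).val.map fun a => Polynomial.X - Polynomial.C a).prod).eval 0 =
      ∏ a ∈ RR F n, (0 - a) := by
    change (∏ a ∈ RR F n, (Polynomial.X - Polynomial.C a)).eval 0 = _
    rw [Polynomial.eval_prod]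
    simp
  have h12 : ∏ a ∈ RR F n, (0 - a) = ∏ a ∈ TT F n, a ^ 2 := by
    rw [RR, Finset.prod_union disj_TT, Finset.prod_image (by intro a _ b _ h; exact neg_injective h),
      ← Finset.prod_mul_distrib]
    have : ∀ a ∈ TT F n, (0 - a) * (0 - -a) = -1 * a ^ 2 := fun a _ => by ring
    rw [Finset.prod_congr rfl this, Finset.prod_mul_distrib, Finset.prod_const, hd,
      S.hd.neg_one_pow, one_mul]
  have h13 : 0 < ∏ a ∈ TT F n, a ^ 2 :=
    Finset.prod_pos fun a ha => pow_pos (S.mem_TT.1 ha).2 2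
  rw [h11, h12] at h9
  have h14 : 0 < (eval ![0, 0, 1] F) ^ 2 := by
    have := S.h0
    positivity
  nlinarith [mul_pos h14 h13]

theorem Setup.dd_nonneg (S : Setup F d n) {t : ℝ} (h : hh F 0 t = 0) :
    0 ≤ (DD F n).eval 0 := by
  rw [S.hh_eq] at h
  rw [eval_DD]
  have e := Real.cos_sq_add_sin_sq (n * t)
  have h1 : (AA F n).eval 0 = -((PP F n).eval 0 * Real.cos (n * t) +
      (NN F n).eval 0 * Real.sin (n * t)) := by linarith
  rw [h1]
  nlinarith [sq_nonneg ((PP F n).eval 0 * Real.sin (n * t) - (NN F n).eval 0 * Real.cos (n * t)),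
    e, sq_nonneg ((PP F n).eval 0), sq_nonneg ((NN F n).eval 0)]

end

end Pool.Agent.H83.MC
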