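import Pool.Agent.H83.MC.Comp

/-!
# The action of the rotation on the components
-/

open MvPolynomial

namespace Pool.Agent.H83.MC

noncomputable section

/-- The rotation by the angle `θ` about the third axis, as a function. -/
def rotF (θ : ℝ) (v : Fin 3 → ℝ) : Fin 3 → ℝ :=
  ![Real.cos θ * v 0 - Real.sin θ * v 1, Real.sin θ * v 0 + Real.cos θ * v 1, v 2]

theorem rotF_rotF (θ θ' : ℝ) (v : Fin 3 → ℝ) : rotF θ (rotF θ' v) = rotF (θ + θ') v := by
  ext i
  fin_cases i
  · simp [rotF, Real.cos_add, Real.sin_add]; ring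
  · simp [rotF, Real.cos_add, Real.sin_add]; ring
  · simp [rotF]

theorem rotF_zero (v : Fin 3 → ℝ) : rotF 0 v = v := by
  ext i
  fin_cases i <;> simp [rotF]

/-- The rotation by the angle `θ` about the third axis. -/
def rotL (θ : ℝ) : (Fin 3 → ℝ) ≃ₗ[ℝ] (Fin 3 → ℝ) where
  toFun := rotF θ
  invFun := rotF (-θ)
  map_add' v w := by
    ext i
    fin_cases i
    · simp [rotF]; ring
    · simp [rotF]; ring
    · simp [rotF]
  map_smul' c v := by
    ext i
    fin_cases i
    · simp [rotF]; ring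
    · simp [rotF]; ring
    · simp [rotF]
  left_inv v := by rw [rotF_rotF, neg_add_cancel, rotF_zero]
  right_inv v := by rw [rotF_rotF, add_neg_cancel, rotF_zero]

theorem rotL_apply (θ : ℝ) (v : Fin 3 → ℝ) : rotL θ v = rotF θ v := rfl

theorem rotF_vec (θ s t : ℝ) : rotF θ ![Real.cos t, Real.sin t, s] =
    ![Real.cos (t + θ), Real.sin (t + θ), s] := by
  ext i
  fin_cases i
  · simp [rotF, Real.cos_add]; ring
  · simp [rotF, Real.sin_add]; ring
  · simp [rotF]

theorem gmap_rot (θ s t : ℝ) : gmap (rotL θ) (psi s t) = psi s (t + θ) := by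
  refine mkP_eq.2 ⟨1, ?_⟩
  rw [one_smul]
  exact (rotF_vec θ s t).symm

/-- Polar coordinates. -/
theorem exists_polar (v : Fin 3 → ℝ) :
    ∃ r t : ℝ, v 0 = r * Real.cos t ∧ v 1 = r * Real.sin t := by
  set z : ℂ := ⟨v 0, v 1⟩ with hz
  exact ⟨‖z‖, Complex.arg z, (Complex.norm_mul_cos_arg z).symm,
    (Complex.norm_mul_sin_arg z).symm⟩

theorem eval_rot {F : MvPolynomial (Fin 3) ℝ} {d : ℕ} (hF : F.IsHomogeneous d) {θ : ℝ}
    (hinv : ∀ s t : ℝ, hh F s (t + θ) = hh F s t) (v : Fin 3 → ℝ) :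
    eval (rotF θ v) F = eval v F := by
  obtain ⟨r, t, h0, h1⟩ := exists_polar v
  by_cases hr : r = 0
  · have : rotF θ v = v := by
      ext i
      fin_cases i <;> simp [rotF, h0, h1, hr]
    rw [this]
  · have e : v = r • ![Real.cos t, Real.sin t, v 2 / r] := by
      ext i
      fin_cases i
      · simpa using h0
      · simpa using h1
      · simp [mul_div_cancel₀ _ hr]
    have e2 : rotF θ v = r • ![Real.cos (t + θ), Real.sin (t + θ), v 2 / r] := by
      rw [← rotF_vec]
      conv_lhs => rw [e]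
      exact (rotL θ).map_smul r _
    rw [e2, eval_smul' hF]
    conv_rhs => rw [e]
    rw [eval_smul' hF]
    congr 1
    exact hinv _ _

variable {F : MvPolynomial (Fin 3) ℝ} {d n : ℕ}

/-- The rotation by `2 π / n` as a homeomorphism of the real part. -/
def Setup.rho (S : Setup F d n) : realPart F ≃ₜ realPart F :=
  homeoOf (rotL (2 * Real.pi / n)) fun v => by
    rw [rotL_apply, eval_rot S.hF S.hinv]

/-- The action of the rotation on the set of components. -/
def Setup.perm (S : Setup F d n) : Equiv.Perm (ConnectedComponents (realPart F)) where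
  toFun := S.rho.continuous.connectedComponentsMap
  invFun := S.rho.symm.continuous.connectedComponentsMap
  left_inv κ := by
    obtain ⟨x, rfl⟩ := ConnectedComponents.surjective_coe κ
    rw [Continuous.connectedComponentsMap_mk, Continuous.connectedComponentsMap_mk,
      Homeomorph.symm_apply_apply]
  right_inv κ := by
    obtain ⟨x, rfl⟩ := ConnectedComponents.surjective_coe κ
    rw [Continuous.connectedComponentsMap_mk, Continuous.connectedComponentsMap_mk,
      Homeomorph.apply_symm_apply]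

theorem Setup.perm_mk (S : Setup F d n) (x : realPart F) :
    S.perm (x : ConnectedComponents (realPart F)) = (S.rho x : realPart F) := rfl

theorem Setup.inC_perm (S : Setup F d n) {κ : ConnectedComponents (realPart F)} {s t : ℝ}
    (h : InC κ (psi s t)) : InC (S.perm κ) (psi s (t + 2 * Real.pi / n)) := by
  obtain ⟨h1, rfl⟩ := h
  have e : (S.rho ⟨psi s t, h1⟩ : realPart F).1 = psi s (t + 2 * Real.pi / n) :=
    gmap_rot _ _ _
  refine ⟨e ▸ (S.rho ⟨psi s t, h1⟩ : realPart F).2, ?_⟩
  rw [S.perm_mk]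
  congr 1
  exact Subtype.ext e

theorem Setup.inC_perm_pow (S : Setup F d n) {κ : ConnectedComponents (realPart F)} {s t : ℝ}
    (h : InC κ (psi s t)) (k : ℕ) :
    InC (S.perm^[k] κ) (psi s (t + 2 * Real.pi * k / n)) := by
  induction k with
  | zero => simpa using h
  | succ k ih =>
    have h1 := S.inC_perm ih
    rw [← Function.iterate_succ_apply' (f := S.perm)] at h1
    convert h1 using 2
    push_cast
    ring

theorem psi_add_two_pi (s t : ℝ) : psi s (t + 2 * Real.pi) = psi s t := by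
  refine mkP_eq.2 ⟨1, ?_⟩
  ext i
  fin_cases i <;> simp

theorem psi_add_int (s t : ℝ) (k : ℤ) : psi s (t + 2 * Real.pi * k) = psi s t := by
  refine mkP_eq.2 ⟨1, ?_⟩
  have e1 : Real.cos (t + 2 * Real.pi * k) = Real.cos t := by
    rw [show t + 2 * Real.pi * k = t + k * (2 * Real.pi) by ring, Real.cos_add_int_mul_two_pi]
  have e2 : Real.sin (t + 2 * Real.pi * k) = Real.sin t := by
    rw [show t + 2 * Real.pi * k = t + k * (2 * Real.pi) by ring, Real.sin_add_int_mul_two_pi]
  ext i
  fin_cases i <;> simp [e1, e2]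

theorem Setup.perm_n (S : Setup F d n) (κ : ConnectedComponents (realPart F)) :
    S.perm^[n] κ = κ := by
  obtain ⟨s, t, _, h, _⟩ := S.exists_max κ
  have h1 := S.inC_perm_pow h n
  have hn := S.npos.ne'
  rw [show 2 * Real.pi * (n : ℝ) / n = 2 * Real.pi by field_simp, psi_add_two_pi] at h1
  exact h1.unique h

/-- The component has a critical point at distance `s`. -/
def Crit {F : MvPolynomial (Fin 3) ℝ} (n : ℕ) (κ : ConnectedComponents (realPart F)) (s : ℝ) :
    Prop := ∃ t, InC κ (psi s t) ∧ dt F n s t = 0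

theorem Crit.dd {κ : ConnectedComponents (realPart F)} {s : ℝ} (h : Crit n κ s)
    (S : Setup F d n) : (DD F n).eval s = 0 := by
  obtain ⟨t, h1, h2⟩ := h
  exact S.dd_zero ((psi_mem S.hF s t).1 h1.1) h2

/-- Two components with a critical point at the same distance are in one orbit. -/
theorem Setup.crit_orbit (S : Setup F d n) {κ κ' : ConnectedComponents (realPart F)} {s : ℝ}
    (h : Crit n κ s) (h' : Crit n κ' s) : ∃ k < n, S.perm^[k] κ = κ' := by
  have hn := S.hn
  have hn' := S.npos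
  obtain ⟨t, h1, h2⟩ := h
  obtain ⟨t', h1', h2'⟩ := h'
  have e1 := S.crit ((psi_mem S.hF s t).1 h1.1) h2
  have e2 := S.crit ((psi_mem S.hF s t').1 h1'.1) h2'
  by_cases hA : (AA F n).eval s = 0
  · rw [hA, zero_mul, zero_mul] at e1
    have hP : (PP F n).eval s = 0 := by linarith [e1.1]
    have hN : (NN F n).eval s = 0 := by linarith [e1.2]
    exact ⟨0, by omega, (S.circle h1 hA hP hN t').unique h1'⟩
  · have hc : Real.cos (n * t) = Real.cos (n * t') :=
      mul_left_cancel₀ hA (e1.1.trans e2.1.symm)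
    have hs : Real.sin (n * t) = Real.sin (n * t') :=
      mul_left_cancel₀ hA (e1.2.trans e2.2.symm)
    have hexp : Complex.exp (((n * t' : ℝ) : ℂ) * Complex.I) =
        Complex.exp (((n * t : ℝ) : ℂ) * Complex.I) := by
      rw [Complex.exp_mul_I, Complex.exp_mul_I, ← Complex.ofReal_cos, ← Complex.ofReal_cos,
        ← Complex.ofReal_sin, ← Complex.ofReal_sin, hc, hs]
    obtain ⟨k, hk⟩ := Complex.exp_eq_exp_iff_exists_int.1 hexp
    have hk' : n * t' = n * t + k * (2 * Real.pi) := by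
      have h3 : (((n * t' : ℝ) : ℂ)) * Complex.I =
          ((n * t + k * (2 * Real.pi) : ℝ) : ℂ) * Complex.I := by
        rw [hk]; push_cast; ring
      have h4 := mul_right_cancel₀ Complex.I_ne_zero h3
      exact_mod_cast h4
    have hn0 : (n : ℤ) ≠ 0 := by exact_mod_cast (by omega : n ≠ 0)
    have hr0 : 0 ≤ k % n := Int.emod_nonneg k hn0
    have hr1 : k % n < n := Int.emod_lt_of_pos k (by exact_mod_cast (by omega : 0 < n))
    obtain ⟨r, hr⟩ := Int.eq_ofNat_of_zero_le hr0
    have hdiv : k = n * (k / n) + r := by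
      have := Int.mul_ediv_add_emod k n
      omega
    have ht' : t' = t + 2 * Real.pi * r / n + 2 * Real.pi * ((k / n : ℤ) : ℝ) := by
      have e3 : (k : ℝ) = n * ((k / n : ℤ) : ℝ) + r := by exact_mod_cast hdiv
      have e4 : t' = t + k * (2 * Real.pi) / n := by
        field_simp
        linarith
      rw [e4, e3]
      field_simp
      ring
    refine ⟨r, by omega, ?_⟩
    have h5 := S.inC_perm_pow h1 r
    rw [ht', psi_add_int] at h1'
    exact h5.unique h1'

theorem Setup.dt_rot (S : Setup F d n) (s t : ℝ) (k : ℕ) :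
    dt F n s (t + 2 * Real.pi * k / n) = dt F n s t := by
  have hn := S.npos.ne'
  rw [dt, dt, show (n : ℝ) * (t + 2 * Real.pi * k / n) = n * t + k * (2 * Real.pi) by
    field_simp, Real.cos_add_nat_mul_two_pi, Real.sin_add_nat_mul_two_pi]

theorem Crit.iterate {κ : ConnectedComponents (realPart F)} {s : ℝ} (h : Crit n κ s)
    (S : Setup F d n) (k : ℕ) : Crit n (S.perm^[k] κ) s := by
  obtain ⟨t, h1, h2⟩ := h
  exact ⟨_, S.inC_perm_pow h1 k, by rw [S.dt_rot, h2]⟩

/-- The component is a circle. -/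
def IsConst {F : MvPolynomial (Fin 3) ℝ} (κ : ConnectedComponents (realPart F)) : Prop :=
  ∀ p q, InC κ p → InC κ q → ph p = ph q

/-- The component meets the line `z = 0`. -/
def Meets {F : MvPolynomial (Fin 3) ℝ} (κ : ConnectedComponents (realPart F)) : Prop :=
  ∃ t, InC κ (psi 0 t)

theorem Setup.const_flat (S : Setup F d n) {κ : ConnectedComponents (realPart F)}
    (h : IsConst κ) {s : ℝ} (hs : 0 ≤ s) (hc : Crit n κ s) :
    (AA F n).eval s = 0 ∧ (PP F n).eval s = 0 ∧ (NN F n).eval s = 0 := by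
  obtain ⟨t, h1, h2⟩ := hc
  exact S.flat_of_const hs h1 h2 fun p hp => h p _ hp h1

theorem Setup.const_unique (S : Setup F d n) {κ κ' : ConnectedComponents (realPart F)}
    (h : IsConst κ) {s : ℝ} (hs : 0 ≤ s) (hc : Crit n κ s) (hc' : Crit n κ' s) : κ = κ' := by
  obtain ⟨hA, hP, hN⟩ := S.const_flat h hs hc
  obtain ⟨t, h1, _⟩ := hc
  obtain ⟨t', h1', _⟩ := hc'
  exact (S.circle h1 hA hP hN t').unique h1'

theorem Meets.iterate {κ : ConnectedComponents (realPart F)} (h : Meets κ)
    (S : Setup F d n) (k : ℕ) : Meets (S.perm^[k] κ) := by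
  obtain ⟨t, h1⟩ := h
  exact ⟨_, S.inC_perm_pow h1 k⟩

/-- `hh` at the antipodal point. -/
theorem Setup.hh_neg (S : Setup F d n) (s t : ℝ) : hh F (-s) t = hh F s (t + Real.pi) := by
  have e : ![Real.cos (t + Real.pi), Real.sin (t + Real.pi), s] =
      (-1 : ℝ) • ![Real.cos t, Real.sin t, -s] := by
    ext i; fin_cases i <;> simp
  rw [hh, hh, e, eval_smul' S.hF, S.hd.neg_one_pow, one_mul]

theorem Meets.even {κ : ConnectedComponents (realPart F)} (h : Meets κ) (S : Setup F d n) :
    Even n := by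
  by_contra hodd
  rw [Nat.not_even_iff_odd] at hodd
  have hpi : ∀ t, hh F 0 (t + Real.pi) = hh F 0 t := fun t => by
    rw [← S.hh_neg, neg_zero]
  obtain ⟨k, hk⟩ := hodd
  have hc : ∀ t, Real.cos (n * (t + Real.pi)) = -Real.cos (n * t) := fun t => by
    rw [show (n : ℝ) * (t + Real.pi) = (n * t + Real.pi) + k * (2 * Real.pi) by
      rw [hk]; push_cast; ring, Real.cos_add_nat_mul_two_pi, Real.cos_add_pi]
  have hs : ∀ t, Real.sin (n * (t + Real.pi)) = -Real.sin (n * t) := fun t => by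
    rw [show (n : ℝ) * (t + Real.pi) = (n * t + Real.pi) + k * (2 * Real.pi) by
      rw [hk]; push_cast; ring, Real.sin_add_nat_mul_two_pi, Real.sin_add_pi]
  have hall : ∀ t, hh F 0 t = (AA F n).eval 0 := fun t => by
    have h1 := hpi t
    rw [S.hh_eq 0 t]
    rw [S.hh_eq 0 t, S.hh_eq 0 (t + Real.pi), hc, hs] at h1
    linarith
  obtain ⟨y, hy⟩ := S.exists_ne
  obtain ⟨t, ht⟩ := h
  apply hy
  rw [hall, ← hall t]
  exact (psi_mem S.hF 0 t).1 ht.1

theorem Meets.half {κ : ConnectedComponents (realPart F)} (h : Meets κ) (S : Setup F d n) :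
    S.perm^[n / 2] κ = κ := by
  have hn := S.npos.ne'
  obtain ⟨k, hk⟩ := h.even S
  obtain ⟨t, ht⟩ := h
  have h1 := S.inC_perm_pow ht (n / 2)
  have e : ((n / 2 : ℕ) : ℝ) = n / 2 := by
    rw [show n / 2 = k by omega, hk]
    push_cast
    ring
  rw [e, show 2 * Real.pi * ((n : ℝ) / 2) / n = Real.pi by field_simp, psi_add_pi, neg_zero] at h1
  exact h1.unique ht

/-- A component which is not special has two critical distances. -/
theorem Setup.two_crit (S : Setup F d n) {κ : ConnectedComponents (realPart F)}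
    (h : ¬ IsConst κ) (h' : ¬ Meets κ) : ∃ s s', 0 < s ∧ s < s' ∧ Crit n κ s ∧ Crit n κ s' := by
  obtain ⟨s₁, t₁, hs₁, h1, h2, h3⟩ := S.exists_min κ
  obtain ⟨s₂, t₂, hs₂, h4, h5, h6⟩ := S.exists_max' κ
  have hs0 : s₁ ≠ 0 := by
    rintro rfl
    exact h' ⟨t₁, h1⟩
  refine ⟨s₁, s₂, lt_of_le_of_ne hs₁ (Ne.symm hs0), ?_, ⟨t₁, h1, h2 hs0⟩, ⟨t₂, h4, h5⟩⟩
  by_contra hle
  apply h
  have heq : ph (psi s₁ t₁) = ph (psi s₂ t₂) := by
    rcases (not_lt.1 hle).eq_or_lt with h7 | h7
    · rw [ph_psi, ph_psi, h7]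
    · exact absurd (h3 _ h4) (not_le.2 (ph_lt hs₂.le h7))
  have : ∀ p, InC κ p → ph p = ph (psi s₂ t₂) := fun p hp =>
    le_antisymm (h6 p hp) (heq ▸ h3 p hp)
  intro p q hp hq
  rw [this p hp, this q hq]

theorem Setup.one_crit (S : Setup F d n) (κ : ConnectedComponents (realPart F)) :
    ∃ s, 0 < s ∧ Crit n κ s := by
  obtain ⟨s, t, hs, h1, h2, _⟩ := S.exists_max' κ
  exact ⟨s, hs, t, h1, h2⟩

end

end Pool.Agent.H83.MC
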