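import Mathlib

/-!
# Rotational invariance of a real ternary form

`hh F s t` is the value of the form `F` at `(cos t, sin t, s)`.
If it has period `2 π / n` in `t` and degree `d < 2 n`, then it is
`A s + P s cos (n t) + N s sin (n t)` with explicit polynomials `A`, `P`, `N`.
-/

open MvPolynomial

namespace Pool.Agent.H83.MC

noncomputable section

/-- The value of `F` at `(cos t, sin t, s)`. -/
def hh (F : MvPolynomial (Fin 3) ℝ) (s t : ℝ) : ℝ :=
  eval ![Real.cos t, Real.sin t, s] F

theorem eval_eq_sum (F : MvPolynomial (Fin 3) ℝ) (x y z : ℝ) :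
    eval ![x, y, z] F = ∑ m ∈ F.support, coeff m F * (x ^ m 0 * y ^ m 1 * z ^ m 2) := by
  rw [MvPolynomial.eval_eq']
  refine Finset.sum_congr rfl fun m _ => ?_
  simp [Fin.prod_univ_three]

/-- The polynomial whose value at `exp (i t)` is `exp (i d t) * hh F s t`. -/
def QQ (F : MvPolynomial (Fin 3) ℝ) (d : ℕ) (s : ℝ) : Polynomial ℂ :=
  ∑ m ∈ F.support, Polynomial.C (((coeff m F * s ^ m 2 : ℝ) : ℂ)) *
    (Polynomial.X ^ (d - (m 0 + m 1)) *
      ((Polynomial.C (1 / 2) * (Polynomial.X ^ 2 + 1)) ^ m 0 *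
        (Polynomial.C (-Complex.I / 2) * (Polynomial.X ^ 2 - 1)) ^ m 1))

theorem cos_mul_exp (t : ℝ) : (Real.cos t : ℂ) * Complex.exp (t * Complex.I) =
    1 / 2 * (Complex.exp (t * Complex.I) ^ 2 + 1) := by
  have h : Complex.exp (t * Complex.I) * Complex.exp (-(t * Complex.I)) = 1 := by
    rw [← Complex.exp_add]; simp
  rw [Complex.ofReal_cos, Complex.cos]
  rw [show -(t : ℂ) * Complex.I = -(t * Complex.I) by ring]
  linear_combination (1 / 2) * h

theorem sin_mul_exp (t : ℝ) : (Real.sin t : ℂ) * Complex.exp (t * Complex.I) =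
    -Complex.I / 2 * (Complex.exp (t * Complex.I) ^ 2 - 1) := by
  have h : Complex.exp (t * Complex.I) * Complex.exp (-(t * Complex.I)) = 1 := by
    rw [← Complex.exp_add]; simp
  rw [Complex.ofReal_sin, Complex.sin]
  rw [show -(t : ℂ) * Complex.I = -(t * Complex.I) by ring]
  linear_combination (Complex.I / 2) * h

theorem deg_le {F : MvPolynomial (Fin 3) ℝ} {d : ℕ} (hF : F.IsHomogeneous d)
    {m : Fin 3 →₀ ℕ} (hm : m ∈ F.support) : m 0 + m 1 + m 2 = d := by
  have h := hF (MvPolynomial.mem_support_iff.1 hm)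
  rw [Finsupp.weight_apply, Finsupp.sum_fintype _ _ (by simp)] at h
  simpa [Fin.sum_univ_three] using h

theorem eval_QQ {F : MvPolynomial (Fin 3) ℝ} {d : ℕ} (hF : F.IsHomogeneous d) (s t : ℝ) :
    (QQ F d s).eval (Complex.exp (t * Complex.I)) =
      (hh F s t : ℂ) * Complex.exp (t * Complex.I) ^ d := by
  rw [QQ, Polynomial.eval_finsetSum, hh, eval_eq_sum]
  push_cast
  rw [Finset.sum_mul]
  refine Finset.sum_congr rfl fun m hm => ?_
  have h1 := deg_le hF hm
  have h2 : d = (d - (m 0 + m 1)) + m 0 + m 1 := by omega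
  simp only [Polynomial.eval_mul, Polynomial.eval_C, Polynomial.eval_pow, Polynomial.eval_X,
    Polynomial.eval_add, Polynomial.eval_sub, Polynomial.eval_one]
  rw [← cos_mul_exp, ← sin_mul_exp]
  conv_rhs => rw [h2]
  push_cast
  rw [pow_add, pow_add, mul_pow, mul_pow]
  ring

theorem natDegree_QQ {F : MvPolynomial (Fin 3) ℝ} {d : ℕ} (hF : F.IsHomogeneous d) (s : ℝ) :
    (QQ F d s).natDegree ≤ 2 * d := by
  refine Polynomial.natDegree_sum_le_of_forall_le _ _ fun m hm => ?_
  have h1 := deg_le hF hm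
  refine (Polynomial.natDegree_C_mul_le _ _).trans ?_
  refine (Polynomial.natDegree_mul_le).trans ?_
  have h3 : (Polynomial.X ^ (d - (m 0 + m 1)) : Polynomial ℂ).natDegree ≤ d - (m 0 + m 1) :=
    Polynomial.natDegree_X_pow_le _
  have h4 : ((Polynomial.C (1 / 2 : ℂ) * (Polynomial.X ^ 2 + 1)) ^ m 0).natDegree ≤ 2 * m 0 := by
    refine (Polynomial.natDegree_pow_le).trans ?_
    have : (Polynomial.C (1 / 2 : ℂ) * (Polynomial.X ^ 2 + 1)).natDegree ≤ 2 := by
      refine (Polynomial.natDegree_C_mul_le _ _).trans ?_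
      compute_degree
    nlinarith
  have h5 : ((Polynomial.C (-Complex.I / 2 : ℂ) * (Polynomial.X ^ 2 - 1)) ^ m 1).natDegree ≤
      2 * m 1 := by
    refine (Polynomial.natDegree_pow_le).trans ?_
    have : (Polynomial.C (-Complex.I / 2 : ℂ) * (Polynomial.X ^ 2 - 1)).natDegree ≤ 2 := by
      refine (Polynomial.natDegree_C_mul_le _ _).trans ?_
      compute_degree
    nlinarith
  have h6 := (Polynomial.natDegree_mul_le (p := (Polynomial.C (1 / 2 : ℂ) *
    (Polynomial.X ^ 2 + 1)) ^ m 0) (q := (Polynomial.C (-Complex.I / 2 : ℂ) *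
    (Polynomial.X ^ 2 - 1)) ^ m 1))
  omega

/-- A complex polynomial which vanishes on the unit circle is zero. -/
theorem eq_of_circle {P Q : Polynomial ℂ}
    (h : ∀ t : ℝ, P.eval (Complex.exp (t * Complex.I)) = Q.eval (Complex.exp (t * Complex.I))) :
    P = Q := by
  refine Polynomial.eq_of_infinite_eval_eq P Q ?_
  have h1 : Set.range (fun t : Set.Ioc (-Real.pi) Real.pi =>
      Complex.exp ((t : ℝ) * Complex.I)) ⊆ {x | P.eval x = Q.eval x} := by
    rintro _ ⟨t, rfl⟩
    exact h t
  refine Set.Infinite.mono h1 ?_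
  have : Infinite (Set.Ioc (-Real.pi) Real.pi) :=
    (Set.Ioc_infinite (by linarith [Real.pi_pos])).to_subtype
  refine Set.infinite_range_of_injective ?_
  intro a b hab
  have h2 := congrArg Complex.arg hab
  simp only at h2
  rw [Complex.arg_exp_mul_I, Complex.arg_exp_mul_I,
    (toIocMod_eq_self Real.two_pi_pos).2, (toIocMod_eq_self Real.two_pi_pos).2] at h2
  · exact Subtype.ext h2
  · have := b.2
    simp only [Set.mem_Ioc] at this ⊢
    constructor <;> linarith [this.1, this.2]
  · have := a.2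
    simp only [Set.mem_Ioc] at this ⊢
    constructor <;> linarith [this.1, this.2]

theorem zeta_pow_eq {n k d : ℕ} (hn : 0 < n)
    (h : Complex.exp (2 * Real.pi * Complex.I / n) ^ k =
      Complex.exp (2 * Real.pi * Complex.I / n) ^ d) : k ≡ d [MOD n] := by
  have h1 := Complex.isPrimitiveRoot_exp n hn.ne'
  set z := Complex.exp (2 * Real.pi * Complex.I / n) with hz
  have hz0 : z ≠ 0 := Complex.exp_ne_zero _
  rcases le_total k d with hkd | hkd
  · obtain ⟨e, rfl⟩ := Nat.exists_eq_add_of_le hkd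
    have h2 : z ^ e = 1 := by
      rw [pow_add] at h
      exact mul_left_cancel₀ (pow_ne_zero k hz0) (by rw [← h, mul_one])
    have h3 := (h1.pow_eq_one_iff_dvd e).1 h2
    exact ((Nat.modEq_iff_dvd' (by omega)).2 (by simpa using h3))
  · obtain ⟨e, rfl⟩ := Nat.exists_eq_add_of_le hkd
    have h2 : z ^ e = 1 := by
      rw [pow_add] at h
      exact mul_left_cancel₀ (pow_ne_zero d hz0) (by rw [h, mul_one])
    have h3 := (h1.pow_eq_one_iff_dvd e).1 h2
    exact ((Nat.modEq_iff_dvd' (by omega)).2 (by simpa using h3)).symm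

/-- Only the coefficients of index `d - n`, `d`, `d + n` of `QQ` are nonzero. -/
theorem coeff_QQ {F : MvPolynomial (Fin 3) ℝ} {d n : ℕ} (hF : F.IsHomogeneous d) (hn : 0 < n)
    (hd : d < 2 * n) (hinv : ∀ s t : ℝ, hh F s (t + 2 * Real.pi / n) = hh F s t) (s : ℝ) (k : ℕ)
    (h1 : k ≠ d) (h2 : k ≠ d + n) (h3 : k + n ≠ d) : (QQ F d s).coeff k = 0 := by
  by_contra hk
  have hle : k ≤ 2 * d := by
    by_contra hlt
    exact hk (Polynomial.coeff_eq_zero_of_natDegree_lt
      (lt_of_le_of_lt (natDegree_QQ hF s) (not_le.1 hlt)))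
  set z := Complex.exp (2 * Real.pi * Complex.I / n) with hz
  have hcomp : (QQ F d s).comp (Polynomial.C z * Polynomial.X) =
      Polynomial.C (z ^ d) * QQ F d s := by
    apply eq_of_circle
    intro t
    rw [Polynomial.eval_comp, Polynomial.eval_mul, Polynomial.eval_mul, Polynomial.eval_C,
      Polynomial.eval_C, Polynomial.eval_X, eval_QQ hF]
    have h4 : z * Complex.exp (t * Complex.I) =
        Complex.exp (((t + 2 * Real.pi / n : ℝ) : ℂ) * Complex.I) := by
      rw [hz, ← Complex.exp_add]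
      congr 1
      push_cast
      ring
    rw [h4, eval_QQ hF, hinv, ← h4]
    ring
  have h5 := congrArg (fun P => Polynomial.coeff P k) hcomp
  simp only [Polynomial.comp_C_mul_X_coeff, Polynomial.coeff_C_mul] at h5
  have h6 : z ^ k = z ^ d := mul_left_cancel₀ hk (by rw [h5]; ring)
  have h7 := zeta_pow_eq hn h6
  have h8 : (n : ℤ) ∣ (d : ℤ) - k := (Nat.modEq_iff_dvd).1 h7
  obtain ⟨c, hc⟩ := h8
  have h9 : c < 2 := by
    by_contra hcon
    have : (2 : ℤ) * n ≤ n * c := by nlinarith
    omega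
  have h10 : -2 < c := by
    by_contra hcon
    have : (n : ℤ) * c ≤ -2 * n := by nlinarith
    omega
  have h11 : c = -1 ∨ c = 0 ∨ c = 1 := by omega
  rcases h11 with rfl | rfl | rfl
  · apply h2; omega
  · apply h1; omega
  · apply h3; omega

/-- A form of degree `d < 2 n` invariant under the rotation by `2 π / n`. -/
theorem exists_abc {F : MvPolynomial (Fin 3) ℝ} {d n : ℕ} (hF : F.IsHomogeneous d) (hn : 0 < n)
    (hd : d < 2 * n) (hinv : ∀ s t : ℝ, hh F s (t + 2 * Real.pi / n) = hh F s t) (s : ℝ) :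
    ∃ a b c : ℝ, ∀ t, hh F s t = a + b * Real.cos (n * t) + c * Real.sin (n * t) := by
  set Q := QQ F d s with hQ
  have key : ∃ a b c : ℂ, ∀ t : ℝ, (hh F s t : ℂ) = a + b * Complex.exp (n * t * Complex.I) +
      c * Complex.exp (-(n * t * Complex.I)) := by
    by_cases hnd : n ≤ d
    · refine ⟨Q.coeff d, Q.coeff (d + n), Q.coeff (d - n), fun t => ?_⟩
      have hpoly : Q = Polynomial.C (Q.coeff d) * Polynomial.X ^ d +
          Polynomial.C (Q.coeff (d + n)) * Polynomial.X ^ (d + n) +
          Polynomial.C (Q.coeff (d - n)) * Polynomial.X ^ (d - n) := by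
        ext k
        simp only [Polynomial.coeff_add, Polynomial.coeff_C_mul_X_pow]
        by_cases h1 : k = d
        · subst h1
          rw [if_pos rfl, if_neg (by omega), if_neg (by omega)]; simp
        by_cases h2 : k = d + n
        · subst h2
          rw [if_neg (by omega), if_pos rfl, if_neg (by omega)]; simp
        by_cases h3 : k = d - n
        · subst h3
          rw [if_neg (by omega), if_neg (by omega), if_pos rfl]; simp
        · rw [if_neg h1, if_neg h2, if_neg h3]
          simpa using coeff_QQ hF hn hd hinv s k h1 h2 (by omega)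
      have h1 := eval_QQ hF s t
      rw [← hQ, hpoly] at h1
      simp only [Polynomial.eval_add, Polynomial.eval_mul, Polynomial.eval_C,
        Polynomial.eval_pow, Polynomial.eval_X] at h1
      have hw : Complex.exp (t * Complex.I) ^ d ≠ 0 := pow_ne_zero _ (Complex.exp_ne_zero _)
      refine mul_right_cancel₀ hw ?_
      rw [← h1]
      have e1 : Complex.exp (n * t * Complex.I) = Complex.exp (t * Complex.I) ^ n := by
        rw [← Complex.exp_nat_mul]; congr 1; ring
      have e2 : Complex.exp (-(n * t * Complex.I)) * Complex.exp (t * Complex.I) ^ d =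
          Complex.exp (t * Complex.I) ^ (d - n) := by
        rw [← Complex.exp_nat_mul, ← Complex.exp_nat_mul, ← Complex.exp_add]
        congr 1
        rw [Nat.cast_sub hnd]; ring
      rw [e1, ← e2]
      ring
    · refine ⟨Q.coeff d, Q.coeff (d + n), 0, fun t => ?_⟩
      have hpoly : Q = Polynomial.C (Q.coeff d) * Polynomial.X ^ d +
          Polynomial.C (Q.coeff (d + n)) * Polynomial.X ^ (d + n) := by
        ext k
        simp only [Polynomial.coeff_add, Polynomial.coeff_C_mul_X_pow]
        by_cases h1 : k = d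
        · subst h1
          rw [if_pos rfl, if_neg (by omega)]; simp
        by_cases h2 : k = d + n
        · subst h2
          rw [if_neg (by omega), if_pos rfl]; simp
        · rw [if_neg h1, if_neg h2]
          simpa using coeff_QQ hF hn hd hinv s k h1 h2 (by omega)
      have h1 := eval_QQ hF s t
      rw [← hQ, hpoly] at h1
      simp only [Polynomial.eval_add, Polynomial.eval_mul, Polynomial.eval_C,
        Polynomial.eval_pow, Polynomial.eval_X] at h1
      have hw : Complex.exp (t * Complex.I) ^ d ≠ 0 := pow_ne_zero _ (Complex.exp_ne_zero _)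
      refine mul_right_cancel₀ hw ?_
      rw [← h1]
      have e1 : Complex.exp (n * t * Complex.I) = Complex.exp (t * Complex.I) ^ n := by
        rw [← Complex.exp_nat_mul]; congr 1; ring
      rw [e1]
      ring
  obtain ⟨a, b, c, h⟩ := key
  refine ⟨a.re, b.re + c.re, c.im - b.im, fun t => ?_⟩
  have h1 := congrArg Complex.re (h t)
  have e1 : Complex.exp (n * t * Complex.I) =
      Complex.exp (((n * t : ℝ) : ℂ) * Complex.I) := by push_cast; rfl
  have e2 : Complex.exp (-(n * t * Complex.I)) =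
      Complex.exp (((-(n * t) : ℝ) : ℂ) * Complex.I) := by
    congr 1; push_cast; ring
  rw [e1, e2] at h1
  simp only [Complex.ofReal_re, Complex.add_re, Complex.mul_re, Complex.exp_ofReal_mul_I_re,
    Complex.exp_ofReal_mul_I_im, Real.cos_neg, Real.sin_neg] at h1
  rw [h1]
  ring

/-- The polynomial `s ↦ hh F s t`. -/
def HP (F : MvPolynomial (Fin 3) ℝ) (t : ℝ) : Polynomial ℝ :=
  aeval ![Polynomial.C (Real.cos t), Polynomial.C (Real.sin t), Polynomial.X] F

theorem eval_HP (F : MvPolynomial (Fin 3) ℝ) (s t : ℝ) : (HP F t).eval s = hh F s t := by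
  rw [HP, hh, ← Polynomial.coe_evalRingHom, MvPolynomial.aeval_def, ← MvPolynomial.coe_eval₂Hom,
    ← MvPolynomial.eval₂_id, ← MvPolynomial.coe_eval₂Hom]
  rw [← RingHom.comp_apply]
  congr 1
  apply MvPolynomial.ringHom_ext
  · intro r; simp
  · intro i; fin_cases i <;> simp

/-- The mean value. -/
def AA (F : MvPolynomial (Fin 3) ℝ) (n : ℕ) : Polynomial ℝ :=
  Polynomial.C (1 / 2) * (HP F 0 + HP F (Real.pi / n))

/-- The coefficient of `cos (n t)`. -/
def PP (F : MvPolynomial (Fin 3) ℝ) (n : ℕ) : Polynomial ℝ :=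
  Polynomial.C (1 / 2) * (HP F 0 - HP F (Real.pi / n))

/-- The coefficient of `sin (n t)`. -/
def NN (F : MvPolynomial (Fin 3) ℝ) (n : ℕ) : Polynomial ℝ :=
  Polynomial.C (1 / 2) * (HP F (Real.pi / (2 * n)) - HP F (3 * Real.pi / (2 * n)))

theorem hh_eq {F : MvPolynomial (Fin 3) ℝ} {d n : ℕ} (hF : F.IsHomogeneous d) (hn : 0 < n)
    (hd : d < 2 * n) (hinv : ∀ s t : ℝ, hh F s (t + 2 * Real.pi / n) = hh F s t) (s t : ℝ) :
    hh F s t = (AA F n).eval s + (PP F n).eval s * Real.cos (n * t) +
      (NN F n).eval s * Real.sin (n * t) := by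
  obtain ⟨a, b, c, h⟩ := exists_abc hF hn hd hinv s
  have hn' : (n : ℝ) ≠ 0 := by exact_mod_cast hn.ne'
  have e0 : hh F s 0 = a + b := by rw [h]; simp
  have e1 : hh F s (Real.pi / n) = a - b := by
    rw [h, show (n : ℝ) * (Real.pi / n) = Real.pi by field_simp]; simp; ring
  have e2 : hh F s (Real.pi / (2 * n)) = a + c := by
    rw [h, show (n : ℝ) * (Real.pi / (2 * n)) = Real.pi / 2 by field_simp]; simp
  have e3 : hh F s (3 * Real.pi / (2 * n)) = a - c := by
    rw [h, show (n : ℝ) * (3 * Real.pi / (2 * n)) = Real.pi / 2 + Real.pi by field_simp; ring]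
    rw [Real.cos_add_pi, Real.sin_add_pi]; simp; ring
  rw [h t, AA, PP, NN]
  simp only [Polynomial.eval_mul, Polynomial.eval_C, Polynomial.eval_add, Polynomial.eval_sub,
    eval_HP, e0, e1, e2, e3]
  ring

end

end Pool.Agent.H83.MC
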